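import Pool.Agent.N998.FP.Corr

/-!
# A checker for corrections

For a degree `m` with at most two odd prime factors `q`, `r` and a residue `u` the checker verifies
certificates which prove that in every characteristic `p` with `p ^ F = u` modulo `m`, `F` odd, all
Tate characters of degree `m` get even parities after the addition of Hodge characters and characters
of surfaces.
-/

set_option linter.unusedSectionVars false

namespace Pool.Agent.N998.FP

open Finset Pool.Agent.H916R2 Pool.Agent.H916T Pool.Agent.H916Z Pool.Agent.H916Q Pool.Agent.H916Y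
  Pool.Agent.N992

/-! ### Computable sums -/

/-- the sum of `2 x` (of `m` if `x` is zero) over the residues `x`, `u x`, ... -/
def wN (m u : ℕ) : ℕ → ℕ → ℕ
  | 0, _ => 0
  | n + 1, x => (if x = 0 then m else 2 * x) + wN m u n (u * x % m)

variable {m : ℕ}

lemma cast_mod (x : ℕ) : ((x % m : ℕ) : ZMod m) = (x : ZMod m) := by simp

lemma wN_eq [NeZero m] (u n : ℕ) : ∀ x : ℕ, x < m →
    ((wN m u n x : ℕ) : ℤ) = wz (u : ZMod m) n (x : ZMod m) + n * m := by
  induction n with
  | zero => intro x _; simp [wN, wz]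
  | succ n ih =>
    intro x hx
    have h1 := ih (u * x % m) (Nat.mod_lt _ (NeZero.pos m))
    rw [cast_mod] at h1
    unfold wN
    push_cast
    rw [h1]
    unfold wz
    rw [sum_range_succ']
    have h2 : saw ((u : ZMod m) ^ 0 * (x : ZMod m)) = if x = 0 then 0 else 2 * (x : ℤ) - m := by
      rw [pow_zero, one_mul]
      unfold saw
      have h3 : ((x : ZMod m) = 0) ↔ x = 0 := by
        rw [ZMod.natCast_eq_zero_iff]
        constructor
        · intro h
          exact Nat.eq_zero_of_dvd_of_lt h hx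
        · rintro rfl; exact dvd_zero m
      by_cases h0 : x = 0
      · rw [if_pos h0, if_pos (h3.mpr h0)]
      · rw [if_neg h0, if_neg (fun h => h0 (h3.mp h)), ZMod.val_natCast, Nat.mod_eq_of_lt hx]
    rw [h2]
    have h4 : ∑ i ∈ range n, saw ((u : ZMod m) ^ i * ((u * x : ℕ) : ZMod m)) =
        ∑ i ∈ range n, saw ((u : ZMod m) ^ (i + 1) * (x : ZMod m)) := by
      refine sum_congr rfl fun i _ => ?_
      congr 1
      push_cast
      ring
    rw [h4]
    split_ifs
    · ring
    · ring

/-- the units, as natural numbers -/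
def uL (m : ℕ) : List ℕ := (List.range m).filter fun t => Nat.gcd t m == 1

lemma val_mem_uL [NeZero m] (t : (ZMod m)ˣ) : (t : ZMod m).val ∈ uL m := by
  unfold uL
  rw [List.mem_filter, List.mem_range]
  refine ⟨ZMod.val_lt _, ?_⟩
  rw [beq_iff_eq]
  exact ZMod.val_coe_unit_coprime t

/-! ### Codes -/

/-- the code of an order -/
def codeO (q r n : ℕ) : ℕ :=
  if n % 2 = 0 then 0 else if n % q = 0 then (if n % r = 0 then 3 else 1) else 2

/-- the code of a residue -/
def code (m q r x : ℕ) : ℕ := codeO q r (m / Nat.gcd x m)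

/-- the class of a residue -/
def cls (m q r : ℕ) (cm : List ℕ) (x : ℕ) : ℕ := cm.getD (code m q r x) 0

lemma code_val [NeZero m] (q r : ℕ) (a : ZMod m) : code m q r a.val = codeO q r (addOrderOf a) := by
  unfold code
  rw [addOrderOf_eq]

lemma codeO_lt (q r n : ℕ) : codeO q r n < 4 := by
  unfold codeO
  split_ifs <;> omega

/-- the odd prime factors of `m` are among `q`, `r` -/
def Only (m q r : ℕ) : Prop := ∀ l : ℕ, l.Prime → l ∣ m → l = 2 ∨ l = q ∨ l = r

lemma link_of_code [NeZero m] {p q r : ℕ} (hO : Only m q r) {a b : ZMod m} (ha : a ≠ 0)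
    (hb : b ≠ 0) (h : codeO q r (addOrderOf a) = codeO q r (addOrderOf b)) : Link p a b := by
  refine ⟨ha, hb, ?_⟩
  have hda : addOrderOf a ∣ m := addOrderOf_dvd_level a
  have hdb : addOrderOf b ∣ m := addOrderOf_dvd_level b
  have ha1 : addOrderOf a ≠ 1 := fun h => ha (AddMonoid.addOrderOf_eq_one_iff.mp h)
  have hb1 : addOrderOf b ≠ 1 := fun h => hb (AddMonoid.addOrderOf_eq_one_iff.mp h)
  have hapos := addOrderOf_pos a
  have hbpos := addOrderOf_pos b
  by_cases hea : addOrderOf a % 2 = 0
  · have h1 : codeO q r (addOrderOf a) = 0 := by unfold codeO; rw [if_pos hea]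
    have h2 : addOrderOf b % 2 = 0 := by
      by_contra h3
      rw [h1] at h
      unfold codeO at h
      rw [if_neg h3] at h
      split_ifs at h <;> omega
    exact Or.inr (Or.inl ⟨Nat.dvd_of_mod_eq_zero hea, Nat.dvd_of_mod_eq_zero h2⟩)
  · left
    have heb : ¬ addOrderOf b % 2 = 0 := by
      intro h3
      have h1 : codeO q r (addOrderOf b) = 0 := by unfold codeO; rw [if_pos h3]
      rw [h1] at h
      unfold codeO at h
      rw [if_neg hea] at h
      split_ifs at h <;> omega
    -- some prime divides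
    have key : ∀ n : ℕ, n ∣ m → n ≠ 1 → n ≠ 0 → ¬ n % 2 = 0 → n % q = 0 ∨ n % r = 0 := by
      intro n hn hn1 _ hn2
      obtain ⟨l, hl, hln⟩ := Nat.exists_prime_and_dvd hn1
      rcases hO l hl (hln.trans hn) with h3 | h3 | h3
      · subst h3; exact absurd (Nat.mod_eq_zero_of_dvd hln) hn2
      · subst h3; exact Or.inl (Nat.mod_eq_zero_of_dvd hln)
      · subst h3; exact Or.inr (Nat.mod_eq_zero_of_dvd hln)
    have hka := key _ hda ha1 hapos.ne' hea
    have hkb := key _ hdb hb1 hbpos.ne' heb
    unfold codeO at h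
    rw [if_neg hea, if_neg heb] at h
    have hq : addOrderOf a % q = 0 ↔ addOrderOf b % q = 0 := by
      by_cases h1 : addOrderOf a % q = 0 <;> by_cases h2 : addOrderOf b % q = 0
      · simp [h1, h2]
      · rw [if_pos h1, if_neg h2] at h
        split_ifs at h <;> omega
      · rw [if_neg h1, if_pos h2] at h
        split_ifs at h <;> omega
      · simp [h1, h2]
    have hr : addOrderOf a % r = 0 ↔ addOrderOf b % r = 0 := by
      by_cases h1 : addOrderOf a % q = 0
      · have h2 := hq.mp h1
        rw [if_pos h1, if_pos h2] at h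
        by_cases h3 : addOrderOf a % r = 0 <;> by_cases h4 : addOrderOf b % r = 0
        · simp [h3, h4]
        · rw [if_pos h3, if_neg h4] at h; omega
        · rw [if_neg h3, if_pos h4] at h; omega
        · simp [h3, h4]
      · have h2 : ¬ addOrderOf b % q = 0 := fun h3 => h1 (hq.mpr h3)
        have h3 := hka.resolve_left h1
        have h4 := hkb.resolve_left h2
        simp [h3, h4]
    ext l
    rw [Nat.mem_primeFactors, Nat.mem_primeFactors]
    constructor
    · rintro ⟨hl, hla, _⟩
      refine ⟨hl, ?_, hbpos.ne'⟩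
      rcases hO l hl (hla.trans hda) with h3 | h3 | h3
      · subst h3; exact absurd (Nat.mod_eq_zero_of_dvd hla) hea
      · subst h3; exact Nat.dvd_of_mod_eq_zero (hq.mp (Nat.mod_eq_zero_of_dvd hla))
      · subst h3; exact Nat.dvd_of_mod_eq_zero (hr.mp (Nat.mod_eq_zero_of_dvd hla))
    · rintro ⟨hl, hlb, _⟩
      refine ⟨hl, ?_, hapos.ne'⟩
      rcases hO l hl (hlb.trans hdb) with h3 | h3 | h3
      · subst h3; exact absurd (Nat.mod_eq_zero_of_dvd hlb) heb
      · subst h3; exact Nat.dvd_of_mod_eq_zero (hq.mpr (Nat.mod_eq_zero_of_dvd hlb))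
      · subst h3; exact Nat.dvd_of_mod_eq_zero (hr.mpr (Nat.mod_eq_zero_of_dvd hlb))

lemma addOrder_unit (t : (ZMod m)ˣ) (a : ZMod m) :
    addOrderOf ((t : ZMod m) * a) = addOrderOf a := by
  have h3 : ∀ k : ℕ, k • ((t : ZMod m) * a) = 0 ↔ k • a = 0 := by
    intro k
    rw [nsmul_eq_mul, nsmul_eq_mul, mul_left_comm]
    exact t.isUnit.mul_right_eq_zero
  apply Nat.dvd_antisymm
  · rw [addOrderOf_dvd_iff_nsmul_eq_zero, h3]
    exact addOrderOf_nsmul_eq_zero _
  · rw [addOrderOf_dvd_iff_nsmul_eq_zero, ← h3]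
    exact addOrderOf_nsmul_eq_zero _

lemma cls_unit [NeZero m] (q r : ℕ) (cm : List ℕ) (t : (ZMod m)ˣ) (a : ZMod m) :
    cls m q r cm ((t : ZMod m) * a).val = cls m q r cm a.val := by
  unfold cls
  rw [code_val, code_val, addOrder_unit]

/-! ### The checker -/

/-- a certificate for the evenness of the number of elements in the classes `La` -/
structure Ce where
  /-- the classes -/
  La : List ℕ
  /-- the exponent of two -/
  E : ℕ
  /-- units and coefficients -/
  L : List (ℕ × ℕ)
  /-- the constant -/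
  eps : ℕ

/-- a correction for the class `i` -/
structure Pv where
  /-- the class -/
  i : ℕ
  /-- is it a Hodge character -/
  hodge : Bool
  /-- the entries -/
  h : List ℕ

/-- the data for a residue `u` -/
structure Cs where
  /-- the residue -/
  u : ℕ
  /-- `u ^ n = 1` -/
  n : ℕ
  /-- the classes of the codes -/
  cm : List ℕ
  /-- witnesses for links -/
  lk : List (ℕ × ℕ)
  /-- certificates -/
  ce : List Ce
  /-- corrections -/
  pv : List Pv

/-- check of a link -/
def linkOK (m q r u n : ℕ) (cm : List ℕ) (i : ℕ) (ab : ℕ × ℕ) : Bool :=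
  cm.getD i 0 == i || ((List.range m).all fun x => x == 0 || code m q r x != i) ||
  (decide (0 < ab.1) && decide (ab.1 < m) && decide (0 < ab.2) && decide (ab.2 < m) &&
    code m q r ab.1 == i && code m q r ab.2 == cm.getD i 0 &&
    (uL m).all fun t => wN m u n (t * ab.1 % m) == wN m u n (t * ab.2 % m))

/-- check of a certificate -/
def certOK (m q r u n : ℕ) (cm : List ℕ) (c : Ce) : Bool :=
  (c.L.all fun x => Nat.gcd x.1 m == 1) &&
  (List.range m).all fun a => a == 0 ||
    (2 ^ c.E * (c.La.count (cls m q r cm a) + c.eps) + (c.L.map fun x => x.2).sum * (n * m)) %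
      2 ^ (c.E + 1) ==
    (c.L.map fun x => x.2 * wN m u n (x.1 * a % m)).sum % 2 ^ (c.E + 1)

/-- check of a correction -/
def pvOK (m q r u n : ℕ) (cm : List ℕ) (v : Pv) : Bool :=
  (v.h.all fun x => decide (0 < x) && decide (x < m)) && v.h.length % 2 == 0 &&
    v.h.sum % m == 0 && (v.h.countP fun x => cls m q r cm x == v.i) % 2 == 1 &&
    (if v.hodge then
      (uL m).all fun t => (v.h.map fun x => wN m 1 1 (t * x % m)).sum == m * v.h.length
    else v.h.length == 4 &&
      (uL m).all fun t => (v.h.map fun x => wN m u n (t * x % m)).sum == n * m * 4)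

/-- the sum of the binary digits of `x` at the places `R` is even -/
def evB (x : ℕ) (R : List ℕ) : Bool := (R.map fun i => x / 2 ^ i % 2).sum % 2 == 0

/-- the rows imply that all digits are zero -/
def rowsOK (rows : List (List ℕ)) : Bool :=
  (List.range 16).all fun x => !(rows.all (evB x)) || x == 0

/-- the absent classes -/
def absent (m q r : ℕ) (cm : List ℕ) : List ℕ :=
  (List.range 4).filter fun i => (List.range m).all fun x => x == 0 || cls m q r cm x != i

/-- the rows -/
def rows (m q r : ℕ) (c : Cs) : List (List ℕ) :=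
  [0, 1, 2, 3] :: ((c.pv.map fun v => [v.i]) ++ (c.ce.map fun d => d.La) ++
    (absent m q r c.cm).map fun i => [i])

/-- check of a case -/
def caseOK (m q r : ℕ) (c : Cs) : Bool :=
  decide (0 < c.n) && c.u ^ c.n % m == 1 % m && (c.cm.all fun x => decide (x < 4)) &&
    ((List.range 4).all fun i => linkOK m q r c.u c.n c.cm i (c.lk.getD i (0, 0))) &&
    (c.ce.all fun d => (d.La.all fun x => decide (x < 4)) && certOK m q r c.u c.n c.cm d) &&
    (c.pv.all fun v => decide (v.i < 4) && pvOK m q r c.u c.n c.cm v) &&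
    decide (c.pv.length ≤ 1) && rowsOK (rows m q r c)

/-! ### Soundness -/

lemma sum_digits (X : ℕ → ℕ) :
    ∀ i < 4, (∑ j ∈ range 4, X j % 2 * 2 ^ j) / 2 ^ i % 2 = X i % 2 := by
  intro i hi
  have h0 : X 0 % 2 < 2 := Nat.mod_lt _ (by norm_num)
  have h1 : X 1 % 2 < 2 := Nat.mod_lt _ (by norm_num)
  have h2 : X 2 % 2 < 2 := Nat.mod_lt _ (by norm_num)
  have h3 : X 3 % 2 < 2 := Nat.mod_lt _ (by norm_num)
  simp only [sum_range_succ, sum_range_zero]
  interval_cases i <;> norm_num <;> omega

lemma rows_sound {R : List (List ℕ)} (h : rowsOK R = true) (X : ℕ → ℕ)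
    (hlt : ∀ A ∈ R, ∀ i ∈ A, i < 4) (hX : ∀ A ∈ R, Even ((A.map X).sum)) :
    ∀ i < 4, Even (X i) := by
  set x := ∑ j ∈ range 4, X j % 2 * 2 ^ j with hx
  have hd := sum_digits X
  have hx16 : x < 16 := by
    have h0 : X 0 % 2 < 2 := Nat.mod_lt _ (by norm_num)
    have h1 : X 1 % 2 < 2 := Nat.mod_lt _ (by norm_num)
    have h2 : X 2 % 2 < 2 := Nat.mod_lt _ (by norm_num)
    have h3 : X 3 % 2 < 2 := Nat.mod_lt _ (by norm_num)
    rw [hx]
    simp only [sum_range_succ, sum_range_zero]
    norm_num
    omega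
  have h1 := List.all_eq_true.mp h x (List.mem_range.mpr hx16)
  rw [Bool.or_eq_true, Bool.not_eq_true'] at h1
  have h2 : R.all (evB x) = true := by
    rw [List.all_eq_true]
    intro A hA
    unfold evB
    rw [beq_iff_eq]
    have h3 : ∀ B : List ℕ, (∀ i ∈ B, i < 4) →
        (B.map fun i => x / 2 ^ i % 2).sum % 2 = (B.map X).sum % 2 := by
      intro B
      induction B with
      | nil => intro _; rfl
      | cons b B ih =>
        intro hB
        rw [List.map_cons, List.sum_cons, List.map_cons, List.sum_cons, hd b (hB b (by simp))]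
        have h4 := ih (fun i hi => hB i (List.mem_cons_of_mem _ hi))
        omega
    rw [h3 A (hlt A hA)]
    exact Nat.even_iff.mp (hX A hA)
  rcases h1 with h1 | h1
  · rw [h2] at h1; exact absurd h1 (by simp)
  · rw [beq_iff_eq] at h1
    intro i hi
    rw [Nat.even_iff, ← hd i hi, ← hx, h1]
    simp

/-- counts of classes -/
lemma count_sum [NeZero m] (κ : ZMod m → ℕ) (s : Multiset (ZMod m)) (A : List ℕ) :
    (s.map fun a => A.count (κ a)).sum = (A.map fun i => s.countP fun a => κ a = i).sum := by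
  induction s using Multiset.induction_on with
  | empty => simp
  | cons a s ih =>
    rw [Multiset.map_cons, Multiset.sum_cons, ih]
    clear ih
    induction A with
    | nil => simp
    | cons b A ih =>
      rw [List.map_cons, List.sum_cons, List.map_cons, List.sum_cons, List.count_cons,
        Multiset.countP_cons]
      by_cases h : κ a = b
      · have h' : (b == κ a) = true := by rw [beq_iff_eq]; exact h.symm
        rw [if_pos h', if_pos h]
        omega
      · have h' : ¬ (b == κ a) = true := by rw [beq_iff_eq]; exact fun h2 => h h2.symm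
        rw [if_neg h', if_neg h]
        omega

section sound

variable [NeZero m] {p q r : ℕ}

/-- equality of the sums for all units, from the checker -/
lemma wz_of_wN {u n a : ℕ} (t : ZMod m) (hx : t.val * a % m < m) :
    wz (u : ZMod m) n (t * (a : ZMod m)) = ((wN m u n (t.val * a % m) : ℕ) : ℤ) - n * m := by
  rw [wN_eq u n _ hx, cast_mod]
  push_cast
  rw [ZMod.natCast_zmod_val]
  ring

lemma link_sound (hp : p.Coprime m) {F u n : ℕ} (hF : 0 < F) (hn : 0 < n) (hc : F.Coprime n)
    (hu : (p : ZMod m) ^ F = (u : ZMod m)) (hun : (u : ZMod m) ^ n = 1) {a b : ℕ}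
    (ha : (a : ZMod m) ≠ 0) (hb : (b : ZMod m) ≠ 0)
    (h : ∀ t ∈ uL m, wN m u n (t * a % m) = wN m u n (t * b % m)) :
    Link p (a : ZMod m) (b : ZMod m) := by
  refine ⟨ha, hb, Or.inr (Or.inr fun t => ?_)⟩
  obtain ⟨k, hk, hk2⟩ := norm_sum hp hF hn hc (by rw [hu, hun])
  have h1 : ∀ t : (ZMod m)ˣ, wz (u : ZMod m) n ((t : ZMod m) * (a : ZMod m)) =
      wz (u : ZMod m) n ((t : ZMod m) * (b : ZMod m)) := by
    intro t
    rw [wz_of_wN _ (Nat.mod_lt _ (NeZero.pos m)), wz_of_wN _ (Nat.mod_lt _ (NeZero.pos m)),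
      h _ (val_mem_uL t)]
  have h2 := hk2 ((t : ZMod m) * (a : ZMod m))
  have h3 := hk2 ((t : ZMod m) * (b : ZMod m))
  rw [hu] at h2 h3
  have h4 : ∀ l ∈ range F, wz (u : ZMod m) n (((p : ZMod m) ^ n) ^ l * ((t : ZMod m) * (a : ZMod m))) =
      wz (u : ZMod m) n (((p : ZMod m) ^ n) ^ l * ((t : ZMod m) * (b : ZMod m))) := by
    intro l _
    have h5 := h1 ((pu m p hp ^ n) ^ l * t)
    rw [Units.val_mul, Units.val_pow_eq_pow_val, Units.val_pow_eq_pow_val, pu_val, mul_assoc,
      mul_assoc] at h5
    exact h5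
  rw [sum_congr rfl h4, h3] at h2
  have h6 : (k : ℤ) ≠ 0 := by exact_mod_cast hk.ne'
  exact (mul_left_cancel₀ h6 h2).symm

/-- the map to the classes separates only unlinked residues -/
lemma eqv_of_cls (hO : Only m q r) (hp : p.Coprime m) {F : ℕ} (hF : 0 < F) {c : Cs}
    (hn : 0 < c.n) (hc : F.Coprime c.n) (hu : (p : ZMod m) ^ F = (c.u : ZMod m))
    (hun : (c.u : ZMod m) ^ c.n = 1)
    (hl : ((List.range 4).all fun i => linkOK m q r c.u c.n c.cm i (c.lk.getD i (0, 0))) = true)
    {a b : ZMod m} (ha : a ≠ 0) (hb : b ≠ 0)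
    (h : cls m q r c.cm a.val = cls m q r c.cm b.val) : Relation.EqvGen (Link p) a b := by
  -- every residue is equivalent to one whose code is its class
  have key : ∀ a : ZMod m, a ≠ 0 → ∃ a' : ZMod m, a' ≠ 0 ∧
      codeO q r (addOrderOf a') = cls m q r c.cm a.val ∧ Relation.EqvGen (Link p) a a' := by
    intro a ha
    have h1 := List.all_eq_true.mp hl (code m q r a.val) (List.mem_range.mpr (by
      rw [code_val]; exact codeO_lt _ _ _))
    unfold linkOK at h1
    rw [Bool.or_eq_true, Bool.or_eq_true] at h1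
    rcases h1 with (h1 | h1) | h1
    · rw [beq_iff_eq] at h1
      refine ⟨a, ha, ?_, Relation.EqvGen.refl a⟩
      rw [← code_val]
      exact h1.symm
    · exfalso
      have h2 := List.all_eq_true.mp h1 a.val (List.mem_range.mpr (ZMod.val_lt a))
      rw [Bool.or_eq_true, beq_iff_eq, bne_iff_ne] at h2
      rcases h2 with h2 | h2
      · exact ha ((ZMod.val_eq_zero a).mp h2)
      · exact h2 rfl
    · simp only [Bool.and_eq_true, decide_eq_true_eq, beq_iff_eq] at h1
      set x := (c.lk.getD (code m q r a.val) (0, 0)).1 with hx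
      set y := (c.lk.getD (code m q r a.val) (0, 0)).2 with hy
      obtain ⟨⟨⟨⟨⟨⟨hx0, hxm⟩, hy0⟩, hym⟩, hcx⟩, hcy⟩, hall⟩ := h1
      have hne : ∀ x : ℕ, 0 < x → x < m → (x : ZMod m) ≠ 0 := by
        intro x h0 h1 h2
        rw [ZMod.natCast_eq_zero_iff] at h2
        exact h0.ne' (Nat.eq_zero_of_dvd_of_lt h2 h1)
      have hval : ∀ x : ℕ, x < m → ((x : ZMod m)).val = x := fun x hx => by
        rw [ZMod.val_natCast, Nat.mod_eq_of_lt hx]
      refine ⟨(y : ZMod m), hne y hy0 hym, ?_, ?_⟩
      · rw [← code_val, hval y hym, hcy]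
        rfl
      · refine Relation.EqvGen.trans _ (x : ZMod m) _ (Relation.EqvGen.rel _ _ ?_)
          (Relation.EqvGen.rel _ _ ?_)
        · apply link_of_code hO ha (hne x hx0 hxm)
          rw [← code_val, ← code_val, hval x hxm, hcx]
        · apply link_sound hp hF hn hc hu hun (hne x hx0 hxm) (hne y hy0 hym)
          intro t ht
          have h2 := List.all_eq_true.mp hall t ht
          rw [beq_iff_eq] at h2
          exact h2
  obtain ⟨a', ha', hca, hea⟩ := key a ha
  obtain ⟨b', hb', hcb, heb⟩ := key b hb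
  refine Relation.EqvGen.trans _ _ _ hea (Relation.EqvGen.trans _ _ _
    (Relation.EqvGen.rel _ _ (link_of_code hO ha' hb' ?_)) (Relation.EqvGen.symm _ _ heb))
  rw [hca, hcb, h]

/-- certificates -/
lemma cert_sound (hp : p.Coprime m) {F : ℕ} (hF : Odd F) {u n : ℕ} {cm : List ℕ} {c : Ce}
    (hn : 0 < n) (hc : F.Coprime n) (hu : (p : ZMod m) ^ F = (u : ZMod m))
    (hun : (u : ZMod m) ^ n = 1) (h : certOK m q r u n cm c = true)
    {s : Multiset (ZMod m)} (hs : IsTate p m s) :
    Even ((c.La.map fun i => s.countP fun a => cls m q r cm a.val = i).sum) := by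
  unfold certOK at h
  rw [Bool.and_eq_true] at h
  obtain ⟨h1, h2⟩ := h
  have h1' : ∀ x ∈ c.L, Nat.Coprime x.1 m := by
    intro x hx
    have := List.all_eq_true.mp h1 x hx
    rw [beq_iff_eq] at this
    exact this
  -- the list of units
  obtain ⟨L', hL'⟩ : ∃ L' : List ((ZMod m)ˣ × ℤ),
      L'.map (fun x => ((x.1 : ZMod m), x.2)) = c.L.map fun x => ((x.1 : ZMod m), (x.2 : ℤ)) := by
    have h3 : ∀ L : List (ℕ × ℕ), (∀ x ∈ L, Nat.Coprime x.1 m) → ∃ L' : List ((ZMod m)ˣ × ℤ),
        L'.map (fun x => ((x.1 : ZMod m), x.2)) = L.map fun x => ((x.1 : ZMod m), (x.2 : ℤ)) := by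
      intro L
      induction L with
      | nil => intro _; exact ⟨[], rfl⟩
      | cons x L ih =>
        intro hL
        obtain ⟨L', hL'⟩ := ih (fun y hy => hL y (List.mem_cons_of_mem _ hy))
        refine ⟨(ZMod.unitOfCoprime x.1 (hL x (by simp)), (x.2 : ℤ)) :: L', ?_⟩
        rw [List.map_cons, List.map_cons, hL', ZMod.coe_unitOfCoprime]
    exact h3 c.L h1'
  have hsum : ∀ a : ℕ, (L'.map fun x => x.2 * wz (u : ZMod m) n ((x.1 : ZMod m) * (a : ZMod m))).sum =
      (((c.L.map fun x => x.2 * wN m u n (x.1 * a % m)).sum : ℕ) : ℤ) -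
        (((c.L.map fun x => x.2).sum : ℕ) : ℤ) * (n * m) := by
    intro a
    have h4 : (L'.map fun x => x.2 * wz (u : ZMod m) n ((x.1 : ZMod m) * (a : ZMod m))).sum =
        (c.L.map fun x => (x.2 : ℤ) * wz (u : ZMod m) n ((x.1 : ZMod m) * (a : ZMod m))).sum := by
      have h5 := congrArg (fun l : List (ZMod m × ℤ) =>
        (l.map fun y => y.2 * wz (u : ZMod m) n (y.1 * (a : ZMod m))).sum) hL'
      simp only [List.map_map] at h5
      exact h5
    rw [h4]
    clear h4 h1 h2 hL' L' h1'
    induction c.L with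
    | nil => simp
    | cons x L ih =>
      simp only [List.map_cons, List.sum_cons] at ih ⊢
      rw [ih]
      have h6 : wz (u : ZMod m) n ((x.1 : ZMod m) * (a : ZMod m)) =
          ((wN m u n (x.1 * a % m) : ℕ) : ℤ) - n * m := by
        rw [wN_eq u n _ (Nat.mod_lt _ (NeZero.pos m)), cast_mod]
        push_cast
        ring
      rw [h6]
      push_cast
      ring
  have h3 := even_of_cert hp hs hF hn hc (by rw [hu, hun])
    (fun a => ((c.La.count (cls m q r cm a.val) : ℕ) : ℤ)) (by
      intro t a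
      rw [cls_unit]) L' c.E (-(c.eps : ℤ)) (by
      intro a ha
      rw [hu]
      have h4 := hsum a.val
      rw [ZMod.natCast_zmod_val] at h4
      rw [h4]
      have h5 := List.all_eq_true.mp h2 a.val (List.mem_range.mpr (ZMod.val_lt a))
      rw [Bool.or_eq_true, beq_iff_eq, beq_iff_eq] at h5
      have h6 := h5.resolve_left (fun h => ha ((ZMod.val_eq_zero a).mp h))
      have h7 : (2 ^ c.E * (c.La.count (cls m q r cm a.val) + c.eps) +
          (c.L.map fun x => x.2).sum * (n * m)) ≡
          (c.L.map fun x => x.2 * wN m u n (x.1 * a.val % m)).sum [MOD 2 ^ (c.E + 1)] := h6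
      have h8 := (Nat.modEq_iff_dvd.mp h7.symm)
      push_cast at h8
      convert h8 using 1
      push_cast
      ring)
  have h4 : (s.map fun a => ((c.La.count (cls m q r cm a.val) : ℕ) : ℤ)).sum =
      (((s.map fun a => c.La.count (cls m q r cm a.val)).sum : ℕ) : ℤ) := by
    rw [Nat.cast_multiset_sum, Multiset.map_map]
    rfl
  rw [h4, count_sum (fun a : ZMod m => cls m q r cm a.val)] at h3
  rw [even_iff_two_dvd]
  exact_mod_cast h3

end sound

end Pool.Agent.N998.FP
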