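import Pool.Agent.H916T.Defs
import Pool.Agent.N992.FourDefs

/-!
# Characters lifted from characteristic zero

`Pool.Agent.N992.FourBase` describes Hodge characters of Fermat varieties whose lines are algebraic in
characteristic zero.
-/

namespace Pool.Agent.N998.FP

open Pool.Agent.H916T Pool.Agent.N992

/-- The characters of degree `M` lifted from characteristic zero: the multisets `k s` of residues
modulo `M = k m`, where `s` is a Hodge character of degree `m` such that for some `l > 0` the
character `l s` of degree `l m` is generated by pairs, standard characters and members of `FourBase`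
(in characteristic zero). -/
def Lifted (M : ℕ) (t : Multiset (ZMod M)) : Prop :=
  ∃ (m k l : ℕ) (_ : NeZero (l * m)) (s : Multiset (ZMod m)), k * m = M ∧ H916R2.IsHodge m s ∧
    H916R2.Generated (l * m) (FourBase (l * m))
      (s.map fun a => ((l * a.val : ℕ) : ZMod (l * m))) ∧
    t = s.map fun a => ((k * a.val : ℕ) : ZMod M)

/-- The base family in characteristic `p`: Tate characters with four entries, standard characters,
characters lifted from characteristic zero. -/
def Base (p M : ℕ) (t : Multiset (ZMod M)) : Prop :=
  SurfaceTate p M t ∨ (∃ q : ℕ, q.Prime ∧ q ∣ M ∧ Standard q M t) ∨ Lifted M t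

end Pool.Agent.N998.FP
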