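import Pool.Agent.N998.FP.Norm
import Pool.Agent.N998.FP.Defs

/-!
# Corrections

A Tate character is generated as soon as it has even parities after the addition of Hodge characters
and of characters of surfaces.
-/

set_option linter.unusedSectionVars false

namespace Pool.Agent.N998.FP

open Finset Pool.Agent.H916R2 Pool.Agent.H916T Pool.Agent.H916Z Pool.Agent.H916Q Pool.Agent.H916Y
  Pool.Agent.N992

variable {p m : ℕ}

/-- all Hodge characters of degree `m` are algebraic in characteristic zero -/
def Known (m : ℕ) : Prop :=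
  ∀ s : Multiset (ZMod m), IsHodge m s → s ≠ 0 → ∃ (l : ℕ) (_ : NeZero (l * m)),
    H916R2.Generated (l * m) (FourBase (l * m)) (s.map fun a => ((l * a.val : ℕ) : ZMod (l * m)))

/-- every Tate character of degree `m` is generated -/
def Conc (p m : ℕ) : Prop :=
  ∀ s : Multiset (ZMod m), IsTate p m s → s ≠ 0 → ∃ N : ℕ, 0 < N ∧ p.Coprime N ∧
    ∀ M : ℕ, N * m = M → H916T.Generated M (Base p M) (s.map (iota N : ZMod m → ZMod M))

open scoped Classical in
/-- corrections exist -/
def CorrOK (p m : ℕ) : Prop :=
  ∀ s : Multiset (ZMod m), IsTate p m s → ∃ l : Multiset (Multiset (ZMod m)),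
    (∀ x ∈ l, IsHodge m x ∨ SurfaceTate p m x) ∧
      ∀ a : ZMod m, Even ((s + l.sum).countP (fun b => Relation.EqvGen (Link p) a b))

lemma isTate_of_hodge [NeZero m] (hpm : p.Coprime m) {s : Multiset (ZMod m)} (hs : IsHodge m s) :
    IsTate p m s := Pool.Agent.N214.FT.isTate_of_isHodge hpm hs

lemma isTate_sum' [NeZero m] (hpm : p.Coprime m) (l : Multiset (Multiset (ZMod m)))
    (hl : ∀ x ∈ l, IsTate p m x) : IsTate p m l.sum := by
  induction l using Multiset.induction_on with
  | empty => simpa using isTate_zero hpm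
  | cons a l ih =>
    rw [Multiset.sum_cons]
    exact isTate_add hpm (hl a (Multiset.mem_cons_self _ _))
      (ih fun x hx => hl x (Multiset.mem_cons_of_mem hx))

lemma remove_base {M : ℕ} {base : Multiset (ZMod M) → Prop}
    (l : Multiset (Multiset (ZMod M))) (hl : ∀ x ∈ l, x ≠ 0 → base (x.map Neg.neg)) :
    ∀ s : Multiset (ZMod M), H916T.Generated M base (s + l.sum) →
      H916T.Generated M base s := by
  induction l using Multiset.induction_on with
  | empty => intro s h; simpa using h
  | cons a l ih =>
    intro s h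
    by_cases ha0 : a = 0
    · apply ih (fun x hx => hl x (Multiset.mem_cons_of_mem hx))
      rw [Multiset.sum_cons, ha0, zero_add] at h
      exact h
    apply cancel_multi a s
    rw [← add_assoc]
    have ha := hl a (Multiset.mem_cons_self _ _) ha0
    refine H916T.Generated.join _ _ ?_ (H916T.Generated.ofBase _ ha)
    apply ih (fun x hx => hl x (Multiset.mem_cons_of_mem hx))
    rw [Multiset.sum_cons] at h
    rw [add_assoc]
    exact h

lemma map_neg_ne {x : Multiset (ZMod m)} (h : x ≠ 0) : x.map Neg.neg ≠ 0 := by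
  intro h2
  exact h (Multiset.map_eq_zero.mp h2)

/-- **Assembly.** -/
theorem conc_of_corr (hp : p.Prime) (hm : 0 < m) (hpm : p.Coprime m) (hK : Known m)
    (hC : CorrOK p m) : Conc p m := by
  classical
  intro s hs hne
  have hz : NeZero m := ⟨hm.ne'⟩
  obtain ⟨l, hl, hpar⟩ := hC s hs
  have hT : IsTate p m (s + l.sum) := isTate_add hpm hs (isTate_sum' hpm l fun x hx =>
    (hl x hx).elim (fun h => isTate_of_hodge hpm h) (fun h => h.1))
  have hne' : s + l.sum ≠ 0 := by
    intro h
    have h2 := congrArg Multiset.card h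
    rw [Multiset.card_add, Multiset.card_zero] at h2
    exact hne (Multiset.card_eq_zero.mp (by omega))
  obtain ⟨N, hN, hpN, H⟩ := parity_main hp hm hpm hT hne' (by
    intro a
    have h := hpar a
    convert h)
  refine ⟨N, hN, hpN, ?_⟩
  intro M hM
  have h2 := H M hM
  have hM0 : 0 < M := by rw [← hM]; exact Nat.mul_pos hN hm
  have hzM : NeZero M := ⟨hM0.ne'⟩
  have hpM : p.Coprime M := by rw [← hM]; exact Nat.Coprime.mul_right hpN hpm
  rw [Multiset.map_add, map_multiset_sum] at h2
  refine remove_base (l.map fun x => x.map (iota N : ZMod m → ZMod M)) ?_ _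
    (generated_mono (base := ZBase p M) ?_ h2)
  · intro x hx hx0
    obtain ⟨y, hy, rfl⟩ := Multiset.mem_map.mp hx
    have hy0 : y ≠ 0 := by rintro rfl; exact hx0 rfl
    rcases hl y hy with h | h
    · right; right
      obtain ⟨j, hj, hG⟩ := hK (y.map Neg.neg) h.neg (map_neg_ne hy0)
      refine ⟨m, N, j, hj, y.map Neg.neg, hM, h.neg, hG, ?_⟩
      rw [Multiset.map_map, Multiset.map_map]
      apply Multiset.map_congr rfl
      intro a _
      have h3 : (iota N (-a) : ZMod M) = - iota N a := iota_neg hM a
      exact h3.symm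
    · left
      have h3 : SurfaceTate p M (y.map (iota N : ZMod m → ZMod M)) :=
        ⟨isTate_iota hM hpM h.1, by rw [Multiset.card_map]; exact h.2⟩
      exact h3.neg hpM
  · rintro t (ht | ht)
    · exact Or.inl ht
    · exact Or.inr (Or.inl ht)

/-- raising the degree -/
theorem conc_of_raise {k M : ℕ} (hm : 0 < m) (hk : 0 < k) (hkm : k * m = M) (hpM : p.Coprime M)
    (h : Conc p M) : Conc p m := by
  intro s hs hne
  have hM : 0 < M := by rw [← hkm]; exact Nat.mul_pos hk hm
  have hz : NeZero m := ⟨hm.ne'⟩
  have hzM : NeZero M := ⟨hM.ne'⟩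
  have hpk : p.Coprime k := Nat.Coprime.coprime_dvd_right (Dvd.intro _ hkm) hpM
  obtain ⟨N, hN, hpN, H⟩ := h (s.map (iota k : ZMod m → ZMod M)) (isTate_iota hkm hpM hs) (by
    intro h
    exact hne (Multiset.map_eq_zero.mp h))
  refine ⟨N * k, Nat.mul_pos hN hk, Nat.Coprime.mul_right hpN hpk, ?_⟩
  intro M' hM'
  have hM1 : N * M = M' := by rw [← hM', ← hkm]; ring
  have h2 := H M' hM1
  rw [Multiset.map_map] at h2
  have h4 : ((iota N : ZMod M → ZMod M') ∘ (iota k : ZMod m → ZMod M)) =
      (iota (N * k) : ZMod m → ZMod M') := by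
    funext a
    simp only [Function.comp_apply]
    rw [iota_comp hM1]
  rw [h4] at h2
  exact h2

/-! ### Odd order -/

/-- the union of the translates by the powers of `p` -/
noncomputable def orb (p : ℕ) (s : Multiset (ZMod m)) : Multiset (ZMod m) :=
  ∑ j ∈ range (orderOf (p : ZMod m)), s.map (fun a => (p : ZMod m) ^ j * a)

lemma map_sum_range {α β : Type} (g : ℕ → Multiset α) (φ : α → β) (n : ℕ) :
    (∑ j ∈ range n, g j).map φ = ∑ j ∈ range n, (g j).map φ := by
  induction n with
  | zero => simp
  | succ n ih => rw [sum_range_succ, sum_range_succ, Multiset.map_add, ih]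

lemma sum_sum_range {α : Type} [AddCommMonoid α] (g : ℕ → Multiset α) (n : ℕ) :
    (∑ j ∈ range n, g j).sum = ∑ j ∈ range n, (g j).sum := by
  induction n with
  | zero => simp
  | succ n ih => rw [sum_range_succ, sum_range_succ, Multiset.sum_add, ih]

lemma countP_sum_range {α : Type} (P : α → Prop) [DecidablePred P] (g : ℕ → Multiset α) (n : ℕ) :
    (∑ j ∈ range n, g j).countP P = ∑ j ∈ range n, (g j).countP P := by
  induction n with
  | zero => simp
  | succ n ih => rw [sum_range_succ, sum_range_succ, Multiset.countP_add, ih]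

lemma card_sum_range {α : Type} (g : ℕ → Multiset α) (n : ℕ) :
    Multiset.card (∑ j ∈ range n, g j) = ∑ j ∈ range n, Multiset.card (g j) := by
  induction n with
  | zero => simp
  | succ n ih => rw [sum_range_succ, sum_range_succ, Multiset.card_add, ih]

lemma mem_sum_range {α : Type} (g : ℕ → Multiset α) (n : ℕ) (x : α) :
    x ∈ ∑ j ∈ range n, g j ↔ ∃ j < n, x ∈ g j := by
  induction n with
  | zero => simp
  | succ n ih =>
    rw [sum_range_succ, Multiset.mem_add, ih]
    constructor
    · rintro (⟨j, hj, h⟩ | h)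
      · exact ⟨j, by omega, h⟩
      · exact ⟨n, by omega, h⟩
    · rintro ⟨j, hj, h⟩
      rcases Nat.lt_succ_iff_lt_or_eq.mp hj with h1 | h1
      · exact Or.inl ⟨j, h1, h⟩
      · subst h1; exact Or.inr h

/-- The union of the translates is a Hodge character. -/
lemma orb_hodge [NeZero m] (hpm : p.Coprime m) {s : Multiset (ZMod m)} (hs : IsTate p m s) :
    IsHodge m (orb p s) := by
  have hu := H916T.isUnit_p hpm
  apply isHodge_of_saw
  · intro h
    obtain ⟨j, _, h2⟩ := (mem_sum_range _ _ _).mp h
    obtain ⟨a, ha, h3⟩ := Multiset.mem_map.mp h2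
    have h4 := ((hu.pow j).mul_right_eq_zero).mp h3
    rw [h4] at ha
    exact hs.1 ha
  · unfold orb
    rw [card_sum_range]
    simp only [Multiset.card_map, sum_const, smul_eq_mul]
    exact hs.2.1.mul_left _
  · intro t
    unfold orb
    rw [map_sum_range, sum_sum_range]
    have h1 : ∀ s : Multiset (ZMod m), ∑ j ∈ range (orderOf (p : ZMod m)),
        ((s.map fun a => (p : ZMod m) ^ j * a).map fun a => saw ((t : ZMod m) * a)).sum =
        (s.map fun a => W p ((t : ZMod m) * a)).sum := by
      intro s
      induction s using Multiset.induction_on with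
      | empty => simp
      | cons a s ih =>
        rw [Multiset.map_cons, Multiset.sum_cons, ← ih]
        unfold W
        rw [← sum_add_distrib]
        refine sum_congr rfl fun j _ => ?_
        rw [Multiset.map_cons, Multiset.map_cons, Multiset.sum_cons]
        congr 2
        ring
    rw [h1, hs.W_sum hpm]

lemma supp_pow (hpm : p.Coprime m) (S : Finset ℕ) (j : ℕ) (a : ZMod m) :
    Supp S ((p : ZMod m) ^ j * a) ↔ Supp S a := by
  have h := supp_unit S ((pu m p hpm) ^ j) a
  rwa [Units.val_pow_eq_pow_val, pu_val] at h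

open scoped Classical in
/-- **Odd order**: the corrections are Hodge characters. -/
theorem corr_of_odd [NeZero m] (hpm : p.Coprime m) (hf : Odd (orderOf (p : ZMod m))) :
    CorrOK p m := by
  intro s hs
  refine ⟨{orb p s}, ?_, ?_⟩
  · intro x hx
    rw [Multiset.mem_singleton] at hx
    subst hx
    exact Or.inl (orb_hodge hpm hs)
  · rw [Multiset.sum_singleton]
    have hH := orb_hodge hpm hs
    have hT : IsTate p m (s + orb p s) := isTate_add hpm hs (isTate_of_hodge hpm hH)
    refine link_parity hT.1 hT.2.1 ?_
    intro S _ _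
    rw [Multiset.countP_add]
    have h1 : (orb p s).countP (Supp S) = orderOf (p : ZMod m) * s.countP (Supp S) := by
      unfold orb
      rw [countP_sum_range]
      have h2 : ∀ j ∈ range (orderOf (p : ZMod m)),
          (s.map fun a => (p : ZMod m) ^ j * a).countP (Supp S) = s.countP (Supp S) := by
        intro j _
        rw [Multiset.countP_map, ← Multiset.countP_eq_card_filter]
        apply Multiset.countP_congr rfl
        intro a _
        exact propext (supp_pow hpm S j a)
      rw [sum_congr rfl h2, sum_const, card_range, smul_eq_mul]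
    rw [h1]
    obtain ⟨k, hk⟩ := hf
    rw [hk]
    exact ⟨(k + 1) * s.countP (Supp S), by ring⟩

end Pool.Agent.N998.FP
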