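import Pool.Agent.N998.FP.Small

/-!
# The theorem in positive characteristic
-/

set_option linter.unusedSectionVars false

namespace Pool.Agent.N998.FP

open Pool.Agent.H916R2 Pool.Agent.H916T Pool.Agent.H916Z Pool.Agent.H916Q Pool.Agent.H916Y
  Pool.Agent.N992 Pool.Agent.N993

/-! ### The auxiliary degrees -/

lemma prime_110 {p : ℕ} (hp : p.Prime) (h : p ∣ 110) : p = 2 ∨ p = 5 ∨ p = 11 := by
  have h1 : p ∣ 2 * 5 * 11 := h
  rcases (hp.dvd_mul).mp h1 with h2 | h2
  · rcases (hp.dvd_mul).mp h2 with h3 | h3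
    · exact Or.inl ((Nat.prime_dvd_prime_iff_eq hp Nat.prime_two).mp h3)
    · exact Or.inr (Or.inl ((Nat.prime_dvd_prime_iff_eq hp (by norm_num)).mp h3))
  · exact Or.inr (Or.inr ((Nat.prime_dvd_prime_iff_eq hp (by norm_num)).mp h2))

lemma mutual_110 : MutualSquares 110 := by
  intro p hp hp110 hp4
  rcases prime_110 hp hp110 with rfl | rfl | rfl
  · omega
  · refine ⟨?_, by norm_num⟩
    intro q hq hq110 hq2 hq5
    rcases prime_110 hq hq110 with rfl | rfl | rfl
    · exact absurd rfl hq2
    · exact absurd rfl hq5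
    · exact ⟨1, by decide⟩
  · omega

lemma three_204 : ThreePrimes 204 := by
  have h204 : (204 : ℕ) = 2 ^ 2 * (3 * 17) := by norm_num
  have hpf : Nat.primeFactors 204 = {2, 3, 17} := by
    rw [h204, Nat.primeFactors_mul (by norm_num) (by norm_num),
      Nat.primeFactors_prime_pow (by norm_num) Nat.prime_two,
      Nat.primeFactors_mul (by norm_num) (by norm_num), Nat.Prime.primeFactors (by norm_num),
      Nat.Prime.primeFactors (by norm_num)]
    decide
  refine ⟨?_, ?_⟩
  · rw [hpf, if_pos (by norm_num)]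
    decide
  · intro p hp hp204 hp4
    have h1 : p ∈ Nat.primeFactors 204 := Nat.mem_primeFactors.mpr ⟨hp, hp204, by norm_num⟩
    rw [hpf] at h1
    simp only [Finset.mem_insert, Finset.mem_singleton] at h1
    rcases h1 with rfl | rfl | rfl
    · omega
    · omega
    · exact Or.inr (Or.inr (Or.inr rfl))

/-! ### Degree 68 -/

lemma inTab204 : ((uL 204).all fun a => inTab 204 1 tab204 a || (a % 68 != 35)) = true := by
  decide +kernel

lemma mem_uL {m p : ℕ} (hm : 0 < m) (hpm : p.Coprime m) : p % m ∈ uL m := by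
  unfold uL
  rw [List.mem_filter, List.mem_range]
  refine ⟨Nat.mod_lt _ hm, ?_⟩
  rw [beq_iff_eq, ← Nat.gcd_rec, Nat.gcd_comm]
  exact hpm

theorem conc68 {p : ℕ} (hp : p.Prime) (hpm : p.Coprime 68) : Conc p 68 := by
  by_cases h : p % 68 = 35
  · have hp3 : ¬ 3 ∣ p := by
      intro h3
      have := (Nat.prime_dvd_prime_iff_eq Nat.prime_three hp).mp h3
      omega
    have hp204 : p.Coprime 204 := by
      have h1 : p.Coprime 3 := Nat.Coprime.symm ((Nat.prime_three.coprime_iff_not_dvd).mpr hp3)
      have : (204 : ℕ) = 3 * 68 := by norm_num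
      rw [this]
      exact Nat.Coprime.mul_right h1 hpm
    have hc : CorrOK p 204 := by
      refine corr_of_table (q := 3) (r := 17) (F := 1) (by norm_num) (by norm_num) (by norm_num)
        tab204_ok hp204 ?_
      have h2 := List.all_eq_true.mp inTab204 _ (mem_uL (by norm_num) hp204)
      rw [Bool.or_eq_true, bne_iff_ne] at h2
      refine h2.resolve_right (fun h3 => h3 ?_)
      omega
    exact conc_of_raise (k := 3) (M := 204) (by norm_num) (by norm_num) (by norm_num) hp204
      (conc_of_corr hp (by norm_num) hp204 (known_of (by norm_num) (Or.inr (Or.inl three_204))) hc)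
  · exact conc_of_corr hp (by norm_num) hpm (known_of (by norm_num) (Or.inr (Or.inr (by norm_num))))
      (corr_of_table (q := 17) (r := 17) (F := 1) (by norm_num) (by norm_num) (by norm_num)
        tab68_ok hpm (cov_sound (by norm_num) hpm cov68 (by
          intro h2
          rw [List.mem_singleton] at h2
          apply h
          rw [pow_one, Nat.mod_mod] at h2
          exact h2)))

/-! ### Degree 55 -/

lemma inTab110 : ((uL 110).all fun a => inTab 110 5 tab110 a ||
    ((a % 55) ^ 5 % 55 != 12 && (a % 55) ^ 5 % 55 != 23)) = true := by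
  decide +kernel

lemma ex55 : ∀ a ∈ uL 55, a ^ 5 % 55 = 21 → a % 5 = 1 ∧ (a % 11 = 2 ∨ a % 11 = 6 ∨ a % 11 = 7 ∨
    a % 11 = 8 ∨ a % 11 = 10) := by
  decide +kernel

lemma nonsq11 : ∀ a ∈ [2, 6, 7, 8, 10], ¬ IsSquare ((a : ℕ) : ZMod 11) := by
  decide +kernel

theorem conc55 {p : ℕ} (hp : p.Prime) (hpm : p.Coprime 55)
    (hex : ¬ (p % 5 = 1 ∧ ¬ IsSquare (p : ZMod 11))) : Conc p 55 := by
  by_cases h : (p % 55) ^ 5 % 55 = 12 ∨ (p % 55) ^ 5 % 55 = 23
  · have hp2 : ¬ 2 ∣ p := by
      intro h2
      have := (Nat.prime_dvd_prime_iff_eq Nat.prime_two hp).mp h2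
      subst this
      revert h
      decide
    have hp110 : p.Coprime 110 := by
      have h1 : p.Coprime 2 := Nat.Coprime.symm ((Nat.prime_two.coprime_iff_not_dvd).mpr hp2)
      have : (110 : ℕ) = 2 * 55 := by norm_num
      rw [this]
      exact Nat.Coprime.mul_right h1 hpm
    have hc : CorrOK p 110 := by
      refine corr_of_table (q := 5) (r := 11) (F := 5) (by norm_num) (by norm_num) (by norm_num)
        tab110_ok hp110 ?_
      have h2 := List.all_eq_true.mp inTab110 _ (mem_uL (by norm_num) hp110)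
      have h3 : p % 110 % 55 = p % 55 := Nat.mod_mod_of_dvd _ (by norm_num)
      rw [Bool.or_eq_true, Bool.and_eq_true, bne_iff_ne, bne_iff_ne, h3] at h2
      rcases h2 with h2 | h2
      · exact h2
      · exfalso
        rcases h with h | h
        · exact h2.1 h
        · exact h2.2 h
    exact conc_of_raise (k := 2) (M := 110) (by norm_num) (by norm_num) (by norm_num) hp110
      (conc_of_corr hp (by norm_num) hp110 (known_of (by norm_num) (Or.inl mutual_110)) hc)
  · rw [not_or] at h
    refine conc_of_corr hp (by norm_num) hpm (known_of (by norm_num) (Or.inr (Or.inr (by norm_num))))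
      (corr_of_table (q := 5) (r := 11) (F := 5) (by norm_num) (by norm_num) (by norm_num)
        tab55_ok hpm (cov_sound (by norm_num) hpm cov55 ?_))
    intro h2
    simp only [List.mem_cons, List.not_mem_nil, or_false] at h2
    rcases h2 with h2 | h2 | h2
    · exact h.1 h2
    · have h3 := ex55 _ (mem_uL (by norm_num) hpm) h2
      apply hex
      have h5 : p % 55 % 5 = p % 5 := Nat.mod_mod_of_dvd _ (by norm_num)
      have h11 : p % 55 % 11 = p % 11 := Nat.mod_mod_of_dvd _ (by norm_num)
      rw [h5, h11] at h3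
      refine ⟨h3.1, ?_⟩
      have h4 : (p : ZMod 11) = ((p % 11 : ℕ) : ZMod 11) := by simp
      rw [h4]
      apply nonsq11
      simp only [List.mem_cons, List.not_mem_nil, or_false]
      exact h3.2
    · exact h.2 h2

/-- The degrees and characteristics of the theorem. -/
def Good (p m : ℕ) : Prop :=
  (m ≤ 86 ∧ ¬ (m = 55 ∧ p % 5 = 1 ∧ ¬ IsSquare (p : ZMod 11))) ∨
    (Odd (orderOf (p : ZMod m)) ∧ (MutualSquares m ∨ ThreePrimes m))

/-- **The theorem.** -/
theorem main {p m : ℕ} (hp : p.Prime) (hm : 0 < m) (hpm : p.Coprime m) (h : Good p m) :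
    Conc p m := by
  have hz : NeZero m := ⟨hm.ne'⟩
  rcases h with ⟨h86, hex⟩ | ⟨ho, hM⟩
  · by_cases h55 : m = 55
    · subst h55
      exact conc55 hp hpm (fun h => hex ⟨rfl, h⟩)
    · by_cases h68 : m = 68
      · subst h68
        exact conc68 hp hpm
      · exact conc_of_corr hp hm hpm (known_of hm (Or.inr (Or.inr h86)))
          (corr_small hm h86 h55 h68 hpm)
  · exact conc_of_corr hp hm hpm (known_of hm (hM.elim Or.inl fun h => Or.inr (Or.inl h)))
      (corr_of_odd hpm ho)

end Pool.Agent.N998.FP
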