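import Pool.Agent.H916Y.Main
import Pool.Agent.N214.FT.Mod

/-!
# Sums over the powers of the characteristic, in two steps

`p ^ F = u`, `u ^ n = 1` with `F` and `n` coprime: the sum over the powers of `p` is the sum over the
powers `u ^ i`, `i < n`, and over the powers of `p ^ n`.
-/

set_option linter.unusedSectionVars false

namespace Pool.Agent.N998.FP

open Finset Pool.Agent.H916R2 Pool.Agent.H916T Pool.Agent.H916Z Pool.Agent.H916Q Pool.Agent.H916Y

variable {m : ℕ}

/-- the sawtooth summed over the first powers of `u` -/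
noncomputable def wz (u : ZMod m) (n : ℕ) (x : ZMod m) : ℤ := ∑ i ∈ range n, saw (u ^ i * x)

lemma sum_mod_eq {F n : ℕ} (hF : 0 < F) (hn : 0 < n) (hc : F.Coprime n) (g : ℕ → ℤ)
    (hg : ∀ j, g (j % (F * n)) = g j) :
    ∑ l ∈ range F, ∑ i ∈ range n, g (F * i + n * l) = ∑ j ∈ range (F * n), g j := by
  have hFn : 0 < F * n := Nat.mul_pos hF hn
  rw [← sum_product' (range F) (range n) (fun l i => g (F * i + n * l))]
  have himg : (range F ×ˢ range n).image (fun x : ℕ × ℕ => (F * x.2 + n * x.1) % (F * n)) =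
      range (F * n) := by
    apply Finset.eq_of_subset_of_card_le
    · intro y hy
      obtain ⟨x, _, rfl⟩ := mem_image.mp hy
      exact mem_range.mpr (Nat.mod_lt _ hFn)
    · rw [card_image_of_injOn, card_product, card_range, card_range, card_range]
      rintro ⟨l, i⟩ hx ⟨l', i'⟩ hy hxy
      simp only [coe_product, Set.mem_prod, mem_coe, mem_range] at hx hy
      simp only at hxy
      have h1 : F * i + n * l ≡ F * i' + n * l' [MOD F * n] := hxy
      have h2 : F * i + n * l ≡ F * i' + n * l' [MOD n] := h1.of_dvd (Dvd.intro_left F rfl)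
      have h3 : F * i + n * l ≡ F * i' + n * l' [MOD F] := h1.of_dvd (Dvd.intro n rfl)
      have h4 : F * i ≡ F * i' [MOD n] := by
        have e1 : F * i + n * l ≡ F * i [MOD n] := by
          simp [Nat.ModEq, Nat.add_mul_mod_self_left]
        have e2 : F * i' + n * l' ≡ F * i' [MOD n] := by
          simp [Nat.ModEq, Nat.add_mul_mod_self_left]
        exact (e1.symm.trans h2).trans e2
      have h5 : n * l ≡ n * l' [MOD F] := by
        have e1 : F * i + n * l ≡ n * l [MOD F] := by
          simp [Nat.ModEq, Nat.add_comm (F * i), Nat.add_mul_mod_self_left]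
        have e2 : F * i' + n * l' ≡ n * l' [MOD F] := by
          simp [Nat.ModEq, Nat.add_comm (F * i'), Nat.add_mul_mod_self_left]
        exact (e1.symm.trans h3).trans e2
      have h6 : i ≡ i' [MOD n] := Nat.ModEq.cancel_left_of_coprime hc.symm h4
      have h7 : l ≡ l' [MOD F] := Nat.ModEq.cancel_left_of_coprime hc h5
      have h8 : i = i' := by
        have := h6
        unfold Nat.ModEq at this
        rwa [Nat.mod_eq_of_lt hx.2, Nat.mod_eq_of_lt hy.2] at this
      have h9 : l = l' := by
        have := h7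
        unfold Nat.ModEq at this
        rwa [Nat.mod_eq_of_lt hx.1, Nat.mod_eq_of_lt hy.1] at this
      rw [h8, h9]
  rw [← himg, sum_image]
  · refine sum_congr rfl fun x _ => ?_
    rw [hg]
  · have hcard := congrArg Finset.card himg
    rw [card_range] at hcard
    have h1 : ((range F ×ˢ range n).image
        (fun x : ℕ × ℕ => (F * x.2 + n * x.1) % (F * n))).card = (range F ×ˢ range n).card := by
      rw [hcard, card_product, card_range, card_range]
    exact Finset.card_image_iff.mp h1

lemma sum_rep {f r : ℕ} (g : ℕ → ℤ) (hg : ∀ j, g (j + f) = g j) :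
    ∑ j ∈ range (f * r), g j = r * ∑ j ∈ range f, g j := by
  have hg2 : ∀ k j, g (f * k + j) = g j := by
    intro k
    induction k with
    | zero => intro j; simp
    | succ k ih =>
      intro j
      have : f * (k + 1) + j = (f * k + j) + f := by ring
      rw [this, hg, ih]
  induction r with
  | zero => simp
  | succ r ih =>
    rw [mul_add, mul_one, sum_range_add, ih]
    have : ∑ x ∈ range f, g (f * r + x) = ∑ x ∈ range f, g x :=
      sum_congr rfl fun x _ => hg2 r x
    rw [this]
    push_cast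
    ring

/-- the norm relation -/
lemma norm_sum [NeZero m] {p : ℕ} (hp : p.Coprime m) {F n : ℕ} (hF : 0 < F) (hn : 0 < n)
    (hc : F.Coprime n) (h1 : ((p : ZMod m) ^ F) ^ n = 1) :
    ∃ r : ℕ, 0 < r ∧ ∀ x : ZMod m,
      ∑ l ∈ range F, wz ((p : ZMod m) ^ F) n (((p : ZMod m) ^ n) ^ l * x) = r * W p x := by
  have h2 : (p : ZMod m) ^ (F * n) = 1 := by rw [pow_mul]; exact h1
  obtain ⟨r, hr⟩ := orderOf_dvd_of_pow_eq_one h2
  have hr0 : 0 < r := by
    rcases Nat.eq_zero_or_pos r with h | h
    · rw [h, mul_zero] at hr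
      have := Nat.mul_pos hF hn
      omega
    · exact h
  refine ⟨r, hr0, fun x => ?_⟩
  have h3 : ∀ l, wz ((p : ZMod m) ^ F) n (((p : ZMod m) ^ n) ^ l * x) =
      ∑ i ∈ range n, (fun j : ℕ => saw ((p : ZMod m) ^ j * x)) (F * i + n * l) := by
    intro l
    unfold wz
    refine sum_congr rfl fun i _ => ?_
    congr 1
    rw [← mul_assoc, ← pow_mul, ← pow_mul, ← pow_add]
  rw [sum_congr rfl fun l _ => h3 l, sum_mod_eq hF hn hc (fun j : ℕ => saw ((p : ZMod m) ^ j * x))]
  · rw [hr, sum_rep (fun j : ℕ => saw ((p : ZMod m) ^ j * x))]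
    · rfl
    · intro j
      rw [pow_add, pow_order, mul_one]
  · intro j
    congr 2
    conv_rhs => rw [← Nat.mod_add_div j (F * n), pow_add, pow_mul _ (F * n), h2, one_pow, mul_one]

/-- the unit `p ^ k` -/
noncomputable def pu (m p : ℕ) (hp : p.Coprime m) : (ZMod m)ˣ := ZMod.unitOfCoprime p hp

lemma pu_val {p : ℕ} (hp : p.Coprime m) : ((pu m p hp : (ZMod m)ˣ) : ZMod m) = (p : ZMod m) :=
  ZMod.coe_unitOfCoprime p hp

/-- **Certificates**: a function on the residues, invariant under units and congruent to half of a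
combination of the sums `wz`, has an even sum over every Tate character. -/
theorem even_of_cert [NeZero m] {p : ℕ} (hp : p.Coprime m) {s : Multiset (ZMod m)}
    (hs : IsTate p m s) {F n : ℕ} (hF : Odd F) (hn : 0 < n) (hc : F.Coprime n)
    (h1 : ((p : ZMod m) ^ F) ^ n = 1) (lam : ZMod m → ℤ)
    (hlam : ∀ (t : (ZMod m)ˣ) (a : ZMod m), lam ((t : ZMod m) * a) = lam a)
    (L : List ((ZMod m)ˣ × ℤ)) (E : ℕ) (eps : ℤ)
    (h : ∀ a : ZMod m, a ≠ 0 → (2 : ℤ) ^ (E + 1) ∣ 2 ^ E * lam a -
      (L.map fun x => x.2 * wz ((p : ZMod m) ^ F) n ((x.1 : ZMod m) * a)).sum - eps * 2 ^ E) :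
    (2 : ℤ) ∣ (s.map lam).sum := by
  obtain ⟨r, _, hr⟩ := norm_sum hp hF.pos hn hc h1
  -- the sum over the powers
  have h2 : ∀ a : ZMod m, a ≠ 0 → (2 : ℤ) ^ (E + 1) ∣ 2 ^ E * (F * lam a) -
      (L.map fun x => x.2 * (r * W p ((x.1 : ZMod m) * a))).sum - eps * (F * 2 ^ E) := by
    intro a ha
    have h3 : (2 : ℤ) ^ (E + 1) ∣ ∑ l ∈ range F, (2 ^ E * lam (((pu m p hp ^ n) ^ l : (ZMod m)ˣ) * a)
        - (L.map fun x => x.2 * wz ((p : ZMod m) ^ F) n ((x.1 : ZMod m) *
          (((pu m p hp ^ n) ^ l : (ZMod m)ˣ) * a))).sum - eps * 2 ^ E) := by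
      apply Finset.dvd_sum
      intro l _
      apply h
      intro h0
      exact ha (((((pu m p hp ^ n) ^ l : (ZMod m)ˣ)).isUnit.mul_right_eq_zero).mp h0)
    rw [sum_sub_distrib, sum_sub_distrib] at h3
    have e1 : ∑ l ∈ range F, (2 : ℤ) ^ E * lam (((pu m p hp ^ n) ^ l : (ZMod m)ˣ) * a) =
        2 ^ E * (F * lam a) := by
      rw [sum_congr rfl fun l _ => by rw [hlam], sum_const, card_range, nsmul_eq_mul]
      ring
    have e2 : ∀ L : List ((ZMod m)ˣ × ℤ), ∑ l ∈ range F,
        (L.map fun x => x.2 * wz ((p : ZMod m) ^ F) n ((x.1 : ZMod m) *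
          (((pu m p hp ^ n) ^ l : (ZMod m)ˣ) * a))).sum =
        (L.map fun x => x.2 * (r * W p ((x.1 : ZMod m) * a))).sum := by
      intro L
      induction L with
      | nil => simp
      | cons x L ih =>
        simp only [List.map_cons, List.sum_cons]
        rw [sum_add_distrib, ih, ← mul_sum, ← hr]
        congr 2
        apply sum_congr rfl
        intro l _
        congr 1
        rw [Units.val_pow_eq_pow_val, Units.val_pow_eq_pow_val, pu_val]
        ring
    have e3 : ∑ _l ∈ range F, eps * (2 : ℤ) ^ E = eps * (F * 2 ^ E) := by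
      rw [sum_const, card_range, nsmul_eq_mul]
      ring
    rw [e1, e2, e3] at h3
    exact h3
  -- the sum over the character
  have h4 : ∀ s : Multiset (ZMod m), (0 : ZMod m) ∉ s → (2 : ℤ) ^ (E + 1) ∣
      2 ^ E * (F * (s.map lam).sum) -
        (L.map fun x => x.2 * (r * (s.map fun a => W p ((x.1 : ZMod m) * a)).sum)).sum -
        eps * (F * 2 ^ E) * Multiset.card s := by
    intro s
    induction s using Multiset.induction_on with
    | empty => intro _; simp
    | cons a s ih =>
      intro h0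
      rw [Multiset.mem_cons, not_or] at h0
      have h5 := dvd_add (ih h0.2) (h2 a (Ne.symm h0.1))
      have e4 : ∀ L : List ((ZMod m)ˣ × ℤ), (L.map fun x => x.2 *
          (r * ((a ::ₘ s).map fun a => W p ((x.1 : ZMod m) * a)).sum)).sum =
          (L.map fun x => x.2 * (r * (s.map fun a => W p ((x.1 : ZMod m) * a)).sum)).sum +
          (L.map fun x => x.2 * (r * W p ((x.1 : ZMod m) * a))).sum := by
        intro L
        induction L with
        | nil => simp
        | cons x L ih =>
          simp only [List.map_cons, List.sum_cons, Multiset.map_cons, Multiset.sum_cons] at ih ⊢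
          rw [ih]
          ring
      rw [e4, Multiset.map_cons, Multiset.sum_cons, Multiset.card_cons]
      push_cast
      have e5 : (2 : ℤ) ^ E * (F * (lam a + (s.map lam).sum)) -
          ((L.map fun x => x.2 * (r * (s.map fun a => W p ((x.1 : ZMod m) * a)).sum)).sum +
          (L.map fun x => x.2 * (r * W p ((x.1 : ZMod m) * a))).sum) -
          eps * (F * 2 ^ E) * (Multiset.card s + 1) =
        2 ^ E * (F * (s.map lam).sum) -
          (L.map fun x => x.2 * (r * (s.map fun a => W p ((x.1 : ZMod m) * a)).sum)).sum -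
          eps * (F * 2 ^ E) * Multiset.card s +
        (2 ^ E * (F * lam a) - (L.map fun x => x.2 * (r * W p ((x.1 : ZMod m) * a))).sum -
          eps * (F * 2 ^ E)) := by ring
      rw [e5]
      exact h5
  have h5 := h4 s hs.1
  have e5 : ∀ L : List ((ZMod m)ˣ × ℤ), (L.map fun x => x.2 *
      (r * (s.map fun a => W p ((x.1 : ZMod m) * a)).sum)).sum = 0 := by
    intro L
    induction L with
    | nil => simp
    | cons x L ih =>
      rw [List.map_cons, List.sum_cons, ih, hs.W_sum hp]
      ring
  rw [e5, sub_zero] at h5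
  obtain ⟨c, hc2⟩ := hs.2.1
  have h6 : (2 : ℤ) ^ (E + 1) ∣ eps * (F * 2 ^ E) * Multiset.card s := by
    rw [hc2]
    refine ⟨eps * F * c, ?_⟩
    push_cast
    ring
  have h7 : (2 : ℤ) ^ (E + 1) ∣ 2 ^ E * (F * (s.map lam).sum) := by
    have := dvd_add h5 h6
    rwa [sub_add_cancel] at this
  rw [pow_succ] at h7
  have h8 : (2 : ℤ) ∣ F * (s.map lam).sum :=
    Int.dvd_of_mul_dvd_mul_left (pow_ne_zero _ (by norm_num)) h7
  rcases Int.prime_two.dvd_or_dvd h8 with h9 | h9
  · exfalso
    obtain ⟨k, hk⟩ := hF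
    rw [hk] at h9
    push_cast at h9
    omega
  · exact h9

end Pool.Agent.N998.FP
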