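import Pool.Agent.N992.HSC.Pos
import Pool.Agent.N998.FP.Final

/-!
# Signs of the intersection forms and characters lifted from characteristic zero

Let `m` be prime to the prime `p`, and let `X` be the Fermat variety of degree `m` and dimension
`2 * k` over an algebraic closure of the field with `p` elements. The primitive algebraic classes of
codimension `k` modulo numerical equivalence, with complex coefficients, are the direct sum of their
eigenspaces `A(s)` for the characters `s` (`2 * k + 2` nonzero residues modulo `m` with sum zero) of
`μ_m ^ (2 * k + 2)`, and `A(s)` has dimension at most one. If `x` spans `A(s)`, then its complex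
conjugate spans `A(-s)`, and `(-1) ^ k * deg (x * conj x)` is a nonzero real number. Its sign is
called the sign of `s`; the sign of `s` is `0` if `A(s) = 0`.

The sign has the following properties.

* `join`: the blow up of Shioda and Katsura identifies `A(s + t)` with `A(s) ⊗ A(t)`; one new
  hyperplane class with self-intersection `-1` on the exceptional divisor.
* `pair`: points.
* `level`: pull back along `(x_i) ↦ (x_i ^ N)`.
* `surface`: the Tate conjecture for Fermat surfaces and the Hodge index theorem.
* `standard`: algebraic classes which lift to characteristic zero (Aoki), where the Hodge-Riemann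
  relations hold.
* `lifted`: the lines of Hodge characters which are algebraic in characteristic zero; the classes can
  be specialised, the intersection numbers do not change, and the Hodge-Riemann relations hold in
  characteristic zero. (The empty character has the sign `1` by convention.)
-/

set_option linter.unusedSectionVars false

namespace Pool.Agent.N998.FP

open Finset Pool.Agent.H916R2 Pool.Agent.H916T Pool.Agent.H916Y Pool.Agent.N214.FT
  Pool.Agent.N992 Pool.Agent.N992.HSC Pool.Agent.N993

/-- Functions with the formal properties of the signs of the intersection forms on the lines of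
Tate characters. -/
structure LiftSystem (p : ℕ) where
  /-- the sign of a character of degree `m` -/
  sgn : (m : ℕ) → Multiset (ZMod m) → ℤ
  /-- the only values are `-1`, `0`, `1` -/
  range : ∀ m s, sgn m s = 0 ∨ sgn m s = 1 ∨ sgn m s = -1
  /-- unions, the line of the first character being algebraic -/
  join : ∀ m : ℕ, 0 < m → p.Coprime m → ∀ s t : Multiset (ZMod m), IsTate p m s → IsTate p m t →
    sgn m s ≠ 0 → sgn m (s + t) = sgn m s * sgn m t
  /-- points -/
  pair : ∀ m : ℕ, 0 < m → p.Coprime m → ∀ a : ZMod m, a ≠ 0 → sgn m {a, -a} = 1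
  /-- raising the degree -/
  level : ∀ m : ℕ, 0 < m → p.Coprime m → ∀ N : ℕ, 0 < N → p.Coprime N →
    ∀ s : Multiset (ZMod m), IsTate p m s →
      sgn (N * m) (s.map fun a => ((N * a.val : ℕ) : ZMod (N * m))) = sgn m s
  /-- surfaces -/
  surface : ∀ m : ℕ, 0 < m → p.Coprime m → ∀ s : Multiset (ZMod m), SurfaceTate p m s →
    sgn m s = 1
  /-- the standard characters of Aoki -/
  standard : ∀ m : ℕ, 0 < m → p.Coprime m → ∀ q : ℕ, q.Prime → q ∣ m →
    ∀ s : Multiset (ZMod m), Standard q m s → sgn m s = 1
  /-- characters lifted from characteristic zero -/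
  lifted : ∀ m : ℕ, 0 < m → p.Coprime m → ∀ s : Multiset (ZMod m), Lifted m s → sgn m s = 1

/-- A vector space over the rational numbers with an action of `(ℤ/m) ^ ι` and an invariant symmetric
bilinear form, such that for every vector `v` and every character `a` the component of `(v, v)` for
`a` vanishes, or `a` is a Tate character and the component has the sign of `a`; and such that, if no
Tate character has the sign `0`, a vector is zero if all its components vanish. The primitive
algebraic classes of codimension `k` on the Fermat variety of degree `m` and dimension `2 * k`, modulo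
homological or numerical equivalence, with the form `(-1) ^ k * deg (x * y)`, are an example, `ι`
having `2 * k + 2` elements: if the sign of `a` is not `0`, then the motive of the line of `a` is a
Tate motive, so that homologically and numerically trivial classes agree there; and the eigenspaces
of the characters which are not Tate characters contain no algebraic classes. -/
structure LineForm {p : ℕ} (S : LiftSystem p) (m : ℕ) [NeZero m] (ι : Type) [Fintype ι]
    [DecidableEq ι] where
  /-- the vector space -/
  V : Type
  [grp : AddCommGroup V]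
  [mod : Module ℚ V]
  /-- the form -/
  form : V →ₗ[ℚ] V →ₗ[ℚ] ℚ
  /-- the action -/
  act : (ι → ZMod m) → V →ₗ[ℚ] V
  act_zero : ∀ v, act 0 v = v
  act_add : ∀ g h v, act (g + h) v = act g (act h v)
  symm : ∀ v w, form v w = form w v
  invariant : ∀ g v w, form (act g v) (act g w) = form v w
  /-- the components have the prescribed signs -/
  sign : ∀ (v : V) (a : ι → ZMod m), component form act a v ≠ 0 →
    IsTate p m (Finset.univ.val.map a) ∧
      ∃ r : ℝ, 0 < r ∧ component form act a v = ((r * S.sgn m (Finset.univ.val.map a) : ℝ) : ℂ)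
  /-- the form is nondegenerate on the eigenspaces, if all Tate classes are algebraic -/
  nondeg : (∀ a : ι → ZMod m, IsTate p m (Finset.univ.val.map a) →
      S.sgn m (Finset.univ.val.map a) ≠ 0) →
    ∀ v : V, (∀ a : ι → ZMod m, component form act a v = 0) → v = 0

attribute [instance] LineForm.grp LineForm.mod

/-- A vector space over the rational numbers with an action of `((ℤ/m) ^ 3) ^ (2 * n)` and an
invariant symmetric bilinear form, such that for every vector `v` and every character `a` the
component of `(v, v)` for `a` vanishes, or `a` consists of triples of nonzero residues with sum zero,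
its entries are a Tate character, and the component has the sign of this character; and such that a
vector is zero if all its components vanish. The numerical equivalence classes of algebraic cycles
of codimension `n` on the product of `2 * n` Fermat curves of degree `m` which lie in the tensor power
of the first cohomology, with the form `(-1) ^ n * deg (x * y)`, are an example. -/
structure TensorForm {p : ℕ} (S : LiftSystem p) (m n : ℕ) [NeZero m] where
  /-- the vector space -/
  V : Type
  [grp : AddCommGroup V]
  [mod : Module ℚ V]
  /-- the form -/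
  form : V →ₗ[ℚ] V →ₗ[ℚ] ℚ
  /-- the action -/
  act : (Fin (2 * n) × Fin 3 → ZMod m) → V →ₗ[ℚ] V
  act_zero : ∀ v, act 0 v = v
  act_add : ∀ g h v, act (g + h) v = act g (act h v)
  symm : ∀ v w, form v w = form w v
  invariant : ∀ g v w, form (act g v) (act g w) = form v w
  /-- the components have the prescribed signs -/
  sign : ∀ (v : V) (a : Fin (2 * n) × Fin 3 → ZMod m), component form act a v ≠ 0 →
    (∀ i, a (i, 0) ≠ 0 ∧ a (i, 1) ≠ 0 ∧ a (i, 2) ≠ 0 ∧ a (i, 0) + a (i, 1) + a (i, 2) = 0) ∧
    IsTate p m (Finset.univ.val.map a) ∧
      ∃ r : ℝ, 0 < r ∧ component form act a v = ((r * S.sgn m (Finset.univ.val.map a) : ℝ) : ℂ)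
  /-- the form is nondegenerate on the eigenspaces -/
  nondeg : ∀ v : V, (∀ a : Fin (2 * n) × Fin 3 → ZMod m, component form act a v = 0) → v = 0

attribute [instance] TensorForm.grp TensorForm.mod

/-- Every prime factor congruent to 1 modulo 4 sees only squares, or is 5, 13 or 17, there being at
most three odd prime factors, at most two if `4` divides `m`. -/
def Visible (m : ℕ) : Prop :=
  ∀ r : ℕ, r.Prime → r ∣ m → r % 4 = 1 →
    ((∀ q : ℕ, q.Prime → q ∣ m → q ≠ 2 → q ≠ r → IsSquare (q : ZMod r)) ∧ (4 ∣ m → r % 8 = 1)) ∨
      ((r = 5 ∨ r = 13 ∨ r = 17) ∧ (m.primeFactors.erase 2).card + (if 4 ∣ m then 1 else 0) ≤ 3)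

lemma Visible.cases {m : ℕ} (h : Visible m) : MutualSquares m ∨ ThreePrimes m := by
  by_cases h3 : (m.primeFactors.erase 2).card + (if 4 ∣ m then 1 else 0) ≤ 3
  · exact Or.inr ⟨h3, fun p hp hpm hp4 => (h p hp hpm hp4).imp (fun h => h) (fun h => h.1)⟩
  · exact Or.inl fun p hp hpm hp4 => (h p hp hpm hp4).resolve_right fun h => h3 h.2

variable {p m : ℕ}

/-- lifted characters are Tate characters -/
lemma isTate_lifted [NeZero m] (hpm : p.Coprime m) {s : Multiset (ZMod m)} (h : Lifted m s) :
    IsTate p m s := by
  obtain ⟨m', k, l, hl, t, hk, hH, _, rfl⟩ := h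
  have hm' : 0 < m' := by
    rcases Nat.eq_zero_or_pos m' with h0 | h0
    · exfalso
      apply hl.out
      rw [h0, mul_zero]
    · exact h0
  have hz : NeZero m' := ⟨hm'.ne'⟩
  have hpm' : p.Coprime m' := Nat.Coprime.coprime_dvd_right (Dvd.intro_left k hk) hpm
  exact isTate_iota hk hpm (isTate_of_hodge hpm' hH)

/-- the empty character is lifted -/
lemma lifted_zero (m : ℕ) (hm : 0 < m) : Lifted m 0 := by
  refine ⟨m, 1, 2, ⟨by omega⟩, 0, one_mul m, ?_, ?_, by simp⟩
  · refine ⟨by simp, by simp, by simp, ?_⟩
    intro t
    simp
  · have hz : NeZero (2 * m) := ⟨by omega⟩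
    have h1 : (1 : ZMod (2 * m)) ≠ 0 := by
      intro h
      have h2 : ((1 : ℕ) : ZMod (2 * m)) = 0 := by rw [Nat.cast_one]; exact h
      rw [ZMod.natCast_eq_zero_iff] at h2
      have := Nat.le_of_dvd (by norm_num) h2
      omega
    have h3 : H916R2.Generated (2 * m) (FourBase (2 * m)) ({1, -1} : Multiset (ZMod (2 * m))) :=
      .pair 1 h1
    simp only [Multiset.map_zero]
    exact .cancel 1 0 (by simpa using h3)

/-- generated characters have sign `1` -/
lemma sgn_of_base (S : LiftSystem p) (hm : 0 < m) (hpm : p.Coprime m)
    {s : Multiset (ZMod m)} (h : H916T.Generated m (Base p m) s) :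
    IsTate p m s ∧ S.sgn m s = 1 := by
  have hz : NeZero m := ⟨hm.ne'⟩
  induction h with
  | ofBase s hs =>
    rcases hs with h | ⟨q, hq, hqm, h⟩ | h
    · exact ⟨h.1, S.surface m hm hpm s h⟩
    · exact ⟨isTate_standard hpm hqm h, S.standard m hm hpm q hq hqm s h⟩
    · exact ⟨isTate_lifted hpm h, S.lifted m hm hpm s h⟩
  | pair a ha => exact ⟨isTate_pair hpm ha, S.pair m hm hpm a ha⟩
  | join s t hs ht ihs iht =>
    refine ⟨isTate_add hpm ihs.1 iht.1, ?_⟩
    rw [S.join m hm hpm s t ihs.1 iht.1 (by rw [ihs.2]; norm_num), ihs.2, iht.2, one_mul]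
  | cancel a s h ih =>
    obtain ⟨ha, hT⟩ := isTate_cons_cons hpm ih.1
    refine ⟨hT, ?_⟩
    have h1 : ({a, -a} : Multiset (ZMod m)) + s = a ::ₘ -a ::ₘ s := by
      simp [Multiset.insert_eq_cons, Multiset.cons_add]
    have h2 := ih.2
    rw [← h1, S.join m hm hpm _ s (isTate_pair hpm ha) hT
      (by rw [S.pair m hm hpm a ha]; norm_num), S.pair m hm hpm a ha, one_mul] at h2
    exact h2

/-- all signs are `1` if the Tate characters are generated -/
theorem sgn_of_conc (S : LiftSystem p) (hm : 0 < m) (hpm : p.Coprime m) (h : Conc p m)
    {s : Multiset (ZMod m)} (hs : IsTate p m s) : S.sgn m s = 1 := by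
  by_cases hne : s = 0
  · rw [hne]
    exact S.lifted m hm hpm 0 (lifted_zero m hm)
  obtain ⟨N, hN, hpN, H⟩ := h s hs hne
  have h1 := sgn_of_base S (Nat.mul_pos hN hm) (Nat.Coprime.mul_right hpN hpm) (H (N * m) rfl)
  rw [← S.level m hm hpm N hN hpN s hs]
  exact h1.2

/-- **The forms are positive definite.** -/
theorem positive_lines [NeZero m] (S : LiftSystem p) (hpm : p.Coprime m)
    (h : Conc p m) {ι : Type} [Fintype ι] [DecidableEq ι] (C : LineForm S m ι) {v : C.V}
    (hv : v ≠ 0) : 0 < C.form v v := by
  have h1 : ∀ s : Multiset (ZMod m), IsTate p m s → S.sgn m s = 1 :=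
    fun s hs => sgn_of_conc S (Nat.pos_of_ne_zero (NeZero.ne m)) hpm h hs
  have hnd : ∃ a, component C.form C.act a v ≠ 0 := by
    by_contra hc
    push Not at hc
    exact hv (C.nondeg (fun a ha => by rw [h1 _ ha]; norm_num) v hc)
  have h2 := form_pos_general C.form C.act (C.act_zero v) hnd 1 (fun a ha => by
    obtain ⟨hT, r, hr, h3⟩ := C.sign v a ha
    rw [h1 _ hT] at h3
    exact ⟨r, hr, h3⟩)
  simpa using h2.2

/-- the form on tensors as a form on lines -/
def TensorForm.toLine [NeZero m] {S : LiftSystem p} {n : ℕ} (C : TensorForm S m n) :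
    LineForm S m (Fin (2 * n) × Fin 3) where
  V := C.V
  form := C.form
  act := C.act
  act_zero := C.act_zero
  act_add := C.act_add
  symm := C.symm
  invariant := C.invariant
  sign := fun v a ha => (C.sign v a ha).2
  nondeg := fun _ => C.nondeg

end Pool.Agent.N998.FP
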