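import Pool.Agent.N998.FP.Table

/-!
# Data
-/

namespace Pool.Agent.N998.FP

/-- the data for degree 57 -/
def tab57 : List Cs := [
  ⟨20, 2, [1, 1, 2, 3], [(0, 0), (0, 0), (0, 0), (0, 0)], [⟨[1], 1, [(1, 1), (2, 1), (4, 1),
    (5, 1), (7, 1), (8, 1), (10, 1), (13, 1), (16, 1)], 1⟩], [⟨2, true, [1, 4, 13, 22, 28, 30,
    31, 49, 52, 55]⟩]⟩,
  ⟨37, 2, [1, 1, 2, 3], [(0, 0), (0, 0), (0, 0), (0, 0)], [⟨[1], 1, [(1, 1), (2, 1), (4, 1),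
    (5, 1), (7, 1), (8, 1), (10, 1), (13, 1), (16, 1)], 0⟩], [⟨2, true, [1, 4, 13, 22, 28, 30,
    31, 49, 52, 55]⟩]⟩,
  ⟨56, 2, [1, 1, 1, 1], [(0, 0), (0, 0), (3, 19), (1, 19)], [], []⟩]

theorem tab57_ok : tabOK 57 3 19 9 tab57 = true := by decide +kernel

/-- the data for degree 58 -/
def tab58 : List Cs := [
  ⟨17, 4, [0, 0, 0, 0], [(0, 0), (0, 0), (0, 0), (2, 1)], [], []⟩,
  ⟨41, 4, [0, 0, 0, 0], [(0, 0), (0, 0), (0, 0), (2, 1)], [], []⟩,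
  ⟨57, 2, [0, 0, 0, 0], [(0, 0), (0, 0), (0, 0), (2, 1)], [], []⟩]

theorem tab58_ok : tabOK 58 29 29 7 tab58 = true := by decide +kernel

/-- the data for degree 59 -/
def tab59 : List Cs := [
  ⟨58, 2, [3, 3, 3, 3], [(0, 0), (0, 0), (0, 0), (0, 0)], [], []⟩]

theorem tab59_ok : tabOK 59 59 59 29 tab59 = true := by decide +kernel

/-- the data for degree 60 -/
def tab60 : List Cs := [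
  ⟨7, 4, [0, 0, 0, 0], [(0, 0), (20, 2), (12, 6), (4, 1)], [], []⟩,
  ⟨11, 2, [0, 0, 0, 0], [(0, 0), (20, 5), (12, 2), (8, 3)], [], []⟩,
  ⟨13, 4, [0, 0, 0, 0], [(0, 0), (20, 2), (12, 3), (4, 1)], [], []⟩,
  ⟨17, 4, [0, 0, 0, 3], [(0, 0), (20, 1), (12, 1), (0, 0)], [⟨[0], 4, [(1, 3), (13, 1)], 1⟩],
    []⟩,
  ⟨19, 2, [0, 0, 0, 3], [(0, 0), (20, 2), (12, 3), (0, 0)], [⟨[0], 4, [(1, 1), (7, 3), (11, 3),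
    (17, 1)], 1⟩], []⟩,
  ⟨23, 4, [0, 0, 0, 3], [(0, 0), (20, 1), (12, 1), (0, 0)], [⟨[0], 4, [(1, 3), (7, 1)], 1⟩],
    []⟩,
  ⟨29, 2, [0, 0, 0, 0], [(0, 0), (20, 2), (12, 2), (4, 2)], [], []⟩,
  ⟨31, 2, [0, 0, 2, 3], [(0, 0), (20, 5), (0, 0), (0, 0)], [⟨[3], 4, [(1, 3), (7, 1), (11, 1),
    (13, 1)], 0⟩], [⟨0, true, [9, 12, 42, 57]⟩]⟩,
  ⟨37, 4, [0, 0, 0, 0], [(0, 0), (20, 2), (12, 3), (4, 1)], [], []⟩,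
  ⟨41, 2, [0, 0, 0, 3], [(0, 0), (20, 10), (12, 2), (0, 0)], [], [⟨0, false, [1, 4, 7, 48]⟩]⟩,
  ⟨43, 4, [0, 0, 0, 0], [(0, 0), (20, 2), (12, 6), (4, 1)], [], []⟩,
  ⟨47, 4, [0, 0, 0, 3], [(0, 0), (20, 1), (12, 1), (0, 0)], [⟨[0], 4, [(1, 3), (7, 1)], 1⟩],
    []⟩,
  ⟨49, 2, [0, 0, 0, 3], [(0, 0), (20, 2), (12, 6), (0, 0)], [⟨[0], 4, [(1, 1), (7, 3), (13, 3),
    (19, 1)], 1⟩], []⟩,
  ⟨53, 4, [0, 0, 0, 3], [(0, 0), (20, 1), (12, 1), (0, 0)], [⟨[0], 4, [(1, 3), (13, 1)], 1⟩],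
    []⟩,
  ⟨59, 2, [0, 0, 0, 0], [(0, 0), (20, 1), (12, 1), (4, 1)], [], []⟩]

theorem tab60_ok : tabOK 60 3 5 1 tab60 = true := by decide +kernel

/-- the data for degree 61 -/
def tab61 : List Cs := [
  ⟨11, 4, [3, 3, 3, 3], [(0, 0), (0, 0), (0, 0), (0, 0)], [], []⟩,
  ⟨50, 4, [3, 3, 3, 3], [(0, 0), (0, 0), (0, 0), (0, 0)], [], []⟩,
  ⟨60, 2, [3, 3, 3, 3], [(0, 0), (0, 0), (0, 0), (0, 0)], [], []⟩]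

theorem tab61_ok : tabOK 61 61 61 15 tab61 = true := by decide +kernel

/-- the data for degree 62 -/
def tab62 : List Cs := [
  ⟨61, 2, [0, 0, 0, 0], [(0, 0), (0, 0), (0, 0), (2, 1)], [], []⟩]

theorem tab62_ok : tabOK 62 31 31 15 tab62 = true := by decide +kernel

/-- the data for degree 63 -/
def tab63 : List Cs := [
  ⟨8, 2, [1, 1, 2, 3], [(0, 0), (0, 0), (0, 0), (0, 0)], [⟨[1], 1, [(1, 1), (2, 1), (4, 1), (5,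
    1), (10, 1), (11, 1), (13, 1), (19, 1), (20, 1)], 1⟩], [⟨2, true, [12, 27, 39, 48]⟩]⟩,
  ⟨55, 2, [1, 1, 2, 3], [(0, 0), (0, 0), (0, 0), (0, 0)], [⟨[1], 1, [(1, 1), (2, 1), (4, 1),
    (5, 1), (10, 1), (11, 1), (13, 1), (19, 1), (20, 1)], 0⟩], [⟨2, true, [12, 27, 39, 48]⟩]⟩,
  ⟨62, 2, [1, 1, 1, 1], [(0, 0), (0, 0), (9, 7), (1, 7)], [], []⟩]

theorem tab63_ok : tabOK 63 3 7 3 tab63 = true := by decide +kernel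

/-- the data for degree 65 -/
def tab65 : List Cs := [
  ⟨8, 4, [1, 1, 1, 1], [(0, 0), (0, 0), (5, 13), (1, 13)], [], []⟩,
  ⟨12, 4, [1, 1, 1, 3], [(0, 0), (0, 0), (5, 13), (0, 0)], [⟨[1], 1, [(2, 1), (3, 1)], 1⟩], []⟩,
  ⟨14, 2, [1, 1, 2, 3], [(0, 0), (0, 0), (0, 0), (0, 0)], [⟨[3], 1, [(1, 1), (21, 1), (12, 1),
    (8, 1)], 0⟩], [⟨1, true, [8, 9, 13, 14, 15, 20, 23, 28, 33, 34, 48, 49, 53, 54, 59, 60]⟩]⟩,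
  ⟨18, 4, [1, 1, 1, 1], [(0, 0), (0, 0), (5, 13), (1, 13)], [], []⟩,
  ⟨21, 4, [1, 1, 2, 3], [(0, 0), (0, 0), (0, 0), (0, 0)], [⟨[3], 1, [(4, 1), (7, 1)], 0⟩], [⟨1,
    true, [8, 9, 13, 14, 15, 20, 23, 28, 33, 34, 48, 49, 53, 54, 59, 60]⟩]⟩,
  ⟨27, 4, [1, 1, 2, 3], [(0, 0), (0, 0), (0, 0), (0, 0)], [⟨[3], 1, [(2, 1), (3, 1)], 0⟩], [⟨1,
    true, [8, 9, 13, 14, 15, 20, 23, 28, 33, 34, 48, 49, 53, 54, 59, 60]⟩]⟩,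
  ⟨31, 4, [1, 1, 2, 3], [(0, 0), (0, 0), (0, 0), (0, 0)], [⟨[3], 1, [(4, 1), (7, 1)], 0⟩], [⟨1,
    true, [8, 9, 13, 14, 15, 20, 23, 28, 33, 34, 48, 49, 53, 54, 59, 60]⟩]⟩,
  ⟨34, 4, [1, 1, 1, 3], [(0, 0), (0, 0), (5, 13), (0, 0)], [⟨[1], 1, [(4, 1), (7, 1)], 1⟩], []⟩,
  ⟨38, 4, [1, 1, 1, 3], [(0, 0), (0, 0), (5, 13), (0, 0)], [⟨[1], 1, [(2, 1), (3, 1)], 1⟩], []⟩,
  ⟨44, 4, [1, 1, 1, 3], [(0, 0), (0, 0), (5, 13), (0, 0)], [⟨[1], 1, [(4, 1), (7, 1)], 1⟩], []⟩,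
  ⟨47, 4, [1, 1, 1, 1], [(0, 0), (0, 0), (5, 13), (1, 13)], [], []⟩,
  ⟨51, 2, [1, 1, 2, 3], [(0, 0), (0, 0), (0, 0), (0, 0)], [⟨[3], 1, [(1, 1), (12, 1), (8, 1),
    (21, 1)], 0⟩], [⟨1, true, [8, 9, 13, 14, 15, 20, 23, 28, 33, 34, 48, 49, 53, 54, 59, 60]⟩]⟩,
  ⟨53, 4, [1, 1, 2, 3], [(0, 0), (0, 0), (0, 0), (0, 0)], [⟨[3], 1, [(2, 1), (3, 1)], 0⟩], [⟨1,
    true, [8, 9, 13, 14, 15, 20, 23, 28, 33, 34, 48, 49, 53, 54, 59, 60]⟩]⟩,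
  ⟨57, 4, [1, 1, 1, 1], [(0, 0), (0, 0), (5, 13), (1, 13)], [], []⟩,
  ⟨64, 2, [1, 1, 1, 1], [(0, 0), (0, 0), (5, 13), (1, 13)], [], []⟩]

theorem tab65_ok : tabOK 65 5 13 3 tab65 = true := by decide +kernel

/-- the data for degree 66 -/
def tab66 : List Cs := [
  ⟨23, 2, [0, 0, 2, 3], [(0, 0), (22, 11), (0, 0), (0, 0)], [⟨[2], 2, [(1, 1), (5, 1), (7, 1),
    (13, 1), (19, 1)], 0⟩], [⟨0, true, [5, 22, 52, 53]⟩]⟩,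
  ⟨43, 2, [0, 1, 0, 3], [(0, 0), (0, 0), (6, 3), (0, 0)], [⟨[0], 2, [(1, 1), (5, 1), (7, 1),
    (13, 1), (19, 1)], 1⟩], [⟨1, true, [5, 22, 52, 53]⟩]⟩,
  ⟨65, 2, [0, 0, 0, 0], [(0, 0), (22, 1), (6, 1), (2, 1)], [], []⟩]

theorem tab66_ok : tabOK 66 3 11 5 tab66 = true := by decide +kernel

/-- the data for degree 67 -/
def tab67 : List Cs := [
  ⟨66, 2, [3, 3, 3, 3], [(0, 0), (0, 0), (0, 0), (0, 0)], [], []⟩]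

theorem tab67_ok : tabOK 67 67 67 33 tab67 = true := by decide +kernel

/-- the data for degree 68 -/
def tab68 : List Cs := [
  ⟨3, 16, [0, 0, 0, 0], [(0, 0), (0, 0), (0, 0), (4, 2)], [], []⟩,
  ⟨5, 16, [0, 0, 0, 0], [(0, 0), (0, 0), (0, 0), (4, 1)], [], []⟩,
  ⟨7, 16, [0, 0, 0, 0], [(0, 0), (0, 0), (0, 0), (4, 2)], [], []⟩,
  ⟨9, 8, [0, 0, 0, 0], [(0, 0), (0, 0), (0, 0), (4, 2)], [], []⟩,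
  ⟨11, 16, [0, 0, 0, 0], [(0, 0), (0, 0), (0, 0), (4, 2)], [], []⟩,
  ⟨13, 4, [0, 0, 0, 0], [(0, 0), (0, 0), (0, 0), (4, 2)], [], []⟩,
  ⟨15, 8, [0, 0, 0, 0], [(0, 0), (0, 0), (0, 0), (4, 2)], [], []⟩,
  ⟨19, 8, [0, 0, 0, 0], [(0, 0), (0, 0), (0, 0), (4, 2)], [], []⟩,
  ⟨21, 4, [0, 0, 0, 0], [(0, 0), (0, 0), (0, 0), (4, 2)], [], []⟩,
  ⟨23, 16, [0, 0, 0, 0], [(0, 0), (0, 0), (0, 0), (4, 2)], [], []⟩,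
  ⟨25, 8, [0, 0, 0, 0], [(0, 0), (0, 0), (0, 0), (4, 2)], [], []⟩,
  ⟨27, 16, [0, 0, 0, 0], [(0, 0), (0, 0), (0, 0), (4, 2)], [], []⟩,
  ⟨29, 16, [0, 0, 0, 0], [(0, 0), (0, 0), (0, 0), (4, 1)], [], []⟩,
  ⟨31, 16, [0, 0, 0, 0], [(0, 0), (0, 0), (0, 0), (4, 2)], [], []⟩,
  ⟨33, 2, [0, 0, 0, 0], [(0, 0), (0, 0), (0, 0), (4, 2)], [], []⟩,
  ⟨37, 16, [0, 0, 0, 0], [(0, 0), (0, 0), (0, 0), (4, 1)], [], []⟩,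
  ⟨39, 16, [0, 0, 0, 0], [(0, 0), (0, 0), (0, 0), (4, 2)], [], []⟩,
  ⟨41, 16, [0, 0, 0, 0], [(0, 0), (0, 0), (0, 0), (4, 1)], [], []⟩,
  ⟨43, 8, [0, 0, 0, 0], [(0, 0), (0, 0), (0, 0), (4, 2)], [], []⟩,
  ⟨45, 16, [0, 0, 0, 0], [(0, 0), (0, 0), (0, 0), (4, 1)], [], []⟩,
  ⟨47, 4, [0, 0, 0, 0], [(0, 0), (0, 0), (0, 0), (4, 2)], [], []⟩,
  ⟨49, 8, [0, 0, 0, 0], [(0, 0), (0, 0), (0, 0), (4, 2)], [], []⟩,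
  ⟨53, 8, [0, 0, 0, 0], [(0, 0), (0, 0), (0, 0), (4, 2)], [], []⟩,
  ⟨55, 4, [0, 0, 0, 0], [(0, 0), (0, 0), (0, 0), (4, 2)], [], []⟩,
  ⟨57, 16, [0, 0, 0, 0], [(0, 0), (0, 0), (0, 0), (4, 1)], [], []⟩,
  ⟨59, 8, [0, 0, 0, 0], [(0, 0), (0, 0), (0, 0), (4, 2)], [], []⟩,
  ⟨61, 16, [0, 0, 0, 0], [(0, 0), (0, 0), (0, 0), (4, 1)], [], []⟩,
  ⟨63, 16, [0, 0, 0, 0], [(0, 0), (0, 0), (0, 0), (4, 2)], [], []⟩,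
  ⟨65, 16, [0, 0, 0, 0], [(0, 0), (0, 0), (0, 0), (4, 1)], [], []⟩,
  ⟨67, 2, [0, 0, 0, 0], [(0, 0), (0, 0), (0, 0), (4, 1)], [], []⟩]

theorem tab68_ok : tabOK 68 17 17 1 tab68 = true := by decide +kernel

/-- the data for degree 69 -/
def tab69 : List Cs := [
  ⟨22, 2, [1, 1, 2, 3], [(0, 0), (0, 0), (0, 0), (0, 0)], [⟨[2], 1, [(1, 1), (2, 1), (4, 1),
    (5, 1), (7, 1), (8, 1), (10, 1), (11, 1), (14, 1), (17, 1), (20, 1)], 1⟩], [⟨1, true, [5,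
    11, 14, 17, 20, 23, 38, 44, 53, 56, 65, 68]⟩]⟩,
  ⟨47, 2, [1, 1, 2, 3], [(0, 0), (0, 0), (0, 0), (0, 0)], [⟨[2], 1, [(1, 1), (2, 1), (4, 1),
    (5, 1), (7, 1), (8, 1), (10, 1), (11, 1), (14, 1), (17, 1), (20, 1)], 0⟩], [⟨1, true, [5,
    11, 14, 17, 20, 23, 38, 44, 53, 56, 65, 68]⟩]⟩,
  ⟨68, 2, [1, 1, 1, 1], [(0, 0), (0, 0), (3, 23), (1, 23)], [], []⟩]

theorem tab69_ok : tabOK 69 3 23 11 tab69 = true := by decide +kernel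

end Pool.Agent.N998.FP
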