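import Pool.Agent.N998.FP.Table

/-!
# Data
-/

namespace Pool.Agent.N998.FP

/-- the data for degree 70 -/
def tab70 : List Cs := [
  ⟨13, 4, [0, 0, 0, 3], [(0, 0), (14, 5), (10, 5), (0, 0)], [⟨[0], 2, [(1, 1), (3, 1), (9, 1)],
    1⟩], []⟩,
  ⟨27, 4, [0, 0, 0, 3], [(0, 0), (14, 5), (10, 5), (0, 0)], [⟨[0], 2, [(1, 1), (3, 1), (9, 1)],
    1⟩], []⟩,
  ⟨29, 2, [0, 0, 2, 3], [(0, 0), (14, 7), (0, 0), (0, 0)], [⟨[3], 2, [(1, 1), (3, 1), (9, 1),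
    (11, 1), (13, 1), (23, 1)], 0⟩], [⟨0, true, [10, 12, 13, 53, 56, 66]⟩]⟩,
  ⟨41, 2, [0, 1, 0, 3], [(0, 0), (0, 0), (10, 5), (0, 0)], [⟨[3], 2, [(1, 1), (3, 1), (9, 1),
    (11, 1), (13, 1), (23, 1)], 0⟩], [⟨0, true, [10, 12, 13, 53, 56, 66]⟩]⟩,
  ⟨43, 4, [0, 0, 2, 3], [(0, 0), (14, 7), (0, 0), (0, 0)], [⟨[3], 2, [(1, 1), (3, 1), (9, 1)],
    0⟩], [⟨0, true, [10, 12, 13, 53, 56, 66]⟩]⟩,
  ⟨57, 4, [0, 0, 2, 3], [(0, 0), (14, 7), (0, 0), (0, 0)], [⟨[3], 2, [(1, 1), (3, 1), (9, 1)],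
    0⟩], [⟨0, true, [10, 12, 13, 53, 56, 66]⟩]⟩,
  ⟨69, 2, [0, 0, 0, 0], [(0, 0), (14, 1), (10, 1), (2, 1)], [], []⟩]

theorem tab70_ok : tabOK 70 5 7 3 tab70 = true := by decide +kernel

/-- the data for degree 71 -/
def tab71 : List Cs := [
  ⟨70, 2, [3, 3, 3, 3], [(0, 0), (0, 0), (0, 0), (0, 0)], [], []⟩]

theorem tab71_ok : tabOK 71 71 71 35 tab71 = true := by decide +kernel

/-- the data for degree 72 -/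
def tab72 : List Cs := [
  ⟨17, 2, [0, 0, 0, 0], [(0, 0), (0, 0), (0, 0), (8, 4)], [], []⟩,
  ⟨19, 2, [0, 0, 0, 0], [(0, 0), (0, 0), (0, 0), (24, 6)], [], []⟩,
  ⟨35, 2, [0, 0, 0, 0], [(0, 0), (0, 0), (0, 0), (8, 2)], [], []⟩,
  ⟨37, 2, [0, 0, 0, 3], [(0, 0), (0, 0), (0, 0), (0, 0)], [], [⟨0, true, [3, 16, 57, 68]⟩]⟩,
  ⟨53, 2, [0, 0, 0, 0], [(0, 0), (0, 0), (0, 0), (8, 4)], [], []⟩,
  ⟨55, 2, [0, 0, 0, 0], [(0, 0), (0, 0), (0, 0), (24, 6)], [], []⟩,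
  ⟨71, 2, [0, 0, 0, 0], [(0, 0), (0, 0), (0, 0), (8, 1)], [], []⟩]

theorem tab72_ok : tabOK 72 3 3 3 tab72 = true := by decide +kernel

/-- the data for degree 73 -/
def tab73 : List Cs := [
  ⟨10, 8, [3, 3, 3, 3], [(0, 0), (0, 0), (0, 0), (0, 0)], [], []⟩,
  ⟨22, 8, [3, 3, 3, 3], [(0, 0), (0, 0), (0, 0), (0, 0)], [], []⟩,
  ⟨27, 4, [3, 3, 3, 3], [(0, 0), (0, 0), (0, 0), (0, 0)], [], []⟩,
  ⟨46, 4, [3, 3, 3, 3], [(0, 0), (0, 0), (0, 0), (0, 0)], [], []⟩,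
  ⟨51, 8, [3, 3, 3, 3], [(0, 0), (0, 0), (0, 0), (0, 0)], [], []⟩,
  ⟨63, 8, [3, 3, 3, 3], [(0, 0), (0, 0), (0, 0), (0, 0)], [], []⟩,
  ⟨72, 2, [3, 3, 3, 3], [(0, 0), (0, 0), (0, 0), (0, 0)], [], []⟩]

theorem tab73_ok : tabOK 73 73 73 9 tab73 = true := by decide +kernel

/-- the data for degree 74 -/
def tab74 : List Cs := [
  ⟨31, 4, [0, 0, 0, 0], [(0, 0), (0, 0), (0, 0), (2, 1)], [], []⟩,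
  ⟨43, 4, [0, 0, 0, 0], [(0, 0), (0, 0), (0, 0), (2, 1)], [], []⟩,
  ⟨73, 2, [0, 0, 0, 0], [(0, 0), (0, 0), (0, 0), (2, 1)], [], []⟩]

theorem tab74_ok : tabOK 74 37 37 9 tab74 = true := by decide +kernel

/-- the data for degree 75 -/
def tab75 : List Cs := [
  ⟨7, 4, [1, 1, 2, 3], [(0, 0), (0, 0), (0, 0), (0, 0)], [⟨[3], 1, [(1, 1), (2, 1), (4, 1), (8,
    1), (13, 1)], 0⟩], [⟨1, true, [10, 25, 55, 60]⟩]⟩,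
  ⟨26, 2, [1, 1, 2, 3], [(0, 0), (0, 0), (0, 0), (0, 0)], [⟨[3], 1, [(1, 1), (2, 1), (4, 1),
    (7, 1), (8, 1), (11, 1), (13, 1), (16, 1), (19, 1), (22, 1)], 0⟩], [⟨1, true, [10, 25, 55,
    60]⟩]⟩,
  ⟨32, 4, [1, 1, 1, 3], [(0, 0), (0, 0), (3, 25), (0, 0)], [⟨[1], 1, [(1, 1), (2, 1), (4, 1),
    (8, 1), (13, 1)], 1⟩], []⟩,
  ⟨43, 4, [1, 1, 2, 3], [(0, 0), (0, 0), (0, 0), (0, 0)], [⟨[3], 1, [(1, 1), (2, 1), (4, 1),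
    (8, 1), (13, 1)], 0⟩], [⟨1, true, [10, 25, 55, 60]⟩]⟩,
  ⟨49, 2, [1, 1, 2, 3], [(0, 0), (0, 0), (0, 0), (0, 0)], [⟨[3], 1, [(1, 1), (2, 1), (4, 1),
    (7, 1), (8, 1), (11, 1), (13, 1), (16, 1), (19, 1), (22, 1)], 0⟩], [⟨1, true, [10, 25, 55,
    60]⟩]⟩,
  ⟨68, 4, [1, 1, 1, 3], [(0, 0), (0, 0), (3, 25), (0, 0)], [⟨[1], 1, [(1, 1), (2, 1), (4, 1),
    (8, 1), (13, 1)], 1⟩], []⟩,
  ⟨74, 2, [1, 1, 1, 1], [(0, 0), (0, 0), (3, 25), (1, 25)], [], []⟩]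

theorem tab75_ok : tabOK 75 3 5 5 tab75 = true := by decide +kernel

/-- the data for degree 76 -/
def tab76 : List Cs := [
  ⟨37, 2, [0, 0, 0, 0], [(0, 0), (0, 0), (0, 0), (4, 2)], [], []⟩,
  ⟨39, 2, [0, 0, 0, 3], [(0, 0), (0, 0), (0, 0), (0, 0)], [], [⟨0, true, [12, 19, 23, 27, 31,
    35, 39, 43, 50, 51, 59, 67]⟩]⟩,
  ⟨75, 2, [0, 0, 0, 0], [(0, 0), (0, 0), (0, 0), (4, 1)], [], []⟩]

theorem tab76_ok : tabOK 76 19 19 9 tab76 = true := by decide +kernel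

/-- the data for degree 77 -/
def tab77 : List Cs := [
  ⟨34, 2, [1, 1, 2, 3], [(0, 0), (0, 0), (0, 0), (0, 0)], [⟨[1], 1, [(1, 1), (2, 1), (3, 1),
    (4, 1), (5, 1), (10, 1), (12, 1)], 1⟩], [⟨2, true, [5, 12, 19, 20, 27, 31, 34, 38, 40, 41,
    42, 45, 52, 62, 73, 75]⟩]⟩,
  ⟨43, 2, [1, 1, 2, 3], [(0, 0), (0, 0), (0, 0), (0, 0)], [⟨[1], 1, [(1, 1), (2, 1), (3, 1),
    (4, 1), (5, 1), (10, 1), (12, 1)], 0⟩], [⟨2, true, [5, 12, 19, 20, 27, 31, 34, 38, 40, 41,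
    42, 45, 52, 62, 73, 75]⟩]⟩,
  ⟨76, 2, [1, 1, 1, 1], [(0, 0), (0, 0), (7, 11), (1, 11)], [], []⟩]

theorem tab77_ok : tabOK 77 7 11 15 tab77 = true := by decide +kernel

/-- the data for degree 78 -/
def tab78 : List Cs := [
  ⟨5, 4, [0, 0, 0, 3], [(0, 0), (26, 3), (6, 3), (0, 0)], [⟨[0], 3, [(1, 1), (7, 3), (11, 1)],
    1⟩], []⟩,
  ⟨25, 2, [0, 1, 0, 3], [(0, 0), (0, 0), (6, 3), (0, 0)], [⟨[0], 2, [(5, 1), (7, 1), (11, 1)],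
    1⟩, ⟨[1], 3, [(1, 3), (5, 1), (7, 3), (11, 1), (17, 1), (23, 1)], 0⟩], []⟩,
  ⟨31, 4, [0, 1, 0, 0], [(0, 0), (0, 0), (6, 3), (4, 1)], [⟨[0], 3, [(1, 3), (7, 3), (11, 1)],
    1⟩], []⟩,
  ⟨47, 4, [0, 0, 0, 3], [(0, 0), (26, 3), (6, 3), (0, 0)], [⟨[0], 3, [(1, 1), (7, 3), (11, 1)],
    1⟩], []⟩,
  ⟨53, 2, [0, 0, 2, 3], [(0, 0), (26, 13), (0, 0), (0, 0)], [⟨[2], 2, [(5, 1), (7, 1), (11,
    1)], 0⟩], [⟨0, false, [1, 7, 26, 44]⟩]⟩,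
  ⟨73, 4, [0, 1, 0, 0], [(0, 0), (0, 0), (6, 3), (4, 1)], [⟨[0], 3, [(1, 3), (7, 3), (11, 1)],
    1⟩], []⟩,
  ⟨77, 2, [0, 0, 0, 0], [(0, 0), (26, 1), (6, 1), (2, 1)], [], []⟩]

theorem tab78_ok : tabOK 78 3 13 3 tab78 = true := by decide +kernel

/-- the data for degree 79 -/
def tab79 : List Cs := [
  ⟨78, 2, [3, 3, 3, 3], [(0, 0), (0, 0), (0, 0), (0, 0)], [], []⟩]

theorem tab79_ok : tabOK 79 79 79 39 tab79 = true := by decide +kernel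

/-- the data for degree 80 -/
def tab80 : List Cs := [
  ⟨3, 4, [0, 0, 0, 0], [(0, 0), (0, 0), (0, 0), (16, 8)], [], []⟩,
  ⟨7, 4, [0, 0, 0, 0], [(0, 0), (0, 0), (0, 0), (16, 8)], [], []⟩,
  ⟨9, 2, [0, 0, 0, 0], [(0, 0), (0, 0), (0, 0), (16, 8)], [], []⟩,
  ⟨11, 4, [0, 0, 0, 3], [(0, 0), (0, 0), (0, 0), (0, 0)], [], [⟨0, true, [4, 32, 52, 72]⟩]⟩,
  ⟨13, 4, [0, 0, 0, 0], [(0, 0), (0, 0), (0, 0), (16, 4)], [], []⟩,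
  ⟨17, 4, [0, 0, 0, 0], [(0, 0), (0, 0), (0, 0), (16, 4)], [], []⟩,
  ⟨19, 4, [0, 0, 0, 0], [(0, 0), (0, 0), (0, 0), (16, 4)], [], []⟩,
  ⟨21, 4, [0, 0, 0, 3], [(0, 0), (0, 0), (0, 0), (0, 0)], [], [⟨0, true, [4, 32, 52, 72]⟩]⟩,
  ⟨23, 4, [0, 0, 0, 0], [(0, 0), (0, 0), (0, 0), (16, 8)], [], []⟩,
  ⟨27, 4, [0, 0, 0, 0], [(0, 0), (0, 0), (0, 0), (16, 8)], [], []⟩,
  ⟨29, 4, [0, 0, 0, 0], [(0, 0), (0, 0), (0, 0), (16, 8)], [], []⟩,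
  ⟨31, 2, [0, 0, 0, 3], [(0, 0), (0, 0), (0, 0), (0, 0)], [], [⟨0, true, [4, 32, 52, 72]⟩]⟩,
  ⟨33, 4, [0, 0, 0, 0], [(0, 0), (0, 0), (0, 0), (16, 4)], [], []⟩,
  ⟨37, 4, [0, 0, 0, 0], [(0, 0), (0, 0), (0, 0), (16, 4)], [], []⟩,
  ⟨39, 2, [0, 0, 0, 0], [(0, 0), (0, 0), (0, 0), (16, 2)], [], []⟩,
  ⟨41, 2, [0, 0, 0, 3], [(0, 0), (0, 0), (0, 0), (0, 0)], [], [⟨0, true, [4, 32, 52, 72]⟩]⟩,
  ⟨43, 4, [0, 0, 0, 0], [(0, 0), (0, 0), (0, 0), (16, 8)], [], []⟩,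
  ⟨47, 4, [0, 0, 0, 0], [(0, 0), (0, 0), (0, 0), (16, 5)], [], []⟩,
  ⟨49, 2, [0, 0, 0, 0], [(0, 0), (0, 0), (0, 0), (16, 8)], [], []⟩,
  ⟨51, 4, [0, 0, 0, 3], [(0, 0), (0, 0), (0, 0), (0, 0)], [], [⟨0, true, [4, 32, 52, 72]⟩]⟩,
  ⟨53, 4, [0, 0, 0, 0], [(0, 0), (0, 0), (0, 0), (16, 4)], [], []⟩,
  ⟨57, 4, [0, 0, 0, 0], [(0, 0), (0, 0), (0, 0), (16, 4)], [], []⟩,
  ⟨59, 4, [0, 0, 0, 0], [(0, 0), (0, 0), (0, 0), (16, 4)], [], []⟩,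
  ⟨61, 4, [0, 0, 0, 3], [(0, 0), (0, 0), (0, 0), (0, 0)], [], [⟨0, true, [4, 32, 52, 72]⟩]⟩,
  ⟨63, 4, [0, 0, 0, 0], [(0, 0), (0, 0), (0, 0), (16, 5)], [], []⟩,
  ⟨67, 4, [0, 0, 0, 0], [(0, 0), (0, 0), (0, 0), (16, 8)], [], []⟩,
  ⟨69, 4, [0, 0, 0, 0], [(0, 0), (0, 0), (0, 0), (16, 8)], [], []⟩,
  ⟨71, 2, [0, 0, 0, 3], [(0, 0), (0, 0), (0, 0), (0, 0)], [], [⟨0, true, [4, 32, 52, 72]⟩]⟩,
  ⟨73, 4, [0, 0, 0, 0], [(0, 0), (0, 0), (0, 0), (16, 4)], [], []⟩,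
  ⟨77, 4, [0, 0, 0, 0], [(0, 0), (0, 0), (0, 0), (16, 4)], [], []⟩,
  ⟨79, 2, [0, 0, 0, 0], [(0, 0), (0, 0), (0, 0), (16, 1)], [], []⟩]

theorem tab80_ok : tabOK 80 5 5 1 tab80 = true := by decide +kernel

/-- the data for degree 81 -/
def tab81 : List Cs := [
  ⟨80, 2, [3, 3, 3, 3], [(0, 0), (0, 0), (0, 0), (0, 0)], [], []⟩]

theorem tab81_ok : tabOK 81 3 3 27 tab81 = true := by decide +kernel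

/-- the data for degree 82 -/
def tab82 : List Cs := [
  ⟨3, 8, [0, 0, 0, 0], [(0, 0), (0, 0), (0, 0), (2, 1)], [], []⟩,
  ⟨9, 4, [0, 0, 0, 0], [(0, 0), (0, 0), (0, 0), (2, 1)], [], []⟩,
  ⟨27, 8, [0, 0, 0, 0], [(0, 0), (0, 0), (0, 0), (2, 1)], [], []⟩,
  ⟨55, 8, [0, 0, 0, 0], [(0, 0), (0, 0), (0, 0), (2, 1)], [], []⟩,
  ⟨73, 4, [0, 0, 0, 0], [(0, 0), (0, 0), (0, 0), (2, 1)], [], []⟩,
  ⟨79, 8, [0, 0, 0, 0], [(0, 0), (0, 0), (0, 0), (2, 1)], [], []⟩,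
  ⟨81, 2, [0, 0, 0, 0], [(0, 0), (0, 0), (0, 0), (2, 1)], [], []⟩]

theorem tab82_ok : tabOK 82 41 41 5 tab82 = true := by decide +kernel

/-- the data for degree 83 -/
def tab83 : List Cs := [
  ⟨82, 2, [3, 3, 3, 3], [(0, 0), (0, 0), (0, 0), (0, 0)], [], []⟩]

theorem tab83_ok : tabOK 83 83 83 41 tab83 = true := by decide +kernel

/-- the data for degree 84 -/
def tab84 : List Cs := [
  ⟨13, 2, [0, 1, 0, 0], [(0, 0), (0, 0), (12, 6), (8, 2)], [], [⟨0, true, [14, 35, 56, 63]⟩]⟩,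
  ⟨29, 2, [0, 0, 2, 3], [(0, 0), (28, 14), (0, 0), (0, 0)], [⟨[0], 4, [(1, 5), (5, 3), (11, 1),
    (13, 3), (19, 3), (25, 1)], 1⟩], [⟨2, true, [4, 16, 72, 76]⟩]⟩,
  ⟨41, 2, [0, 0, 0, 0], [(0, 0), (28, 2), (12, 2), (4, 2)], [], []⟩,
  ⟨43, 2, [0, 0, 2, 3], [(0, 0), (28, 7), (0, 0), (0, 0)], [⟨[0], 4, [(1, 3), (5, 1), (11, 3),
    (13, 1), (17, 1), (19, 1)], 1⟩], [⟨2, true, [4, 16, 72, 76]⟩]⟩,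
  ⟨55, 2, [0, 0, 0, 0], [(0, 0), (28, 7), (12, 3), (8, 2)], [], []⟩,
  ⟨71, 2, [0, 0, 2, 3], [(0, 0), (28, 7), (0, 0), (0, 0)], [⟨[0], 4, [(1, 1), (5, 3), (11, 1),
    (17, 3), (23, 1), (29, 1)], 1⟩], [⟨2, true, [4, 16, 72, 76]⟩]⟩,
  ⟨83, 2, [0, 0, 0, 0], [(0, 0), (28, 1), (12, 1), (4, 1)], [], []⟩]

theorem tab84_ok : tabOK 84 3 7 3 tab84 = true := by decide +kernel

/-- the data for degree 86 -/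
def tab86 : List Cs := [
  ⟨85, 2, [0, 0, 0, 0], [(0, 0), (0, 0), (0, 0), (2, 1)], [], []⟩]

theorem tab86_ok : tabOK 86 43 43 21 tab86 = true := by decide +kernel

/-- the data for degree 110 -/
def tab110 : List Cs := [
  ⟨67, 4, [0, 0, 2, 3], [(0, 0), (22, 11), (0, 0), (0, 0)], [⟨[2], 3, [(1, 3), (3, 3), (7, 1),
    (9, 3), (17, 1)], 0⟩], [⟨0, false, [1, 3, 18, 88]⟩]⟩,
  ⟨23, 4, [0, 0, 2, 3], [(0, 0), (22, 11), (0, 0), (0, 0)], [⟨[2], 3, [(1, 3), (3, 3), (7, 1),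
    (9, 3), (17, 1)], 0⟩], [⟨0, false, [1, 3, 18, 88]⟩]⟩]

theorem tab110_ok : tabOK 110 5 11 5 tab110 = true := by decide +kernel

/-- the data for degree 204 -/
def tab204 : List Cs := [
  ⟨103, 2, [0, 0, 2, 3], [(0, 0), (68, 17), (0, 0), (0, 0)], [⟨[3], 4, [(1, 3), (5, 3), (7, 3),
    (11, 1), (13, 3), (19, 1), (23, 1), (25, 1), (29, 3), (31, 1), (35, 1), (37, 1), (41, 1),
    (43, 1), (47, 1), (49, 1)], 0⟩], [⟨0, true, [18, 22, 30, 68, 154, 166, 168, 190]⟩]⟩,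
  ⟨35, 2, [0, 0, 2, 3], [(0, 0), (68, 17), (0, 0), (0, 0)], [⟨[3], 3, [(1, 1), (5, 1), (11, 1),
    (13, 1), (19, 1), (31, 1), (43, 1), (61, 1)], 0⟩], [⟨0, true, [18, 22, 30, 68, 154, 166,
    168, 190]⟩]⟩]

theorem tab204_ok : tabOK 204 3 17 1 tab204 = true := by decide +kernel

end Pool.Agent.N998.FP
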