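import Pool.Agent.N998.FP.Table

/-!
# Data
-/

namespace Pool.Agent.N998.FP

/-- the data for degree 85 -/
def tab85 : List Cs := [
  ⟨2, 8, [1, 1, 1, 3], [(0, 0), (0, 0), (5, 17), (0, 0)], [⟨[1], 1, [(1, 1), (3, 1), (7, 1),
    (9, 1)], 1⟩], []⟩,
  ⟨3, 16, [1, 1, 1, 3], [(0, 0), (0, 0), (5, 17), (0, 0)], [⟨[1], 1, [(1, 1), (2, 1)], 1⟩], []⟩,
  ⟨4, 4, [1, 1, 1, 3], [(0, 0), (0, 0), (5, 17), (0, 0)], [⟨[1], 1, [(1, 1), (2, 1), (3, 1),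
    (6, 1), (7, 1), (9, 1), (13, 1), (14, 1)], 1⟩], []⟩,
  ⟨6, 16, [1, 1, 2, 3], [(0, 0), (0, 0), (0, 0), (0, 0)], [⟨[3], 1, [(1, 1), (2, 1)], 0⟩], [⟨1,
    true, [1, 6, 8, 13, 18, 23, 31, 35, 36, 48, 53, 56, 61, 68, 73, 76, 78, 81]⟩]⟩,
  ⟨7, 16, [1, 1, 1, 3], [(0, 0), (0, 0), (5, 17), (0, 0)], [⟨[1], 1, [(1, 1), (2, 1)], 1⟩], []⟩,
  ⟨8, 8, [1, 1, 1, 3], [(0, 0), (0, 0), (5, 17), (0, 0)], [⟨[1], 1, [(1, 1), (3, 1), (7, 1),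
    (9, 1)], 1⟩], []⟩,
  ⟨9, 8, [1, 1, 1, 3], [(0, 0), (0, 0), (5, 17), (0, 0)], [⟨[1], 1, [(1, 1), (2, 1), (3, 1),
    (6, 1)], 1⟩], []⟩,
  ⟨11, 16, [1, 1, 2, 3], [(0, 0), (0, 0), (0, 0), (0, 0)], [⟨[3], 1, [(1, 1), (2, 1)], 0⟩],
    [⟨1, true, [1, 6, 8, 13, 18, 23, 31, 35, 36, 48, 53, 56, 61, 68, 73, 76, 78, 81]⟩]⟩,
  ⟨12, 16, [1, 1, 1, 3], [(0, 0), (0, 0), (5, 17), (0, 0)], [⟨[1], 1, [(1, 1), (2, 1)], 1⟩],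
    []⟩,
  ⟨13, 4, [1, 1, 1, 1], [(0, 0), (0, 0), (5, 17), (1, 17)], [], []⟩,
  ⟨14, 16, [1, 1, 1, 3], [(0, 0), (0, 0), (5, 17), (0, 0)], [⟨[1], 1, [(1, 1), (2, 1)], 1⟩],
    []⟩,
  ⟨16, 2, [1, 1, 2, 3], [(0, 0), (0, 0), (0, 0), (0, 0)], [⟨[3], 1, [(1, 1), (2, 1), (3, 1),
    (4, 1), (6, 1), (7, 1), (8, 1), (9, 1), (12, 1), (13, 1), (14, 1), (18, 1), (19, 1), (23,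
    1), (24, 1), (29, 1)], 0⟩], [⟨1, true, [1, 6, 8, 13, 18, 23, 31, 35, 36, 48, 53, 56, 61,
    68, 73, 76, 78, 81]⟩]⟩,
  ⟨18, 4, [1, 1, 2, 3], [(0, 0), (0, 0), (0, 0), (0, 0)], [⟨[3], 1, [(1, 1), (2, 1), (3, 1),
    (4, 1), (6, 1), (7, 1), (8, 1), (12, 1)], 0⟩], [⟨1, true, [1, 6, 8, 13, 18, 23, 31, 35, 36,
    48, 53, 56, 61, 68, 73, 76, 78, 81]⟩]⟩,
  ⟨19, 8, [1, 1, 1, 3], [(0, 0), (0, 0), (5, 17), (0, 0)], [⟨[1], 1, [(1, 1), (2, 1), (3, 1),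
    (6, 1)], 1⟩], []⟩,
  ⟨21, 4, [1, 1, 2, 3], [(0, 0), (0, 0), (0, 0), (0, 0)], [⟨[3], 1, [(1, 1), (2, 1), (3, 1),
    (6, 1), (7, 1), (9, 1), (13, 1), (14, 1)], 0⟩], [⟨1, true, [1, 6, 8, 13, 18, 23, 31, 35,
    36, 48, 53, 56, 61, 68, 73, 76, 78, 81]⟩]⟩,
  ⟨22, 16, [1, 1, 1, 3], [(0, 0), (0, 0), (5, 17), (0, 0)], [⟨[1], 1, [(1, 1), (2, 1)], 1⟩],
    []⟩,
  ⟨23, 16, [1, 1, 1, 3], [(0, 0), (0, 0), (5, 17), (0, 0)], [⟨[1], 1, [(1, 1), (2, 1)], 1⟩],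
    []⟩,
  ⟨24, 16, [1, 1, 1, 3], [(0, 0), (0, 0), (5, 17), (0, 0)], [⟨[1], 1, [(1, 1), (2, 1)], 1⟩],
    []⟩,
  ⟨26, 8, [1, 1, 2, 3], [(0, 0), (0, 0), (0, 0), (0, 0)], [⟨[3], 1, [(1, 1), (2, 1), (3, 1),
    (6, 1)], 0⟩], [⟨1, true, [1, 6, 8, 13, 18, 23, 31, 35, 36, 48, 53, 56, 61, 68, 73, 76, 78,
    81]⟩]⟩,
  ⟨27, 16, [1, 1, 1, 3], [(0, 0), (0, 0), (5, 17), (0, 0)], [⟨[1], 1, [(1, 1), (2, 1)], 1⟩],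
    []⟩,
  ⟨28, 16, [1, 1, 1, 3], [(0, 0), (0, 0), (5, 17), (0, 0)], [⟨[1], 1, [(1, 1), (2, 1)], 1⟩],
    []⟩,
  ⟨29, 16, [1, 1, 1, 3], [(0, 0), (0, 0), (5, 17), (0, 0)], [⟨[1], 1, [(1, 1), (2, 1)], 1⟩],
    []⟩,
  ⟨31, 16, [1, 1, 2, 3], [(0, 0), (0, 0), (0, 0), (0, 0)], [⟨[3], 1, [(1, 1), (2, 1)], 0⟩],
    [⟨1, true, [1, 6, 8, 13, 18, 23, 31, 35, 36, 48, 53, 56, 61, 68, 73, 76, 78, 81]⟩]⟩,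
  ⟨32, 8, [1, 1, 1, 3], [(0, 0), (0, 0), (5, 17), (0, 0)], [⟨[1], 1, [(1, 1), (3, 1), (7, 1),
    (9, 1)], 1⟩], []⟩,
  ⟨33, 4, [1, 1, 1, 3], [(0, 0), (0, 0), (5, 17), (0, 0)], [⟨[1], 1, [(1, 1), (2, 1), (3, 1),
    (4, 1), (6, 1), (7, 1), (8, 1), (12, 1)], 1⟩], []⟩,
  ⟨36, 8, [1, 1, 2, 3], [(0, 0), (0, 0), (0, 0), (0, 0)], [⟨[3], 1, [(1, 1), (2, 1), (3, 1),
    (6, 1)], 0⟩], [⟨1, true, [1, 6, 8, 13, 18, 23, 31, 35, 36, 48, 53, 56, 61, 68, 73, 76, 78,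
    81]⟩]⟩,
  ⟨37, 16, [1, 1, 1, 3], [(0, 0), (0, 0), (5, 17), (0, 0)], [⟨[1], 1, [(1, 1), (2, 1)], 1⟩],
    []⟩,
  ⟨38, 4, [1, 1, 1, 1], [(0, 0), (0, 0), (5, 17), (1, 17)], [], []⟩,
  ⟨39, 16, [1, 1, 1, 3], [(0, 0), (0, 0), (5, 17), (0, 0)], [⟨[1], 1, [(1, 1), (2, 1)], 1⟩],
    []⟩,
  ⟨41, 16, [1, 1, 2, 3], [(0, 0), (0, 0), (0, 0), (0, 0)], [⟨[3], 1, [(1, 1), (2, 1)], 0⟩],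
    [⟨1, true, [1, 6, 8, 13, 18, 23, 31, 35, 36, 48, 53, 56, 61, 68, 73, 76, 78, 81]⟩]⟩,
  ⟨42, 8, [1, 1, 1, 3], [(0, 0), (0, 0), (5, 17), (0, 0)], [⟨[1], 1, [(1, 1), (3, 1), (7, 1),
    (9, 1)], 1⟩], []⟩,
  ⟨43, 8, [1, 1, 1, 3], [(0, 0), (0, 0), (5, 17), (0, 0)], [⟨[1], 1, [(1, 1), (3, 1), (7, 1),
    (9, 1)], 1⟩], []⟩,
  ⟨44, 16, [1, 1, 1, 3], [(0, 0), (0, 0), (5, 17), (0, 0)], [⟨[1], 1, [(1, 1), (2, 1)], 1⟩],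
    []⟩,
  ⟨46, 16, [1, 1, 2, 3], [(0, 0), (0, 0), (0, 0), (0, 0)], [⟨[3], 1, [(1, 1), (2, 1)], 0⟩],
    [⟨1, true, [1, 6, 8, 13, 18, 23, 31, 35, 36, 48, 53, 56, 61, 68, 73, 76, 78, 81]⟩]⟩,
  ⟨47, 4, [1, 1, 1, 1], [(0, 0), (0, 0), (5, 17), (1, 17)], [], []⟩,
  ⟨48, 16, [1, 1, 1, 3], [(0, 0), (0, 0), (5, 17), (0, 0)], [⟨[1], 1, [(1, 1), (2, 1)], 1⟩],
    []⟩,
  ⟨49, 8, [1, 1, 1, 3], [(0, 0), (0, 0), (5, 17), (0, 0)], [⟨[1], 1, [(1, 1), (2, 1), (3, 1),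
    (6, 1)], 1⟩], []⟩,
  ⟨52, 4, [1, 1, 2, 3], [(0, 0), (0, 0), (0, 0), (0, 0)], [⟨[3], 1, [(1, 1), (2, 1), (3, 1),
    (4, 1), (6, 1), (7, 1), (8, 1), (12, 1)], 0⟩], [⟨1, true, [1, 6, 8, 13, 18, 23, 31, 35, 36,
    48, 53, 56, 61, 68, 73, 76, 78, 81]⟩]⟩,
  ⟨53, 8, [1, 1, 1, 3], [(0, 0), (0, 0), (5, 17), (0, 0)], [⟨[1], 1, [(1, 1), (3, 1), (7, 1),
    (9, 1)], 1⟩], []⟩,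
  ⟨54, 16, [1, 1, 1, 3], [(0, 0), (0, 0), (5, 17), (0, 0)], [⟨[1], 1, [(1, 1), (2, 1)], 1⟩],
    []⟩,
  ⟨56, 16, [1, 1, 2, 3], [(0, 0), (0, 0), (0, 0), (0, 0)], [⟨[3], 1, [(1, 1), (2, 1)], 0⟩],
    [⟨1, true, [1, 6, 8, 13, 18, 23, 31, 35, 36, 48, 53, 56, 61, 68, 73, 76, 78, 81]⟩]⟩,
  ⟨57, 16, [1, 1, 1, 3], [(0, 0), (0, 0), (5, 17), (0, 0)], [⟨[1], 1, [(1, 1), (2, 1)], 1⟩],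
    []⟩,
  ⟨58, 16, [1, 1, 1, 3], [(0, 0), (0, 0), (5, 17), (0, 0)], [⟨[1], 1, [(1, 1), (2, 1)], 1⟩],
    []⟩,
  ⟨59, 8, [1, 1, 1, 3], [(0, 0), (0, 0), (5, 17), (0, 0)], [⟨[1], 1, [(1, 1), (2, 1), (3, 1),
    (6, 1)], 1⟩], []⟩,
  ⟨61, 16, [1, 1, 2, 3], [(0, 0), (0, 0), (0, 0), (0, 0)], [⟨[3], 1, [(1, 1), (2, 1)], 0⟩],
    [⟨1, true, [1, 6, 8, 13, 18, 23, 31, 35, 36, 48, 53, 56, 61, 68, 73, 76, 78, 81]⟩]⟩,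
  ⟨62, 16, [1, 1, 1, 3], [(0, 0), (0, 0), (5, 17), (0, 0)], [⟨[1], 1, [(1, 1), (2, 1)], 1⟩],
    []⟩,
  ⟨63, 16, [1, 1, 1, 3], [(0, 0), (0, 0), (5, 17), (0, 0)], [⟨[1], 1, [(1, 1), (2, 1)], 1⟩],
    []⟩,
  ⟨64, 4, [1, 1, 1, 3], [(0, 0), (0, 0), (5, 17), (0, 0)], [⟨[1], 1, [(1, 1), (2, 1), (3, 1),
    (6, 1), (7, 1), (9, 1), (13, 1), (14, 1)], 1⟩], []⟩,
  ⟨66, 8, [1, 1, 2, 3], [(0, 0), (0, 0), (0, 0), (0, 0)], [⟨[3], 1, [(1, 1), (2, 1), (3, 1),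
    (6, 1)], 0⟩], [⟨1, true, [1, 6, 8, 13, 18, 23, 31, 35, 36, 48, 53, 56, 61, 68, 73, 76, 78,
    81]⟩]⟩,
  ⟨67, 4, [1, 1, 1, 3], [(0, 0), (0, 0), (5, 17), (0, 0)], [⟨[1], 1, [(1, 1), (2, 1), (3, 1),
    (4, 1), (6, 1), (7, 1), (8, 1), (12, 1)], 1⟩], []⟩,
  ⟨69, 2, [1, 1, 2, 3], [(0, 0), (0, 0), (0, 0), (0, 0)], [⟨[3], 1, [(1, 1), (2, 1), (3, 1),
    (4, 1), (6, 1), (7, 1), (8, 1), (9, 1), (12, 1), (13, 1), (14, 1), (18, 1), (19, 1), (23,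
    1), (24, 1), (29, 1)], 0⟩], [⟨1, true, [1, 6, 8, 13, 18, 23, 31, 35, 36, 48, 53, 56, 61,
    68, 73, 76, 78, 81]⟩]⟩,
  ⟨71, 16, [1, 1, 2, 3], [(0, 0), (0, 0), (0, 0), (0, 0)], [⟨[3], 1, [(1, 1), (2, 1)], 0⟩],
    [⟨1, true, [1, 6, 8, 13, 18, 23, 31, 35, 36, 48, 53, 56, 61, 68, 73, 76, 78, 81]⟩]⟩,
  ⟨72, 4, [1, 1, 1, 1], [(0, 0), (0, 0), (5, 17), (1, 17)], [], []⟩,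
  ⟨73, 16, [1, 1, 1, 3], [(0, 0), (0, 0), (5, 17), (0, 0)], [⟨[1], 1, [(1, 1), (2, 1)], 1⟩],
    []⟩,
  ⟨74, 16, [1, 1, 1, 3], [(0, 0), (0, 0), (5, 17), (0, 0)], [⟨[1], 1, [(1, 1), (2, 1)], 1⟩],
    []⟩,
  ⟨76, 8, [1, 1, 2, 3], [(0, 0), (0, 0), (0, 0), (0, 0)], [⟨[3], 1, [(1, 1), (2, 1), (3, 1),
    (6, 1)], 0⟩], [⟨1, true, [1, 6, 8, 13, 18, 23, 31, 35, 36, 48, 53, 56, 61, 68, 73, 76, 78,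
    81]⟩]⟩,
  ⟨77, 8, [1, 1, 1, 3], [(0, 0), (0, 0), (5, 17), (0, 0)], [⟨[1], 1, [(1, 1), (3, 1), (7, 1),
    (9, 1)], 1⟩], []⟩,
  ⟨78, 16, [1, 1, 1, 3], [(0, 0), (0, 0), (5, 17), (0, 0)], [⟨[1], 1, [(1, 1), (2, 1)], 1⟩],
    []⟩,
  ⟨79, 16, [1, 1, 1, 3], [(0, 0), (0, 0), (5, 17), (0, 0)], [⟨[1], 1, [(1, 1), (2, 1)], 1⟩],
    []⟩,
  ⟨81, 4, [1, 1, 2, 3], [(0, 0), (0, 0), (0, 0), (0, 0)], [⟨[3], 1, [(1, 1), (2, 1), (3, 1),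
    (6, 1), (7, 1), (9, 1), (13, 1), (14, 1)], 0⟩], [⟨1, true, [1, 6, 8, 13, 18, 23, 31, 35,
    36, 48, 53, 56, 61, 68, 73, 76, 78, 81]⟩]⟩,
  ⟨82, 16, [1, 1, 1, 3], [(0, 0), (0, 0), (5, 17), (0, 0)], [⟨[1], 1, [(1, 1), (2, 1)], 1⟩],
    []⟩,
  ⟨83, 8, [1, 1, 1, 3], [(0, 0), (0, 0), (5, 17), (0, 0)], [⟨[1], 1, [(1, 1), (3, 1), (7, 1),
    (9, 1)], 1⟩], []⟩,
  ⟨84, 2, [1, 1, 1, 1], [(0, 0), (0, 0), (5, 17), (1, 17)], [], []⟩]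

theorem tab85_ok : tabOK 85 5 17 1 tab85 = true := by decide +kernel

end Pool.Agent.N998.FP
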