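import Pool.Agent.N998.FP.Tab0
import Pool.Agent.N998.FP.Tab1
import Pool.Agent.N998.FP.Tab2
import Pool.Agent.N998.FP.Tab3
import Pool.Agent.N993.ThreeP

/-!
# The theorem
-/

set_option linter.unusedSectionVars false

namespace Pool.Agent.N998.FP

open Pool.Agent.H916R2 Pool.Agent.H916T Pool.Agent.H916Z Pool.Agent.H916Q Pool.Agent.H916Y
  Pool.Agent.N992 Pool.Agent.N993

lemma known_of {m : ℕ} (hm : 0 < m) (h : MutualSquares m ∨ ThreePrimes m ∨ m ≤ 86) : Known m := by
  have hz : NeZero m := ⟨hm.ne'⟩
  obtain ⟨l, hl, _, h2⟩ := mainT m h
  exact fun s hs hne => ⟨l, hl, h2 s hs hne⟩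

/-- the checks of the residues -/
def cov (m F : ℕ) (tab : List Cs) (ex : List ℕ) : Bool :=
  (uL m).all fun a => inTab m F tab a || ex.contains (a ^ F % m)

lemma cov_sound {m p F : ℕ} {tab : List Cs} {ex : List ℕ} (hm : 0 < m) (hpm : p.Coprime m)
    (h : cov m F tab ex = true) (hex : (p % m) ^ F % m ∉ ex) : inTab m F tab (p % m) = true := by
  have h1 : p % m ∈ uL m := by
    unfold uL
    rw [List.mem_filter, List.mem_range]
    refine ⟨Nat.mod_lt _ hm, ?_⟩
    rw [beq_iff_eq, ← Nat.gcd_rec, Nat.gcd_comm]
    exact hpm
  have h2 := List.all_eq_true.mp h _ h1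
  rw [Bool.or_eq_true] at h2
  rcases h2 with h2 | h2
  · exact h2
  · exfalso
    apply hex
    rw [List.contains_iff_mem] at h2
    exact h2

lemma cov3 : cov 3 1 tab3 [] = true := by decide +kernel
lemma cov5 : cov 5 1 tab5 [] = true := by decide +kernel
lemma cov6 : cov 6 1 tab6 [] = true := by decide +kernel
lemma cov7 : cov 7 3 tab7 [] = true := by decide +kernel
lemma cov9 : cov 9 3 tab9 [] = true := by decide +kernel
lemma cov10 : cov 10 1 tab10 [] = true := by decide +kernel
lemma cov11 : cov 11 5 tab11 [] = true := by decide +kernel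
lemma cov12 : cov 12 1 tab12 [] = true := by decide +kernel
lemma cov13 : cov 13 3 tab13 [] = true := by decide +kernel
lemma cov14 : cov 14 3 tab14 [] = true := by decide +kernel
lemma cov15 : cov 15 1 tab15 [] = true := by decide +kernel
lemma cov17 : cov 17 1 tab17 [] = true := by decide +kernel
lemma cov18 : cov 18 3 tab18 [] = true := by decide +kernel
lemma cov19 : cov 19 9 tab19 [] = true := by decide +kernel
lemma cov20 : cov 20 1 tab20 [] = true := by decide +kernel
lemma cov21 : cov 21 3 tab21 [] = true := by decide +kernel
lemma cov22 : cov 22 5 tab22 [] = true := by decide +kernel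
lemma cov23 : cov 23 11 tab23 [] = true := by decide +kernel
lemma cov24 : cov 24 1 tab24 [] = true := by decide +kernel
lemma cov25 : cov 25 5 tab25 [] = true := by decide +kernel
lemma cov26 : cov 26 3 tab26 [] = true := by decide +kernel
lemma cov27 : cov 27 9 tab27 [] = true := by decide +kernel
lemma cov28 : cov 28 3 tab28 [] = true := by decide +kernel
lemma cov29 : cov 29 7 tab29 [] = true := by decide +kernel
lemma cov30 : cov 30 1 tab30 [] = true := by decide +kernel
lemma cov31 : cov 31 15 tab31 [] = true := by decide +kernel
lemma cov33 : cov 33 5 tab33 [] = true := by decide +kernel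
lemma cov34 : cov 34 1 tab34 [] = true := by decide +kernel
lemma cov35 : cov 35 3 tab35 [] = true := by decide +kernel
lemma cov36 : cov 36 3 tab36 [] = true := by decide +kernel
lemma cov37 : cov 37 9 tab37 [] = true := by decide +kernel
lemma cov38 : cov 38 9 tab38 [] = true := by decide +kernel
lemma cov39 : cov 39 3 tab39 [] = true := by decide +kernel
lemma cov40 : cov 40 1 tab40 [] = true := by decide +kernel
lemma cov41 : cov 41 5 tab41 [] = true := by decide +kernel
lemma cov42 : cov 42 3 tab42 [] = true := by decide +kernel
lemma cov43 : cov 43 21 tab43 [] = true := by decide +kernel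
lemma cov44 : cov 44 5 tab44 [] = true := by decide +kernel
lemma cov45 : cov 45 3 tab45 [] = true := by decide +kernel
lemma cov46 : cov 46 11 tab46 [] = true := by decide +kernel
lemma cov47 : cov 47 23 tab47 [] = true := by decide +kernel
lemma cov48 : cov 48 1 tab48 [] = true := by decide +kernel
lemma cov49 : cov 49 21 tab49 [] = true := by decide +kernel
lemma cov50 : cov 50 5 tab50 [] = true := by decide +kernel
lemma cov51 : cov 51 1 tab51 [] = true := by decide +kernel
lemma cov52 : cov 52 3 tab52 [] = true := by decide +kernel
lemma cov53 : cov 53 13 tab53 [] = true := by decide +kernel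
lemma cov54 : cov 54 9 tab54 [] = true := by decide +kernel
lemma cov55 : cov 55 5 tab55 [12, 21, 23] = true := by decide +kernel
lemma cov56 : cov 56 3 tab56 [] = true := by decide +kernel
lemma cov57 : cov 57 9 tab57 [] = true := by decide +kernel
lemma cov58 : cov 58 7 tab58 [] = true := by decide +kernel
lemma cov59 : cov 59 29 tab59 [] = true := by decide +kernel
lemma cov60 : cov 60 1 tab60 [] = true := by decide +kernel
lemma cov61 : cov 61 15 tab61 [] = true := by decide +kernel
lemma cov62 : cov 62 15 tab62 [] = true := by decide +kernel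
lemma cov63 : cov 63 3 tab63 [] = true := by decide +kernel
lemma cov65 : cov 65 3 tab65 [] = true := by decide +kernel
lemma cov66 : cov 66 5 tab66 [] = true := by decide +kernel
lemma cov67 : cov 67 33 tab67 [] = true := by decide +kernel
lemma cov68 : cov 68 1 tab68 [35] = true := by decide +kernel
lemma cov69 : cov 69 11 tab69 [] = true := by decide +kernel
lemma cov70 : cov 70 3 tab70 [] = true := by decide +kernel
lemma cov71 : cov 71 35 tab71 [] = true := by decide +kernel
lemma cov72 : cov 72 3 tab72 [] = true := by decide +kernel
lemma cov73 : cov 73 9 tab73 [] = true := by decide +kernel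
lemma cov74 : cov 74 9 tab74 [] = true := by decide +kernel
lemma cov75 : cov 75 5 tab75 [] = true := by decide +kernel
lemma cov76 : cov 76 9 tab76 [] = true := by decide +kernel
lemma cov77 : cov 77 15 tab77 [] = true := by decide +kernel
lemma cov78 : cov 78 3 tab78 [] = true := by decide +kernel
lemma cov79 : cov 79 39 tab79 [] = true := by decide +kernel
lemma cov80 : cov 80 1 tab80 [] = true := by decide +kernel
lemma cov81 : cov 81 27 tab81 [] = true := by decide +kernel
lemma cov82 : cov 82 5 tab82 [] = true := by decide +kernel
lemma cov83 : cov 83 41 tab83 [] = true := by decide +kernel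
lemma cov84 : cov 84 3 tab84 [] = true := by decide +kernel
lemma cov85 : cov 85 1 tab85 [] = true := by decide +kernel
lemma cov86 : cov 86 21 tab86 [] = true := by decide +kernel

/-- all degrees at most 86 except 55 and 68 -/
theorem corr_small {m p : ℕ} (hm : 0 < m) (h86 : m ≤ 86) (h55 : m ≠ 55) (h68 : m ≠ 68)
    (hpm : p.Coprime m) : CorrOK p m := by
  interval_cases m
  · exact corr_of_two (k := 0) rfl hpm
  · exact corr_of_two (k := 1) rfl hpm
  · exact corr_of_table (q := 3) (r := 3) (F := 1) (by norm_num) (by norm_num)
      (by norm_num) tab3_ok hpm (cov_sound hm hpm cov3 (by simp))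
  · exact corr_of_two (k := 2) rfl hpm
  · exact corr_of_table (q := 5) (r := 5) (F := 1) (by norm_num) (by norm_num)
      (by norm_num) tab5_ok hpm (cov_sound hm hpm cov5 (by simp))
  · exact corr_of_table (q := 3) (r := 3) (F := 1) (by norm_num) (by norm_num)
      (by norm_num) tab6_ok hpm (cov_sound hm hpm cov6 (by simp))
  · exact corr_of_table (q := 7) (r := 7) (F := 3) (by norm_num) (by norm_num)
      (by norm_num) tab7_ok hpm (cov_sound hm hpm cov7 (by simp))
  · exact corr_of_two (k := 3) rfl hpm
  · exact corr_of_table (q := 3) (r := 3) (F := 3) (by norm_num) (by norm_num)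
      (by norm_num) tab9_ok hpm (cov_sound hm hpm cov9 (by simp))
  · exact corr_of_table (q := 5) (r := 5) (F := 1) (by norm_num) (by norm_num)
      (by norm_num) tab10_ok hpm (cov_sound hm hpm cov10 (by simp))
  · exact corr_of_table (q := 11) (r := 11) (F := 5) (by norm_num) (by norm_num)
      (by norm_num) tab11_ok hpm (cov_sound hm hpm cov11 (by simp))
  · exact corr_of_table (q := 3) (r := 3) (F := 1) (by norm_num) (by norm_num)
      (by norm_num) tab12_ok hpm (cov_sound hm hpm cov12 (by simp))
  · exact corr_of_table (q := 13) (r := 13) (F := 3) (by norm_num) (by norm_num)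
      (by norm_num) tab13_ok hpm (cov_sound hm hpm cov13 (by simp))
  · exact corr_of_table (q := 7) (r := 7) (F := 3) (by norm_num) (by norm_num)
      (by norm_num) tab14_ok hpm (cov_sound hm hpm cov14 (by simp))
  · exact corr_of_table (q := 3) (r := 5) (F := 1) (by norm_num) (by norm_num)
      (by norm_num) tab15_ok hpm (cov_sound hm hpm cov15 (by simp))
  · exact corr_of_two (k := 4) rfl hpm
  · exact corr_of_table (q := 17) (r := 17) (F := 1) (by norm_num) (by norm_num)
      (by norm_num) tab17_ok hpm (cov_sound hm hpm cov17 (by simp))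
  · exact corr_of_table (q := 3) (r := 3) (F := 3) (by norm_num) (by norm_num)
      (by norm_num) tab18_ok hpm (cov_sound hm hpm cov18 (by simp))
  · exact corr_of_table (q := 19) (r := 19) (F := 9) (by norm_num) (by norm_num)
      (by norm_num) tab19_ok hpm (cov_sound hm hpm cov19 (by simp))
  · exact corr_of_table (q := 5) (r := 5) (F := 1) (by norm_num) (by norm_num)
      (by norm_num) tab20_ok hpm (cov_sound hm hpm cov20 (by simp))
  · exact corr_of_table (q := 3) (r := 7) (F := 3) (by norm_num) (by norm_num)
      (by norm_num) tab21_ok hpm (cov_sound hm hpm cov21 (by simp))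
  · exact corr_of_table (q := 11) (r := 11) (F := 5) (by norm_num) (by norm_num)
      (by norm_num) tab22_ok hpm (cov_sound hm hpm cov22 (by simp))
  · exact corr_of_table (q := 23) (r := 23) (F := 11) (by norm_num) (by norm_num)
      (by norm_num) tab23_ok hpm (cov_sound hm hpm cov23 (by simp))
  · exact corr_of_table (q := 3) (r := 3) (F := 1) (by norm_num) (by norm_num)
      (by norm_num) tab24_ok hpm (cov_sound hm hpm cov24 (by simp))
  · exact corr_of_table (q := 5) (r := 5) (F := 5) (by norm_num) (by norm_num)
      (by norm_num) tab25_ok hpm (cov_sound hm hpm cov25 (by simp))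
  · exact corr_of_table (q := 13) (r := 13) (F := 3) (by norm_num) (by norm_num)
      (by norm_num) tab26_ok hpm (cov_sound hm hpm cov26 (by simp))
  · exact corr_of_table (q := 3) (r := 3) (F := 9) (by norm_num) (by norm_num)
      (by norm_num) tab27_ok hpm (cov_sound hm hpm cov27 (by simp))
  · exact corr_of_table (q := 7) (r := 7) (F := 3) (by norm_num) (by norm_num)
      (by norm_num) tab28_ok hpm (cov_sound hm hpm cov28 (by simp))
  · exact corr_of_table (q := 29) (r := 29) (F := 7) (by norm_num) (by norm_num)
      (by norm_num) tab29_ok hpm (cov_sound hm hpm cov29 (by simp))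
  · exact corr_of_table (q := 3) (r := 5) (F := 1) (by norm_num) (by norm_num)
      (by norm_num) tab30_ok hpm (cov_sound hm hpm cov30 (by simp))
  · exact corr_of_table (q := 31) (r := 31) (F := 15) (by norm_num) (by norm_num)
      (by norm_num) tab31_ok hpm (cov_sound hm hpm cov31 (by simp))
  · exact corr_of_two (k := 5) rfl hpm
  · exact corr_of_table (q := 3) (r := 11) (F := 5) (by norm_num) (by norm_num)
      (by norm_num) tab33_ok hpm (cov_sound hm hpm cov33 (by simp))
  · exact corr_of_table (q := 17) (r := 17) (F := 1) (by norm_num) (by norm_num)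
      (by norm_num) tab34_ok hpm (cov_sound hm hpm cov34 (by simp))
  · exact corr_of_table (q := 5) (r := 7) (F := 3) (by norm_num) (by norm_num)
      (by norm_num) tab35_ok hpm (cov_sound hm hpm cov35 (by simp))
  · exact corr_of_table (q := 3) (r := 3) (F := 3) (by norm_num) (by norm_num)
      (by norm_num) tab36_ok hpm (cov_sound hm hpm cov36 (by simp))
  · exact corr_of_table (q := 37) (r := 37) (F := 9) (by norm_num) (by norm_num)
      (by norm_num) tab37_ok hpm (cov_sound hm hpm cov37 (by simp))
  · exact corr_of_table (q := 19) (r := 19) (F := 9) (by norm_num) (by norm_num)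
      (by norm_num) tab38_ok hpm (cov_sound hm hpm cov38 (by simp))
  · exact corr_of_table (q := 3) (r := 13) (F := 3) (by norm_num) (by norm_num)
      (by norm_num) tab39_ok hpm (cov_sound hm hpm cov39 (by simp))
  · exact corr_of_table (q := 5) (r := 5) (F := 1) (by norm_num) (by norm_num)
      (by norm_num) tab40_ok hpm (cov_sound hm hpm cov40 (by simp))
  · exact corr_of_table (q := 41) (r := 41) (F := 5) (by norm_num) (by norm_num)
      (by norm_num) tab41_ok hpm (cov_sound hm hpm cov41 (by simp))
  · exact corr_of_table (q := 3) (r := 7) (F := 3) (by norm_num) (by norm_num)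
      (by norm_num) tab42_ok hpm (cov_sound hm hpm cov42 (by simp))
  · exact corr_of_table (q := 43) (r := 43) (F := 21) (by norm_num) (by norm_num)
      (by norm_num) tab43_ok hpm (cov_sound hm hpm cov43 (by simp))
  · exact corr_of_table (q := 11) (r := 11) (F := 5) (by norm_num) (by norm_num)
      (by norm_num) tab44_ok hpm (cov_sound hm hpm cov44 (by simp))
  · exact corr_of_table (q := 3) (r := 5) (F := 3) (by norm_num) (by norm_num)
      (by norm_num) tab45_ok hpm (cov_sound hm hpm cov45 (by simp))
  · exact corr_of_table (q := 23) (r := 23) (F := 11) (by norm_num) (by norm_num)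
      (by norm_num) tab46_ok hpm (cov_sound hm hpm cov46 (by simp))
  · exact corr_of_table (q := 47) (r := 47) (F := 23) (by norm_num) (by norm_num)
      (by norm_num) tab47_ok hpm (cov_sound hm hpm cov47 (by simp))
  · exact corr_of_table (q := 3) (r := 3) (F := 1) (by norm_num) (by norm_num)
      (by norm_num) tab48_ok hpm (cov_sound hm hpm cov48 (by simp))
  · exact corr_of_table (q := 7) (r := 7) (F := 21) (by norm_num) (by norm_num)
      (by norm_num) tab49_ok hpm (cov_sound hm hpm cov49 (by simp))
  · exact corr_of_table (q := 5) (r := 5) (F := 5) (by norm_num) (by norm_num)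
      (by norm_num) tab50_ok hpm (cov_sound hm hpm cov50 (by simp))
  · exact corr_of_table (q := 3) (r := 17) (F := 1) (by norm_num) (by norm_num)
      (by norm_num) tab51_ok hpm (cov_sound hm hpm cov51 (by simp))
  · exact corr_of_table (q := 13) (r := 13) (F := 3) (by norm_num) (by norm_num)
      (by norm_num) tab52_ok hpm (cov_sound hm hpm cov52 (by simp))
  · exact corr_of_table (q := 53) (r := 53) (F := 13) (by norm_num) (by norm_num)
      (by norm_num) tab53_ok hpm (cov_sound hm hpm cov53 (by simp))
  · exact corr_of_table (q := 3) (r := 3) (F := 9) (by norm_num) (by norm_num)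
      (by norm_num) tab54_ok hpm (cov_sound hm hpm cov54 (by simp))
  · exact absurd rfl h55
  · exact corr_of_table (q := 7) (r := 7) (F := 3) (by norm_num) (by norm_num)
      (by norm_num) tab56_ok hpm (cov_sound hm hpm cov56 (by simp))
  · exact corr_of_table (q := 3) (r := 19) (F := 9) (by norm_num) (by norm_num)
      (by norm_num) tab57_ok hpm (cov_sound hm hpm cov57 (by simp))
  · exact corr_of_table (q := 29) (r := 29) (F := 7) (by norm_num) (by norm_num)
      (by norm_num) tab58_ok hpm (cov_sound hm hpm cov58 (by simp))
  · exact corr_of_table (q := 59) (r := 59) (F := 29) (by norm_num) (by norm_num)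
      (by norm_num) tab59_ok hpm (cov_sound hm hpm cov59 (by simp))
  · exact corr_of_table (q := 3) (r := 5) (F := 1) (by norm_num) (by norm_num)
      (by norm_num) tab60_ok hpm (cov_sound hm hpm cov60 (by simp))
  · exact corr_of_table (q := 61) (r := 61) (F := 15) (by norm_num) (by norm_num)
      (by norm_num) tab61_ok hpm (cov_sound hm hpm cov61 (by simp))
  · exact corr_of_table (q := 31) (r := 31) (F := 15) (by norm_num) (by norm_num)
      (by norm_num) tab62_ok hpm (cov_sound hm hpm cov62 (by simp))
  · exact corr_of_table (q := 3) (r := 7) (F := 3) (by norm_num) (by norm_num)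
      (by norm_num) tab63_ok hpm (cov_sound hm hpm cov63 (by simp))
  · exact corr_of_two (k := 6) rfl hpm
  · exact corr_of_table (q := 5) (r := 13) (F := 3) (by norm_num) (by norm_num)
      (by norm_num) tab65_ok hpm (cov_sound hm hpm cov65 (by simp))
  · exact corr_of_table (q := 3) (r := 11) (F := 5) (by norm_num) (by norm_num)
      (by norm_num) tab66_ok hpm (cov_sound hm hpm cov66 (by simp))
  · exact corr_of_table (q := 67) (r := 67) (F := 33) (by norm_num) (by norm_num)
      (by norm_num) tab67_ok hpm (cov_sound hm hpm cov67 (by simp))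
  · exact absurd rfl h68
  · exact corr_of_table (q := 3) (r := 23) (F := 11) (by norm_num) (by norm_num)
      (by norm_num) tab69_ok hpm (cov_sound hm hpm cov69 (by simp))
  · exact corr_of_table (q := 5) (r := 7) (F := 3) (by norm_num) (by norm_num)
      (by norm_num) tab70_ok hpm (cov_sound hm hpm cov70 (by simp))
  · exact corr_of_table (q := 71) (r := 71) (F := 35) (by norm_num) (by norm_num)
      (by norm_num) tab71_ok hpm (cov_sound hm hpm cov71 (by simp))
  · exact corr_of_table (q := 3) (r := 3) (F := 3) (by norm_num) (by norm_num)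
      (by norm_num) tab72_ok hpm (cov_sound hm hpm cov72 (by simp))
  · exact corr_of_table (q := 73) (r := 73) (F := 9) (by norm_num) (by norm_num)
      (by norm_num) tab73_ok hpm (cov_sound hm hpm cov73 (by simp))
  · exact corr_of_table (q := 37) (r := 37) (F := 9) (by norm_num) (by norm_num)
      (by norm_num) tab74_ok hpm (cov_sound hm hpm cov74 (by simp))
  · exact corr_of_table (q := 3) (r := 5) (F := 5) (by norm_num) (by norm_num)
      (by norm_num) tab75_ok hpm (cov_sound hm hpm cov75 (by simp))
  · exact corr_of_table (q := 19) (r := 19) (F := 9) (by norm_num) (by norm_num)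
      (by norm_num) tab76_ok hpm (cov_sound hm hpm cov76 (by simp))
  · exact corr_of_table (q := 7) (r := 11) (F := 15) (by norm_num) (by norm_num)
      (by norm_num) tab77_ok hpm (cov_sound hm hpm cov77 (by simp))
  · exact corr_of_table (q := 3) (r := 13) (F := 3) (by norm_num) (by norm_num)
      (by norm_num) tab78_ok hpm (cov_sound hm hpm cov78 (by simp))
  · exact corr_of_table (q := 79) (r := 79) (F := 39) (by norm_num) (by norm_num)
      (by norm_num) tab79_ok hpm (cov_sound hm hpm cov79 (by simp))
  · exact corr_of_table (q := 5) (r := 5) (F := 1) (by norm_num) (by norm_num)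
      (by norm_num) tab80_ok hpm (cov_sound hm hpm cov80 (by simp))
  · exact corr_of_table (q := 3) (r := 3) (F := 27) (by norm_num) (by norm_num)
      (by norm_num) tab81_ok hpm (cov_sound hm hpm cov81 (by simp))
  · exact corr_of_table (q := 41) (r := 41) (F := 5) (by norm_num) (by norm_num)
      (by norm_num) tab82_ok hpm (cov_sound hm hpm cov82 (by simp))
  · exact corr_of_table (q := 83) (r := 83) (F := 41) (by norm_num) (by norm_num)
      (by norm_num) tab83_ok hpm (cov_sound hm hpm cov83 (by simp))
  · exact corr_of_table (q := 3) (r := 7) (F := 3) (by norm_num) (by norm_num)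
      (by norm_num) tab84_ok hpm (cov_sound hm hpm cov84 (by simp))
  · exact corr_of_table (q := 5) (r := 17) (F := 1) (by norm_num) (by norm_num)
      (by norm_num) tab85_ok hpm (cov_sound hm hpm cov85 (by simp))
  · exact corr_of_table (q := 43) (r := 43) (F := 21) (by norm_num) (by norm_num)
      (by norm_num) tab86_ok hpm (cov_sound hm hpm cov86 (by simp))

end Pool.Agent.N998.FP
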