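import Pool.Agent.N998.FP.Check

/-!
# Soundness of the checker
-/

set_option linter.unusedSectionVars false

namespace Pool.Agent.N998.FP

open Finset Pool.Agent.H916R2 Pool.Agent.H916T Pool.Agent.H916Z Pool.Agent.H916Q Pool.Agent.H916Y
  Pool.Agent.N992

variable {m : ℕ} [NeZero m] {p q r : ℕ}

/-- the multiset of a list of numbers -/
def ms (m : ℕ) (h : List ℕ) : Multiset (ZMod m) := Multiset.ofList (h.map (Nat.cast : ℕ → ZMod m))

lemma swap_sum {α : Type} (s : Multiset α) (F : ℕ) (g : ℕ → α → ℤ) :
    (s.map fun a => ∑ l ∈ range F, g l a).sum = ∑ l ∈ range F, (s.map (g l)).sum := by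
  induction s using Multiset.induction_on with
  | empty => simp
  | cons a s ih =>
    simp only [Multiset.map_cons, Multiset.sum_cons]
    rw [ih, ← sum_add_distrib]

lemma ms_map_sum {R : Type} [AddCommMonoid R] (h : List ℕ) (g : ZMod m → R) :
    ((ms m h).map g).sum = (h.map (fun a : ℕ => g (a : ZMod m))).sum := by
  unfold ms
  rw [Multiset.map_coe, Multiset.sum_coe, List.map_map]
  rfl

lemma cast_ne {x : ℕ} (h0 : 0 < x) (h1 : x < m) : (x : ZMod m) ≠ 0 := by
  intro h2
  rw [ZMod.natCast_eq_zero_iff] at h2
  exact h0.ne' (Nat.eq_zero_of_dvd_of_lt h2 h1)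

lemma ms_saw (h : List ℕ) (t : (ZMod m)ˣ) (u n : ℕ) :
    ((ms m h).map fun a => wz (u : ZMod m) n ((t : ZMod m) * a)).sum =
      (((h.map fun x => wN m u n ((t : ZMod m).val * x % m)).sum : ℕ) : ℤ) -
        n * m * h.length := by
  rw [ms_map_sum]
  induction h with
  | nil => simp
  | cons x h ih =>
    rw [List.map_cons, List.sum_cons, ih, wz_of_wN _ (Nat.mod_lt _ (NeZero.pos m)), List.map_cons,
      List.sum_cons, List.length_cons]
    push_cast
    ring

/-- corrections -/
lemma pv_sound (hp : p.Coprime m) {F : ℕ} (hF : 0 < F) {u n : ℕ} {cm : List ℕ} {v : Pv}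
    (hn : 0 < n) (hc : F.Coprime n) (hu : (p : ZMod m) ^ F = (u : ZMod m))
    (hun : (u : ZMod m) ^ n = 1) (h : pvOK m q r u n cm v = true) :
    (IsHodge m (ms m v.h) ∨ SurfaceTate p m (ms m v.h)) ∧
      Odd ((ms m v.h).countP fun a => cls m q r cm a.val = v.i) := by
  unfold pvOK at h
  simp only [Bool.and_eq_true] at h
  obtain ⟨⟨⟨⟨hb, hlen⟩, hsum⟩, hcnt⟩, hif⟩ := h
  have hb' : ∀ x ∈ v.h, 0 < x ∧ x < m := by
    intro x hx
    have := List.all_eq_true.mp hb x hx
    simpa using this
  have h0 : (0 : ZMod m) ∉ ms m v.h := by
    unfold ms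
    rw [Multiset.mem_coe]
    intro h0
    obtain ⟨x, hx, hx0⟩ := List.mem_map.mp h0
    exact cast_ne (hb' x hx).1 (hb' x hx).2 hx0
  have hcard : Multiset.card (ms m v.h) = v.h.length := by
    unfold ms; rw [Multiset.coe_card, List.length_map]
  have heven : Even (Multiset.card (ms m v.h)) := by
    rw [hcard, Nat.even_iff]
    rw [beq_iff_eq] at hlen
    exact hlen
  refine ⟨?_, ?_⟩
  · by_cases hh : v.hodge = true
    · rw [if_pos hh] at hif
      left
      apply isHodge_of_saw h0 heven
      intro t
      have h1 := ms_saw v.h t 1 1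
      have h2 := List.all_eq_true.mp hif _ (val_mem_uL t)
      rw [beq_iff_eq] at h2
      rw [h2] at h1
      have h3 : ∀ a : ZMod m, wz ((1 : ℕ) : ZMod m) 1 ((t : ZMod m) * a) = saw ((t : ZMod m) * a) := by
        intro a
        unfold wz
        rw [sum_range_one, pow_zero, one_mul]
      simp only [h3] at h1
      rw [h1]
      push_cast
      ring
    · rw [if_neg hh, Bool.and_eq_true] at hif
      right
      obtain ⟨h4, hall⟩ := hif
      rw [beq_iff_eq] at h4
      refine ⟨?_, by rw [hcard, h4]⟩
      have hs0 : (ms m v.h).sum = 0 := by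
        have h5 := ms_map_sum (m := m) v.h (fun a => a)
        rw [Multiset.map_id'] at h5
        rw [h5]
        rw [beq_iff_eq] at hsum
        have h6 : ((v.h.map fun a : ℕ => (a : ZMod m)).sum) = ((v.h.sum : ℕ) : ZMod m) := by
          rw [Nat.cast_list_sum]
        rw [h6, ZMod.natCast_eq_zero_iff]
        exact Nat.dvd_of_mod_eq_zero hsum
      refine isTate_of_W hp h0 heven hs0 ?_
      intro t
      obtain ⟨k, hk, hk2⟩ := norm_sum hp hF hn hc (by rw [hu, hun])
      have h7 : ∀ t : (ZMod m)ˣ,
          ((ms m v.h).map fun a => wz (u : ZMod m) n ((t : ZMod m) * a)).sum = 0 := by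
        intro t
        rw [ms_saw]
        have h8 := List.all_eq_true.mp hall _ (val_mem_uL t)
        rw [beq_iff_eq] at h8
        rw [h8, h4]
        push_cast
        ring
      have h9 : (k : ℤ) * ((ms m v.h).map fun a => W p ((t : ZMod m) * a)).sum = 0 := by
        rw [← Multiset.sum_map_mul_left]
        have h10 : ((ms m v.h).map fun a => (k : ℤ) * W p ((t : ZMod m) * a)).sum =
            ∑ l ∈ range F, ((ms m v.h).map fun a =>
              wz (u : ZMod m) n ((((pu m p hp ^ n) ^ l * t : (ZMod m)ˣ) : ZMod m) * a)).sum := by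
          have h11 : ∀ a : ZMod m, (k : ℤ) * W p ((t : ZMod m) * a) = ∑ l ∈ range F,
              wz (u : ZMod m) n ((((pu m p hp ^ n) ^ l * t : (ZMod m)ˣ) : ZMod m) * a) := by
            intro a
            rw [← hk2, hu]
            refine sum_congr rfl fun l _ => ?_
            congr 1
            rw [Units.val_mul, Units.val_pow_eq_pow_val, Units.val_pow_eq_pow_val, pu_val]
            ring
          simp only [h11]
          exact swap_sum _ _ _
        rw [h10]
        exact sum_eq_zero fun l _ => h7 _
      have hk0 : (k : ℤ) ≠ 0 := by exact_mod_cast hk.ne'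
      exact (mul_eq_zero.mp h9).resolve_left hk0
  · rw [beq_iff_eq] at hcnt
    rw [Nat.odd_iff, ← hcnt]
    congr 1
    unfold ms
    rw [Multiset.coe_countP, List.countP_map]
    apply List.countP_congr
    intro x hx
    have h1 := hb' x hx
    simp only [Function.comp_apply, decide_eq_true_eq, beq_iff_eq]
    rw [ZMod.val_natCast, Nat.mod_eq_of_lt h1.2]

open scoped Classical in
/-- **Soundness of the checker.** -/
theorem case_sound (hO : Only m q r) (hp : p.Coprime m) {F : ℕ} (hF : Odd F) {c : Cs}
    (hc : F.Coprime c.n) (hu : (p : ZMod m) ^ F = (c.u : ZMod m)) (h : caseOK m q r c = true) :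
    CorrOK p m := by
  unfold caseOK at h
  simp only [Bool.and_eq_true] at h
  obtain ⟨⟨⟨⟨⟨⟨⟨hn, hun⟩, hcm⟩, hlk⟩, hce⟩, hpv⟩, hlen⟩, hrows⟩ := h
  have hn' : 0 < c.n := by simpa using hn
  have hun' : (c.u : ZMod m) ^ c.n = 1 := by
    rw [beq_iff_eq] at hun
    have h1 : ((c.u ^ c.n : ℕ) : ZMod m) = ((1 : ℕ) : ZMod m) :=
      (ZMod.natCast_eq_natCast_iff' _ _ _).mpr hun
    push_cast at h1
    exact h1
  set κ : ZMod m → ℕ := fun a => cls m q r c.cm a.val with hκ
  have hκ4 : ∀ a, κ a < 4 := by
    intro a
    simp only [hκ, cls]
    by_cases h1 : code m q r a.val < c.cm.length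
    · rw [List.getD_eq_getElem _ _ h1]
      have := List.all_eq_true.mp hcm _ (List.getElem_mem h1)
      simpa using this
    · rw [List.getD_eq_default _ _ (by omega)]
      norm_num
  -- even rows suffice
  have hfinal : ∀ s : Multiset (ZMod m), IsTate p m s →
      (∀ v ∈ c.pv, Even (s.countP fun a => κ a = v.i)) →
      ∀ a : ZMod m, Even (s.countP fun b => Relation.EqvGen (Link p) a b) := by
    intro s hs hv
    have hX := rows_sound hrows (fun i => s.countP fun a => κ a = i) (by
      intro A hA i hi
      unfold rows at hA
      rcases List.mem_cons.mp hA with rfl | hA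
      · simp at hi; omega
      · rcases List.mem_append.mp hA with hA | hA
        · rcases List.mem_append.mp hA with hA | hA
          · obtain ⟨v, hv1, rfl⟩ := List.mem_map.mp hA
            rw [List.mem_singleton] at hi
            subst hi
            have := List.all_eq_true.mp hpv v hv1
            rw [Bool.and_eq_true] at this
            simpa using this.1
          · obtain ⟨d, hd, rfl⟩ := List.mem_map.mp hA
            have := List.all_eq_true.mp hce d hd
            rw [Bool.and_eq_true] at this
            have h2 := List.all_eq_true.mp this.1 i hi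
            simpa using h2
        · obtain ⟨j, hj, rfl⟩ := List.mem_map.mp hA
          rw [List.mem_singleton] at hi
          subst hi
          unfold absent at hj
          exact List.mem_range.mp (List.mem_filter.mp hj).1) (by
      intro A hA
      unfold rows at hA
      rcases List.mem_cons.mp hA with rfl | hA
      · have h1 := count_sum κ s [0, 1, 2, 3]
        rw [← h1]
        have h2 : (s.map fun a => [0, 1, 2, 3].count (κ a)).sum = Multiset.card s := by
          have h3 : ∀ a ∈ s, [0, 1, 2, 3].count (κ a) = 1 := by
            intro a _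
            have h4 := hκ4 a
            have : ∀ x < 4, [0, 1, 2, 3].count x = 1 := by decide
            exact this _ h4
          rw [Multiset.map_congr rfl h3]
          simp
        rw [h2]
        exact hs.2.1
      · rcases List.mem_append.mp hA with hA | hA
        · rcases List.mem_append.mp hA with hA | hA
          · obtain ⟨v, hv1, rfl⟩ := List.mem_map.mp hA
            rw [List.map_singleton, List.sum_singleton]
            exact hv v hv1
          · obtain ⟨d, hd, rfl⟩ := List.mem_map.mp hA
            have := List.all_eq_true.mp hce d hd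
            rw [Bool.and_eq_true] at this
            exact cert_sound hp hF hn' hc hu hun' this.2 hs
        · obtain ⟨j, hj, rfl⟩ := List.mem_map.mp hA
          rw [List.map_singleton, List.sum_singleton]
          unfold absent at hj
          have h1 := (List.mem_filter.mp hj).2
          have h2 : (s.countP fun a => κ a = j) = 0 := by
            rw [Multiset.countP_eq_zero]
            intro a ha haj
            have h3 := List.all_eq_true.mp h1 a.val (List.mem_range.mpr (ZMod.val_lt a))
            rw [Bool.or_eq_true, beq_iff_eq, bne_iff_ne] at h3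
            rcases h3 with h3 | h3
            · rw [(ZMod.val_eq_zero a).mp h3] at ha
              exact hs.1 ha
            · exact h3 haj
          rw [h2]
          exact Even.zero)
    intro a
    refine even_of_key κ _ _ s rfl ?_ ?_
    · intro K
      by_cases hK : K < 4
      · exact hX K hK
      · have h2 : (s.countP fun a => κ a = K) = 0 := by
          rw [Multiset.countP_eq_zero]
          intro a _ haK
          exact hK (haK ▸ hκ4 a)
        rw [h2]
        exact Even.zero
    · intro x hx y hy hxy
      have h1 := eqv_of_cls hO hp hF.pos hn' hc hu hun' hlk (a := x) (b := y)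
        (fun h => hs.1 (h ▸ hx)) (fun h => hs.1 (h ▸ hy)) hxy
      exact ⟨fun h => Relation.EqvGen.trans _ _ _ h h1,
        fun h => Relation.EqvGen.trans _ _ _ h (Relation.EqvGen.symm _ _ h1)⟩
  intro s hs
  -- the correction
  rcases hpvl : c.pv with _ | ⟨v, l⟩
  · refine ⟨0, by simp, ?_⟩
    intro a
    rw [Multiset.sum_zero, add_zero]
    exact hfinal s hs (by rw [hpvl]; simp) a
  · have hl : l = [] := by
      have h1 : c.pv.length ≤ 1 := by simpa using hlen
      rw [hpvl, List.length_cons] at h1
      exact List.eq_nil_of_length_eq_zero (by omega)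
    subst hl
    have h1 := List.all_eq_true.mp hpv v (by rw [hpvl]; simp)
    rw [Bool.and_eq_true] at h1
    obtain ⟨hg, hodd⟩ := pv_sound hp hF.pos hn' hc hu hun' h1.2
    have hT : IsTate p m (ms m v.h) := hg.elim (fun h => isTate_of_hodge hp h) (fun h => h.1)
    by_cases hpar : Even (s.countP fun a => κ a = v.i)
    · refine ⟨0, by simp, ?_⟩
      intro a
      rw [Multiset.sum_zero, add_zero]
      refine hfinal s hs ?_ a
      rw [hpvl]
      intro w hw
      rw [List.mem_singleton] at hw
      subst hw
      exact hpar
    · refine ⟨{ms m v.h}, ?_, ?_⟩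
      · intro x hx
        rw [Multiset.mem_singleton] at hx
        subst hx
        exact hg
      · intro a
        rw [Multiset.sum_singleton]
        refine hfinal _ (isTate_add hp hs hT) ?_ a
        rw [hpvl]
        intro w hw
        rw [List.mem_singleton] at hw
        subst hw
        rw [Multiset.countP_add]
        rw [Nat.not_even_iff_odd] at hpar
        exact hpar.add_odd hodd

end Pool.Agent.N998.FP
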