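import Pool.Agent.N998.FP.Table

/-!
# Data
-/

namespace Pool.Agent.N998.FP

/-- the data for degree 3 -/
def tab3 : List Cs := [
  ⟨2, 2, [3, 3, 3, 3], [(0, 0), (0, 0), (0, 0), (0, 0)], [], []⟩]

theorem tab3_ok : tabOK 3 3 3 1 tab3 = true := by decide +kernel

/-- the data for degree 5 -/
def tab5 : List Cs := [
  ⟨2, 4, [3, 3, 3, 3], [(0, 0), (0, 0), (0, 0), (0, 0)], [], []⟩,
  ⟨3, 4, [3, 3, 3, 3], [(0, 0), (0, 0), (0, 0), (0, 0)], [], []⟩,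
  ⟨4, 2, [3, 3, 3, 3], [(0, 0), (0, 0), (0, 0), (0, 0)], [], []⟩]

theorem tab5_ok : tabOK 5 5 5 1 tab5 = true := by decide +kernel

/-- the data for degree 6 -/
def tab6 : List Cs := [
  ⟨5, 2, [0, 0, 0, 0], [(0, 0), (0, 0), (0, 0), (2, 1)], [], []⟩]

theorem tab6_ok : tabOK 6 3 3 1 tab6 = true := by decide +kernel

/-- the data for degree 7 -/
def tab7 : List Cs := [
  ⟨6, 2, [3, 3, 3, 3], [(0, 0), (0, 0), (0, 0), (0, 0)], [], []⟩]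

theorem tab7_ok : tabOK 7 7 7 3 tab7 = true := by decide +kernel

/-- the data for degree 9 -/
def tab9 : List Cs := [
  ⟨8, 2, [3, 3, 3, 3], [(0, 0), (0, 0), (0, 0), (0, 0)], [], []⟩]

theorem tab9_ok : tabOK 9 3 3 3 tab9 = true := by decide +kernel

/-- the data for degree 10 -/
def tab10 : List Cs := [
  ⟨3, 4, [0, 0, 0, 0], [(0, 0), (0, 0), (0, 0), (2, 1)], [], []⟩,
  ⟨7, 4, [0, 0, 0, 0], [(0, 0), (0, 0), (0, 0), (2, 1)], [], []⟩,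
  ⟨9, 2, [0, 0, 0, 0], [(0, 0), (0, 0), (0, 0), (2, 1)], [], []⟩]

theorem tab10_ok : tabOK 10 5 5 1 tab10 = true := by decide +kernel

/-- the data for degree 11 -/
def tab11 : List Cs := [
  ⟨10, 2, [3, 3, 3, 3], [(0, 0), (0, 0), (0, 0), (0, 0)], [], []⟩]

theorem tab11_ok : tabOK 11 11 11 5 tab11 = true := by decide +kernel

/-- the data for degree 12 -/
def tab12 : List Cs := [
  ⟨5, 2, [0, 0, 0, 0], [(0, 0), (0, 0), (0, 0), (4, 2)], [], []⟩,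
  ⟨7, 2, [0, 0, 0, 0], [(0, 0), (0, 0), (0, 0), (4, 1)], [], []⟩,
  ⟨11, 2, [0, 0, 0, 0], [(0, 0), (0, 0), (0, 0), (4, 1)], [], []⟩]

theorem tab12_ok : tabOK 12 3 3 1 tab12 = true := by decide +kernel

/-- the data for degree 13 -/
def tab13 : List Cs := [
  ⟨5, 4, [3, 3, 3, 3], [(0, 0), (0, 0), (0, 0), (0, 0)], [], []⟩,
  ⟨8, 4, [3, 3, 3, 3], [(0, 0), (0, 0), (0, 0), (0, 0)], [], []⟩,
  ⟨12, 2, [3, 3, 3, 3], [(0, 0), (0, 0), (0, 0), (0, 0)], [], []⟩]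

theorem tab13_ok : tabOK 13 13 13 3 tab13 = true := by decide +kernel

/-- the data for degree 14 -/
def tab14 : List Cs := [
  ⟨13, 2, [0, 0, 0, 0], [(0, 0), (0, 0), (0, 0), (2, 1)], [], []⟩]

theorem tab14_ok : tabOK 14 7 7 3 tab14 = true := by decide +kernel

/-- the data for degree 15 -/
def tab15 : List Cs := [
  ⟨2, 4, [1, 1, 1, 3], [(0, 0), (0, 0), (3, 5), (0, 0)], [⟨[1], 1, [(1, 1)], 1⟩], []⟩,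
  ⟨4, 2, [1, 1, 2, 3], [(0, 0), (0, 0), (0, 0), (0, 0)], [⟨[3], 1, [(1, 1), (2, 1)], 0⟩], [⟨1,
    true, [5, 6, 8, 11]⟩]⟩,
  ⟨7, 4, [1, 1, 2, 3], [(0, 0), (0, 0), (0, 0), (0, 0)], [⟨[3], 1, [(1, 1)], 0⟩], [⟨1, true,
    [5, 6, 8, 11]⟩]⟩,
  ⟨8, 4, [1, 1, 1, 3], [(0, 0), (0, 0), (3, 5), (0, 0)], [⟨[1], 1, [(1, 1)], 1⟩], []⟩,
  ⟨11, 2, [1, 1, 2, 3], [(0, 0), (0, 0), (0, 0), (0, 0)], [⟨[3], 1, [(1, 1), (2, 1)], 0⟩], [⟨1,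
    true, [5, 6, 8, 11]⟩]⟩,
  ⟨13, 4, [1, 1, 2, 3], [(0, 0), (0, 0), (0, 0), (0, 0)], [⟨[3], 1, [(1, 1)], 0⟩], [⟨1, true,
    [5, 6, 8, 11]⟩]⟩,
  ⟨14, 2, [1, 1, 1, 1], [(0, 0), (0, 0), (3, 5), (1, 5)], [], []⟩]

theorem tab15_ok : tabOK 15 3 5 1 tab15 = true := by decide +kernel

/-- the data for degree 17 -/
def tab17 : List Cs := [
  ⟨2, 8, [3, 3, 3, 3], [(0, 0), (0, 0), (0, 0), (0, 0)], [], []⟩,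
  ⟨3, 16, [3, 3, 3, 3], [(0, 0), (0, 0), (0, 0), (0, 0)], [], []⟩,
  ⟨4, 4, [3, 3, 3, 3], [(0, 0), (0, 0), (0, 0), (0, 0)], [], []⟩,
  ⟨5, 16, [3, 3, 3, 3], [(0, 0), (0, 0), (0, 0), (0, 0)], [], []⟩,
  ⟨6, 16, [3, 3, 3, 3], [(0, 0), (0, 0), (0, 0), (0, 0)], [], []⟩,
  ⟨7, 16, [3, 3, 3, 3], [(0, 0), (0, 0), (0, 0), (0, 0)], [], []⟩,
  ⟨8, 8, [3, 3, 3, 3], [(0, 0), (0, 0), (0, 0), (0, 0)], [], []⟩,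
  ⟨9, 8, [3, 3, 3, 3], [(0, 0), (0, 0), (0, 0), (0, 0)], [], []⟩,
  ⟨10, 16, [3, 3, 3, 3], [(0, 0), (0, 0), (0, 0), (0, 0)], [], []⟩,
  ⟨11, 16, [3, 3, 3, 3], [(0, 0), (0, 0), (0, 0), (0, 0)], [], []⟩,
  ⟨12, 16, [3, 3, 3, 3], [(0, 0), (0, 0), (0, 0), (0, 0)], [], []⟩,
  ⟨13, 4, [3, 3, 3, 3], [(0, 0), (0, 0), (0, 0), (0, 0)], [], []⟩,
  ⟨14, 16, [3, 3, 3, 3], [(0, 0), (0, 0), (0, 0), (0, 0)], [], []⟩,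
  ⟨15, 8, [3, 3, 3, 3], [(0, 0), (0, 0), (0, 0), (0, 0)], [], []⟩,
  ⟨16, 2, [3, 3, 3, 3], [(0, 0), (0, 0), (0, 0), (0, 0)], [], []⟩]

theorem tab17_ok : tabOK 17 17 17 1 tab17 = true := by decide +kernel

/-- the data for degree 18 -/
def tab18 : List Cs := [
  ⟨17, 2, [0, 0, 0, 0], [(0, 0), (0, 0), (0, 0), (2, 1)], [], []⟩]

theorem tab18_ok : tabOK 18 3 3 3 tab18 = true := by decide +kernel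

/-- the data for degree 19 -/
def tab19 : List Cs := [
  ⟨18, 2, [3, 3, 3, 3], [(0, 0), (0, 0), (0, 0), (0, 0)], [], []⟩]

theorem tab19_ok : tabOK 19 19 19 9 tab19 = true := by decide +kernel

/-- the data for degree 20 -/
def tab20 : List Cs := [
  ⟨3, 4, [0, 0, 0, 0], [(0, 0), (0, 0), (0, 0), (4, 2)], [], []⟩,
  ⟨7, 4, [0, 0, 0, 0], [(0, 0), (0, 0), (0, 0), (4, 2)], [], []⟩,
  ⟨9, 2, [0, 0, 0, 0], [(0, 0), (0, 0), (0, 0), (4, 2)], [], []⟩,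
  ⟨11, 2, [0, 0, 0, 3], [(0, 0), (0, 0), (0, 0), (0, 0)], [], [⟨0, true, [4, 7, 11, 18]⟩]⟩,
  ⟨13, 4, [0, 0, 0, 0], [(0, 0), (0, 0), (0, 0), (4, 1)], [], []⟩,
  ⟨17, 4, [0, 0, 0, 0], [(0, 0), (0, 0), (0, 0), (4, 1)], [], []⟩,
  ⟨19, 2, [0, 0, 0, 0], [(0, 0), (0, 0), (0, 0), (4, 1)], [], []⟩]

theorem tab20_ok : tabOK 20 5 5 1 tab20 = true := by decide +kernel

/-- the data for degree 21 -/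
def tab21 : List Cs := [
  ⟨8, 2, [1, 1, 2, 3], [(0, 0), (0, 0), (0, 0), (0, 0)], [⟨[1], 1, [(1, 1), (2, 1), (4, 1)],
    1⟩], [⟨2, true, [1, 10, 15, 16]⟩]⟩,
  ⟨13, 2, [1, 1, 2, 3], [(0, 0), (0, 0), (0, 0), (0, 0)], [⟨[1], 1, [(1, 1), (2, 1), (4, 1)],
    0⟩], [⟨2, true, [1, 10, 15, 16]⟩]⟩,
  ⟨20, 2, [1, 1, 1, 1], [(0, 0), (0, 0), (3, 7), (1, 7)], [], []⟩]

theorem tab21_ok : tabOK 21 3 7 3 tab21 = true := by decide +kernel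

/-- the data for degree 22 -/
def tab22 : List Cs := [
  ⟨21, 2, [0, 0, 0, 0], [(0, 0), (0, 0), (0, 0), (2, 1)], [], []⟩]

theorem tab22_ok : tabOK 22 11 11 5 tab22 = true := by decide +kernel

/-- the data for degree 23 -/
def tab23 : List Cs := [
  ⟨22, 2, [3, 3, 3, 3], [(0, 0), (0, 0), (0, 0), (0, 0)], [], []⟩]

theorem tab23_ok : tabOK 23 23 23 11 tab23 = true := by decide +kernel

/-- the data for degree 24 -/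
def tab24 : List Cs := [
  ⟨5, 2, [0, 0, 0, 0], [(0, 0), (0, 0), (0, 0), (8, 4)], [], []⟩,
  ⟨7, 2, [0, 0, 0, 0], [(0, 0), (0, 0), (0, 0), (8, 2)], [], []⟩,
  ⟨11, 2, [0, 0, 0, 0], [(0, 0), (0, 0), (0, 0), (8, 2)], [], []⟩,
  ⟨13, 2, [0, 0, 0, 3], [(0, 0), (0, 0), (0, 0), (0, 0)], [], [⟨0, true, [5, 8, 13, 22]⟩]⟩,
  ⟨17, 2, [0, 0, 0, 0], [(0, 0), (0, 0), (0, 0), (8, 4)], [], []⟩,
  ⟨19, 2, [0, 0, 0, 0], [(0, 0), (0, 0), (0, 0), (8, 2)], [], []⟩,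
  ⟨23, 2, [0, 0, 0, 0], [(0, 0), (0, 0), (0, 0), (8, 1)], [], []⟩]

theorem tab24_ok : tabOK 24 3 3 1 tab24 = true := by decide +kernel

/-- the data for degree 25 -/
def tab25 : List Cs := [
  ⟨7, 4, [3, 3, 3, 3], [(0, 0), (0, 0), (0, 0), (0, 0)], [], []⟩,
  ⟨18, 4, [3, 3, 3, 3], [(0, 0), (0, 0), (0, 0), (0, 0)], [], []⟩,
  ⟨24, 2, [3, 3, 3, 3], [(0, 0), (0, 0), (0, 0), (0, 0)], [], []⟩]

theorem tab25_ok : tabOK 25 5 5 5 tab25 = true := by decide +kernel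

/-- the data for degree 26 -/
def tab26 : List Cs := [
  ⟨5, 4, [0, 0, 0, 0], [(0, 0), (0, 0), (0, 0), (2, 1)], [], []⟩,
  ⟨21, 4, [0, 0, 0, 0], [(0, 0), (0, 0), (0, 0), (2, 1)], [], []⟩,
  ⟨25, 2, [0, 0, 0, 0], [(0, 0), (0, 0), (0, 0), (2, 1)], [], []⟩]

theorem tab26_ok : tabOK 26 13 13 3 tab26 = true := by decide +kernel

/-- the data for degree 27 -/
def tab27 : List Cs := [
  ⟨26, 2, [3, 3, 3, 3], [(0, 0), (0, 0), (0, 0), (0, 0)], [], []⟩]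

theorem tab27_ok : tabOK 27 3 3 9 tab27 = true := by decide +kernel

/-- the data for degree 28 -/
def tab28 : List Cs := [
  ⟨13, 2, [0, 0, 0, 0], [(0, 0), (0, 0), (0, 0), (4, 2)], [], []⟩,
  ⟨15, 2, [0, 0, 0, 3], [(0, 0), (0, 0), (0, 0), (0, 0)], [⟨[0], 3, [(1, 1), (3, 1), (5, 1)],
    1⟩], []⟩,
  ⟨27, 2, [0, 0, 0, 0], [(0, 0), (0, 0), (0, 0), (4, 1)], [], []⟩]

theorem tab28_ok : tabOK 28 7 7 3 tab28 = true := by decide +kernel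

/-- the data for degree 29 -/
def tab29 : List Cs := [
  ⟨12, 4, [3, 3, 3, 3], [(0, 0), (0, 0), (0, 0), (0, 0)], [], []⟩,
  ⟨17, 4, [3, 3, 3, 3], [(0, 0), (0, 0), (0, 0), (0, 0)], [], []⟩,
  ⟨28, 2, [3, 3, 3, 3], [(0, 0), (0, 0), (0, 0), (0, 0)], [], []⟩]

theorem tab29_ok : tabOK 29 29 29 7 tab29 = true := by decide +kernel

/-- the data for degree 30 -/
def tab30 : List Cs := [
  ⟨7, 4, [0, 0, 0, 3], [(0, 0), (10, 1), (6, 3), (0, 0)], [⟨[0], 2, [(1, 1)], 1⟩], []⟩,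
  ⟨11, 2, [0, 0, 0, 3], [(0, 0), (10, 5), (6, 1), (0, 0)], [⟨[0], 2, [(1, 1), (7, 1)], 1⟩], []⟩,
  ⟨13, 4, [0, 0, 0, 3], [(0, 0), (10, 1), (6, 3), (0, 0)], [⟨[0], 2, [(1, 1)], 1⟩], []⟩,
  ⟨17, 4, [0, 0, 0, 3], [(0, 0), (10, 1), (6, 1), (0, 0)], [⟨[0], 2, [(1, 1)], 1⟩], []⟩,
  ⟨19, 2, [0, 0, 0, 3], [(0, 0), (10, 1), (6, 3), (0, 0)], [⟨[0], 2, [(1, 1), (7, 1)], 1⟩], []⟩,
  ⟨23, 4, [0, 0, 0, 3], [(0, 0), (10, 1), (6, 1), (0, 0)], [⟨[0], 2, [(1, 1)], 1⟩], []⟩,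
  ⟨29, 2, [0, 0, 0, 0], [(0, 0), (10, 1), (6, 1), (2, 1)], [], []⟩]

theorem tab30_ok : tabOK 30 3 5 1 tab30 = true := by decide +kernel

/-- the data for degree 31 -/
def tab31 : List Cs := [
  ⟨30, 2, [3, 3, 3, 3], [(0, 0), (0, 0), (0, 0), (0, 0)], [], []⟩]

theorem tab31_ok : tabOK 31 31 31 15 tab31 = true := by decide +kernel

/-- the data for degree 33 -/
def tab33 : List Cs := [
  ⟨10, 2, [1, 1, 2, 3], [(0, 0), (0, 0), (0, 0), (0, 0)], [⟨[2], 1, [(1, 1), (2, 1), (4, 1),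
    (5, 1), (8, 1)], 1⟩], [⟨1, true, [7, 10, 13, 19, 22, 28]⟩]⟩,
  ⟨23, 2, [1, 1, 2, 3], [(0, 0), (0, 0), (0, 0), (0, 0)], [⟨[2], 1, [(1, 1), (2, 1), (4, 1),
    (5, 1), (8, 1)], 0⟩], [⟨1, true, [7, 10, 13, 19, 22, 28]⟩]⟩,
  ⟨32, 2, [1, 1, 1, 1], [(0, 0), (0, 0), (3, 11), (1, 11)], [], []⟩]

theorem tab33_ok : tabOK 33 3 11 5 tab33 = true := by decide +kernel

/-- the data for degree 34 -/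
def tab34 : List Cs := [
  ⟨3, 16, [0, 0, 0, 0], [(0, 0), (0, 0), (0, 0), (2, 1)], [], []⟩,
  ⟨5, 16, [0, 0, 0, 0], [(0, 0), (0, 0), (0, 0), (2, 1)], [], []⟩,
  ⟨7, 16, [0, 0, 0, 0], [(0, 0), (0, 0), (0, 0), (2, 1)], [], []⟩,
  ⟨9, 8, [0, 0, 0, 0], [(0, 0), (0, 0), (0, 0), (2, 1)], [], []⟩,
  ⟨11, 16, [0, 0, 0, 0], [(0, 0), (0, 0), (0, 0), (2, 1)], [], []⟩,
  ⟨13, 4, [0, 0, 0, 0], [(0, 0), (0, 0), (0, 0), (2, 1)], [], []⟩,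
  ⟨15, 8, [0, 0, 0, 0], [(0, 0), (0, 0), (0, 0), (2, 1)], [], []⟩,
  ⟨19, 8, [0, 0, 0, 0], [(0, 0), (0, 0), (0, 0), (2, 1)], [], []⟩,
  ⟨21, 4, [0, 0, 0, 0], [(0, 0), (0, 0), (0, 0), (2, 1)], [], []⟩,
  ⟨23, 16, [0, 0, 0, 0], [(0, 0), (0, 0), (0, 0), (2, 1)], [], []⟩,
  ⟨25, 8, [0, 0, 0, 0], [(0, 0), (0, 0), (0, 0), (2, 1)], [], []⟩,
  ⟨27, 16, [0, 0, 0, 0], [(0, 0), (0, 0), (0, 0), (2, 1)], [], []⟩,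
  ⟨29, 16, [0, 0, 0, 0], [(0, 0), (0, 0), (0, 0), (2, 1)], [], []⟩,
  ⟨31, 16, [0, 0, 0, 0], [(0, 0), (0, 0), (0, 0), (2, 1)], [], []⟩,
  ⟨33, 2, [0, 0, 0, 0], [(0, 0), (0, 0), (0, 0), (2, 1)], [], []⟩]

theorem tab34_ok : tabOK 34 17 17 1 tab34 = true := by decide +kernel

/-- the data for degree 35 -/
def tab35 : List Cs := [
  ⟨6, 2, [1, 1, 2, 3], [(0, 0), (0, 0), (0, 0), (0, 0)], [⟨[3], 1, [(1, 1), (2, 1), (3, 1), (4,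
    1), (8, 1), (9, 1)], 0⟩], [⟨1, true, [1, 3, 8, 10, 26, 28, 31, 33]⟩]⟩,
  ⟨8, 4, [1, 1, 2, 3], [(0, 0), (0, 0), (0, 0), (0, 0)], [⟨[3], 1, [(1, 1), (2, 1), (3, 1)],
    0⟩], [⟨1, true, [1, 3, 8, 10, 26, 28, 31, 33]⟩]⟩,
  ⟨13, 4, [1, 1, 1, 3], [(0, 0), (0, 0), (5, 7), (0, 0)], [⟨[1], 1, [(1, 1), (2, 1), (3, 1)],
    1⟩], []⟩,
  ⟨22, 4, [1, 1, 2, 3], [(0, 0), (0, 0), (0, 0), (0, 0)], [⟨[3], 1, [(1, 1), (2, 1), (3, 1)],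
    0⟩], [⟨1, true, [1, 3, 8, 10, 26, 28, 31, 33]⟩]⟩,
  ⟨27, 4, [1, 1, 1, 3], [(0, 0), (0, 0), (5, 7), (0, 0)], [⟨[1], 1, [(1, 1), (2, 1), (3, 1)],
    1⟩], []⟩,
  ⟨29, 2, [1, 1, 2, 3], [(0, 0), (0, 0), (0, 0), (0, 0)], [⟨[3], 1, [(1, 1), (2, 1), (3, 1),
    (4, 1), (8, 1), (9, 1)], 0⟩], [⟨1, true, [1, 3, 8, 10, 26, 28, 31, 33]⟩]⟩,
  ⟨34, 2, [1, 1, 1, 1], [(0, 0), (0, 0), (5, 7), (1, 7)], [], []⟩]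

theorem tab35_ok : tabOK 35 5 7 3 tab35 = true := by decide +kernel

/-- the data for degree 36 -/
def tab36 : List Cs := [
  ⟨17, 2, [0, 0, 0, 0], [(0, 0), (0, 0), (0, 0), (4, 2)], [], []⟩,
  ⟨19, 2, [0, 0, 0, 0], [(0, 0), (0, 0), (0, 0), (12, 3)], [], []⟩,
  ⟨35, 2, [0, 0, 0, 0], [(0, 0), (0, 0), (0, 0), (4, 1)], [], []⟩]

theorem tab36_ok : tabOK 36 3 3 3 tab36 = true := by decide +kernel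

/-- the data for degree 37 -/
def tab37 : List Cs := [
  ⟨6, 4, [3, 3, 3, 3], [(0, 0), (0, 0), (0, 0), (0, 0)], [], []⟩,
  ⟨31, 4, [3, 3, 3, 3], [(0, 0), (0, 0), (0, 0), (0, 0)], [], []⟩,
  ⟨36, 2, [3, 3, 3, 3], [(0, 0), (0, 0), (0, 0), (0, 0)], [], []⟩]

theorem tab37_ok : tabOK 37 37 37 9 tab37 = true := by decide +kernel

/-- the data for degree 38 -/
def tab38 : List Cs := [
  ⟨37, 2, [0, 0, 0, 0], [(0, 0), (0, 0), (0, 0), (2, 1)], [], []⟩]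

theorem tab38_ok : tabOK 38 19 19 9 tab38 = true := by decide +kernel

/-- the data for degree 39 -/
def tab39 : List Cs := [
  ⟨5, 4, [1, 1, 1, 3], [(0, 0), (0, 0), (3, 13), (0, 0)], [⟨[1], 2, [(1, 1), (2, 1), (4, 1)],
    1⟩], []⟩,
  ⟨8, 4, [1, 1, 1, 3], [(0, 0), (0, 0), (3, 13), (0, 0)], [⟨[1], 2, [(1, 1), (2, 1), (4, 1)],
    1⟩], []⟩,
  ⟨14, 2, [1, 1, 2, 3], [(0, 0), (0, 0), (0, 0), (0, 0)], [⟨[2], 1, [(2, 1), (5, 1), (7, 1)],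
    0⟩], [⟨1, false, [1, 13, 29, 35]⟩]⟩,
  ⟨25, 2, [1, 1, 2, 3], [(0, 0), (0, 0), (0, 0), (0, 0)], [⟨[2], 1, [(2, 1), (5, 1), (7, 1)],
    1⟩, ⟨[1], 2, [(1, 1), (2, 3), (4, 1), (5, 3), (7, 1), (10, 1)], 0⟩], []⟩,
  ⟨31, 4, [1, 1, 2, 3], [(0, 0), (0, 0), (0, 0), (0, 0)], [⟨[1], 2, [(1, 1), (2, 3), (4, 1)],
    0⟩], [⟨2, false, [1, 3, 7, 28]⟩]⟩,
  ⟨34, 4, [1, 1, 2, 3], [(0, 0), (0, 0), (0, 0), (0, 0)], [⟨[1], 2, [(1, 1), (2, 3), (4, 1)],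
    0⟩], [⟨2, false, [1, 3, 7, 28]⟩]⟩,
  ⟨38, 2, [1, 1, 1, 1], [(0, 0), (0, 0), (3, 13), (1, 13)], [], []⟩]

theorem tab39_ok : tabOK 39 3 13 3 tab39 = true := by decide +kernel

/-- the data for degree 40 -/
def tab40 : List Cs := [
  ⟨3, 4, [0, 0, 0, 0], [(0, 0), (0, 0), (0, 0), (8, 4)], [], []⟩,
  ⟨7, 4, [0, 0, 0, 0], [(0, 0), (0, 0), (0, 0), (8, 4)], [], []⟩,
  ⟨9, 2, [0, 0, 0, 0], [(0, 0), (0, 0), (0, 0), (8, 4)], [], []⟩,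
  ⟨11, 2, [0, 0, 0, 3], [(0, 0), (0, 0), (0, 0), (0, 0)], [], [⟨0, true, [9, 16, 26, 29]⟩]⟩,
  ⟨13, 4, [0, 0, 0, 0], [(0, 0), (0, 0), (0, 0), (8, 2)], [], []⟩,
  ⟨17, 4, [0, 0, 0, 0], [(0, 0), (0, 0), (0, 0), (8, 2)], [], []⟩,
  ⟨19, 2, [0, 0, 0, 0], [(0, 0), (0, 0), (0, 0), (8, 2)], [], []⟩,
  ⟨21, 2, [0, 0, 0, 3], [(0, 0), (0, 0), (0, 0), (0, 0)], [], [⟨0, true, [9, 16, 26, 29]⟩]⟩,
  ⟨23, 4, [0, 0, 0, 0], [(0, 0), (0, 0), (0, 0), (8, 4)], [], []⟩,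
  ⟨27, 4, [0, 0, 0, 0], [(0, 0), (0, 0), (0, 0), (8, 4)], [], []⟩,
  ⟨29, 2, [0, 0, 0, 0], [(0, 0), (0, 0), (0, 0), (8, 4)], [], []⟩,
  ⟨31, 2, [0, 0, 0, 3], [(0, 0), (0, 0), (0, 0), (0, 0)], [], [⟨0, true, [9, 16, 26, 29]⟩]⟩,
  ⟨33, 4, [0, 0, 0, 0], [(0, 0), (0, 0), (0, 0), (8, 2)], [], []⟩,
  ⟨37, 4, [0, 0, 0, 0], [(0, 0), (0, 0), (0, 0), (8, 2)], [], []⟩,
  ⟨39, 2, [0, 0, 0, 0], [(0, 0), (0, 0), (0, 0), (8, 1)], [], []⟩]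

theorem tab40_ok : tabOK 40 5 5 1 tab40 = true := by decide +kernel

/-- the data for degree 41 -/
def tab41 : List Cs := [
  ⟨3, 8, [3, 3, 3, 3], [(0, 0), (0, 0), (0, 0), (0, 0)], [], []⟩,
  ⟨9, 4, [3, 3, 3, 3], [(0, 0), (0, 0), (0, 0), (0, 0)], [], []⟩,
  ⟨14, 8, [3, 3, 3, 3], [(0, 0), (0, 0), (0, 0), (0, 0)], [], []⟩,
  ⟨27, 8, [3, 3, 3, 3], [(0, 0), (0, 0), (0, 0), (0, 0)], [], []⟩,
  ⟨32, 4, [3, 3, 3, 3], [(0, 0), (0, 0), (0, 0), (0, 0)], [], []⟩,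
  ⟨38, 8, [3, 3, 3, 3], [(0, 0), (0, 0), (0, 0), (0, 0)], [], []⟩,
  ⟨40, 2, [3, 3, 3, 3], [(0, 0), (0, 0), (0, 0), (0, 0)], [], []⟩]

theorem tab41_ok : tabOK 41 41 41 5 tab41 = true := by decide +kernel

/-- the data for degree 42 -/
def tab42 : List Cs := [
  ⟨13, 2, [0, 1, 0, 0], [(0, 0), (0, 0), (6, 3), (4, 1)], [⟨[0], 2, [(1, 1), (5, 1), (11, 1)],
    1⟩], []⟩,
  ⟨29, 2, [0, 0, 2, 3], [(0, 0), (14, 7), (0, 0), (0, 0)], [⟨[0], 2, [(1, 1), (5, 1), (11, 1)],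
    1⟩], [⟨2, true, [10, 12, 22, 40]⟩]⟩,
  ⟨41, 2, [0, 0, 0, 0], [(0, 0), (14, 1), (6, 1), (2, 1)], [], []⟩]

theorem tab42_ok : tabOK 42 3 7 3 tab42 = true := by decide +kernel

/-- the data for degree 43 -/
def tab43 : List Cs := [
  ⟨42, 2, [3, 3, 3, 3], [(0, 0), (0, 0), (0, 0), (0, 0)], [], []⟩]

theorem tab43_ok : tabOK 43 43 43 21 tab43 = true := by decide +kernel

/-- the data for degree 44 -/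
def tab44 : List Cs := [
  ⟨21, 2, [0, 0, 0, 0], [(0, 0), (0, 0), (0, 0), (4, 2)], [], []⟩,
  ⟨23, 2, [0, 0, 0, 3], [(0, 0), (0, 0), (0, 0), (0, 0)], [], [⟨0, true, [3, 7, 11, 22, 23, 35,
    36, 39]⟩]⟩,
  ⟨43, 2, [0, 0, 0, 0], [(0, 0), (0, 0), (0, 0), (4, 1)], [], []⟩]

theorem tab44_ok : tabOK 44 11 11 5 tab44 = true := by decide +kernel

/-- the data for degree 45 -/
def tab45 : List Cs := [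
  ⟨8, 4, [1, 1, 1, 3], [(0, 0), (0, 0), (9, 5), (0, 0)], [⟨[1], 1, [(1, 1), (2, 1), (4, 1)],
    1⟩], []⟩,
  ⟨17, 4, [1, 1, 1, 3], [(0, 0), (0, 0), (9, 5), (0, 0)], [⟨[1], 1, [(1, 1), (2, 1), (4, 1)],
    1⟩], []⟩,
  ⟨19, 2, [1, 1, 2, 3], [(0, 0), (0, 0), (0, 0), (0, 0)], [⟨[3], 1, [(1, 1), (2, 1), (4, 1),
    (8, 1), (11, 1), (13, 1)], 0⟩], [⟨1, true, [9, 15, 24, 42]⟩]⟩,
  ⟨26, 2, [1, 1, 2, 3], [(0, 0), (0, 0), (0, 0), (0, 0)], [⟨[3], 1, [(1, 1), (2, 1), (4, 1),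
    (8, 1), (11, 1), (13, 1)], 0⟩], [⟨1, true, [9, 15, 24, 42]⟩]⟩,
  ⟨28, 4, [1, 1, 2, 3], [(0, 0), (0, 0), (0, 0), (0, 0)], [⟨[3], 1, [(1, 1), (2, 1), (4, 1)],
    0⟩], [⟨1, true, [9, 15, 24, 42]⟩]⟩,
  ⟨37, 4, [1, 1, 2, 3], [(0, 0), (0, 0), (0, 0), (0, 0)], [⟨[3], 1, [(1, 1), (2, 1), (4, 1)],
    0⟩], [⟨1, true, [9, 15, 24, 42]⟩]⟩,
  ⟨44, 2, [1, 1, 1, 1], [(0, 0), (0, 0), (9, 5), (1, 5)], [], []⟩]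

theorem tab45_ok : tabOK 45 3 5 3 tab45 = true := by decide +kernel

/-- the data for degree 46 -/
def tab46 : List Cs := [
  ⟨45, 2, [0, 0, 0, 0], [(0, 0), (0, 0), (0, 0), (2, 1)], [], []⟩]

theorem tab46_ok : tabOK 46 23 23 11 tab46 = true := by decide +kernel

/-- the data for degree 47 -/
def tab47 : List Cs := [
  ⟨46, 2, [3, 3, 3, 3], [(0, 0), (0, 0), (0, 0), (0, 0)], [], []⟩]

theorem tab47_ok : tabOK 47 47 47 23 tab47 = true := by decide +kernel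

/-- the data for degree 48 -/
def tab48 : List Cs := [
  ⟨5, 4, [0, 0, 0, 0], [(0, 0), (0, 0), (0, 0), (16, 8)], [], []⟩,
  ⟨7, 2, [0, 0, 0, 0], [(0, 0), (0, 0), (0, 0), (16, 4)], [], []⟩,
  ⟨11, 4, [0, 0, 0, 0], [(0, 0), (0, 0), (0, 0), (16, 4)], [], []⟩,
  ⟨13, 4, [0, 0, 0, 3], [(0, 0), (0, 0), (0, 0), (0, 0)], [], [⟨0, true, [10, 16, 34, 36]⟩]⟩,
  ⟨17, 2, [0, 0, 0, 0], [(0, 0), (0, 0), (0, 0), (16, 8)], [], []⟩,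
  ⟨19, 4, [0, 0, 0, 0], [(0, 0), (0, 0), (0, 0), (16, 4)], [], []⟩,
  ⟨23, 2, [0, 0, 0, 0], [(0, 0), (0, 0), (0, 0), (16, 2)], [], []⟩,
  ⟨25, 2, [0, 0, 0, 3], [(0, 0), (0, 0), (0, 0), (0, 0)], [], [⟨0, true, [10, 16, 34, 36]⟩]⟩,
  ⟨29, 4, [0, 0, 0, 0], [(0, 0), (0, 0), (0, 0), (16, 8)], [], []⟩,
  ⟨31, 2, [0, 0, 0, 0], [(0, 0), (0, 0), (0, 0), (16, 4)], [], []⟩,
  ⟨35, 4, [0, 0, 0, 0], [(0, 0), (0, 0), (0, 0), (16, 4)], [], []⟩,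
  ⟨37, 4, [0, 0, 0, 3], [(0, 0), (0, 0), (0, 0), (0, 0)], [], [⟨0, true, [10, 16, 34, 36]⟩]⟩,
  ⟨41, 2, [0, 0, 0, 0], [(0, 0), (0, 0), (0, 0), (16, 8)], [], []⟩,
  ⟨43, 4, [0, 0, 0, 0], [(0, 0), (0, 0), (0, 0), (16, 4)], [], []⟩,
  ⟨47, 2, [0, 0, 0, 0], [(0, 0), (0, 0), (0, 0), (16, 1)], [], []⟩]

theorem tab48_ok : tabOK 48 3 3 1 tab48 = true := by decide +kernel

/-- the data for degree 49 -/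
def tab49 : List Cs := [
  ⟨48, 2, [3, 3, 3, 3], [(0, 0), (0, 0), (0, 0), (0, 0)], [], []⟩]

theorem tab49_ok : tabOK 49 7 7 21 tab49 = true := by decide +kernel

/-- the data for degree 50 -/
def tab50 : List Cs := [
  ⟨7, 4, [0, 0, 0, 0], [(0, 0), (0, 0), (0, 0), (2, 1)], [], []⟩,
  ⟨43, 4, [0, 0, 0, 0], [(0, 0), (0, 0), (0, 0), (2, 1)], [], []⟩,
  ⟨49, 2, [0, 0, 0, 0], [(0, 0), (0, 0), (0, 0), (2, 1)], [], []⟩]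

theorem tab50_ok : tabOK 50 5 5 5 tab50 = true := by decide +kernel

/-- the data for degree 51 -/
def tab51 : List Cs := [
  ⟨2, 8, [1, 1, 1, 3], [(0, 0), (0, 0), (3, 17), (0, 0)], [⟨[1], 1, [(1, 1), (5, 1)], 1⟩], []⟩,
  ⟨4, 4, [1, 1, 2, 3], [(0, 0), (0, 0), (0, 0), (0, 0)], [⟨[3], 1, [(1, 1), (2, 1), (5, 1), (7,
    1)], 0⟩], [⟨1, true, [4, 7, 16, 19, 25, 31, 33, 34, 40, 46]⟩]⟩,
  ⟨5, 16, [1, 1, 1, 3], [(0, 0), (0, 0), (3, 17), (0, 0)], [⟨[1], 1, [(1, 1)], 1⟩], []⟩,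
  ⟨7, 16, [1, 1, 2, 3], [(0, 0), (0, 0), (0, 0), (0, 0)], [⟨[3], 1, [(1, 1)], 0⟩], [⟨1, true,
    [4, 7, 16, 19, 25, 31, 33, 34, 40, 46]⟩]⟩,
  ⟨8, 8, [1, 1, 1, 3], [(0, 0), (0, 0), (3, 17), (0, 0)], [⟨[1], 1, [(1, 1), (5, 1)], 1⟩], []⟩,
  ⟨10, 16, [1, 1, 2, 3], [(0, 0), (0, 0), (0, 0), (0, 0)], [⟨[3], 1, [(1, 1)], 0⟩], [⟨1, true,
    [4, 7, 16, 19, 25, 31, 33, 34, 40, 46]⟩]⟩,
  ⟨11, 16, [1, 1, 1, 3], [(0, 0), (0, 0), (3, 17), (0, 0)], [⟨[1], 1, [(1, 1)], 1⟩], []⟩,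
  ⟨13, 4, [1, 1, 2, 3], [(0, 0), (0, 0), (0, 0), (0, 0)], [⟨[3], 1, [(1, 1), (2, 1), (5, 1),
    (7, 1)], 0⟩], [⟨1, true, [4, 7, 16, 19, 25, 31, 33, 34, 40, 46]⟩]⟩,
  ⟨14, 16, [1, 1, 1, 3], [(0, 0), (0, 0), (3, 17), (0, 0)], [⟨[1], 1, [(1, 1)], 1⟩], []⟩,
  ⟨16, 2, [1, 1, 2, 3], [(0, 0), (0, 0), (0, 0), (0, 0)], [⟨[3], 1, [(1, 1), (2, 1), (4, 1),
    (5, 1), (7, 1), (8, 1), (11, 1), (14, 1)], 0⟩], [⟨1, true, [4, 7, 16, 19, 25, 31, 33, 34,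
    40, 46]⟩]⟩,
  ⟨19, 8, [1, 1, 2, 3], [(0, 0), (0, 0), (0, 0), (0, 0)], [⟨[3], 1, [(1, 1), (5, 1)], 0⟩], [⟨1,
    true, [4, 7, 16, 19, 25, 31, 33, 34, 40, 46]⟩]⟩,
  ⟨20, 16, [1, 1, 1, 3], [(0, 0), (0, 0), (3, 17), (0, 0)], [⟨[1], 1, [(1, 1)], 1⟩], []⟩,
  ⟨22, 16, [1, 1, 2, 3], [(0, 0), (0, 0), (0, 0), (0, 0)], [⟨[3], 1, [(1, 1)], 0⟩], [⟨1, true,
    [4, 7, 16, 19, 25, 31, 33, 34, 40, 46]⟩]⟩,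
  ⟨23, 16, [1, 1, 1, 3], [(0, 0), (0, 0), (3, 17), (0, 0)], [⟨[1], 1, [(1, 1)], 1⟩], []⟩,
  ⟨25, 8, [1, 1, 2, 3], [(0, 0), (0, 0), (0, 0), (0, 0)], [⟨[3], 1, [(1, 1), (5, 1)], 0⟩], [⟨1,
    true, [4, 7, 16, 19, 25, 31, 33, 34, 40, 46]⟩]⟩,
  ⟨26, 8, [1, 1, 1, 3], [(0, 0), (0, 0), (3, 17), (0, 0)], [⟨[1], 1, [(1, 1), (5, 1)], 1⟩], []⟩,
  ⟨28, 16, [1, 1, 2, 3], [(0, 0), (0, 0), (0, 0), (0, 0)], [⟨[3], 1, [(1, 1)], 0⟩], [⟨1, true,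
    [4, 7, 16, 19, 25, 31, 33, 34, 40, 46]⟩]⟩,
  ⟨29, 16, [1, 1, 1, 3], [(0, 0), (0, 0), (3, 17), (0, 0)], [⟨[1], 1, [(1, 1)], 1⟩], []⟩,
  ⟨31, 16, [1, 1, 2, 3], [(0, 0), (0, 0), (0, 0), (0, 0)], [⟨[3], 1, [(1, 1)], 0⟩], [⟨1, true,
    [4, 7, 16, 19, 25, 31, 33, 34, 40, 46]⟩]⟩,
  ⟨32, 8, [1, 1, 1, 3], [(0, 0), (0, 0), (3, 17), (0, 0)], [⟨[1], 1, [(1, 1), (5, 1)], 1⟩], []⟩,
  ⟨35, 2, [1, 1, 2, 3], [(0, 0), (0, 0), (0, 0), (0, 0)], [⟨[3], 1, [(1, 1), (2, 1), (4, 1),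
    (5, 1), (7, 1), (8, 1), (11, 1), (14, 1)], 0⟩], [⟨1, true, [4, 7, 16, 19, 25, 31, 33, 34,
    40, 46]⟩]⟩,
  ⟨37, 16, [1, 1, 2, 3], [(0, 0), (0, 0), (0, 0), (0, 0)], [⟨[3], 1, [(1, 1)], 0⟩], [⟨1, true,
    [4, 7, 16, 19, 25, 31, 33, 34, 40, 46]⟩]⟩,
  ⟨38, 4, [1, 1, 1, 3], [(0, 0), (0, 0), (3, 17), (0, 0)], [⟨[1], 1, [(1, 1), (2, 1), (5, 1),
    (7, 1)], 1⟩], []⟩,
  ⟨40, 16, [1, 1, 2, 3], [(0, 0), (0, 0), (0, 0), (0, 0)], [⟨[3], 1, [(1, 1)], 0⟩], [⟨1, true,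
    [4, 7, 16, 19, 25, 31, 33, 34, 40, 46]⟩]⟩,
  ⟨41, 16, [1, 1, 1, 3], [(0, 0), (0, 0), (3, 17), (0, 0)], [⟨[1], 1, [(1, 1)], 1⟩], []⟩,
  ⟨43, 8, [1, 1, 2, 3], [(0, 0), (0, 0), (0, 0), (0, 0)], [⟨[3], 1, [(1, 1), (5, 1)], 0⟩], [⟨1,
    true, [4, 7, 16, 19, 25, 31, 33, 34, 40, 46]⟩]⟩,
  ⟨44, 16, [1, 1, 1, 3], [(0, 0), (0, 0), (3, 17), (0, 0)], [⟨[1], 1, [(1, 1)], 1⟩], []⟩,
  ⟨46, 16, [1, 1, 2, 3], [(0, 0), (0, 0), (0, 0), (0, 0)], [⟨[3], 1, [(1, 1)], 0⟩], [⟨1, true,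
    [4, 7, 16, 19, 25, 31, 33, 34, 40, 46]⟩]⟩,
  ⟨47, 4, [1, 1, 1, 3], [(0, 0), (0, 0), (3, 17), (0, 0)], [⟨[1], 1, [(1, 1), (2, 1), (5, 1),
    (7, 1)], 1⟩], []⟩,
  ⟨49, 8, [1, 1, 2, 3], [(0, 0), (0, 0), (0, 0), (0, 0)], [⟨[3], 1, [(1, 1), (5, 1)], 0⟩], [⟨1,
    true, [4, 7, 16, 19, 25, 31, 33, 34, 40, 46]⟩]⟩,
  ⟨50, 2, [1, 1, 1, 1], [(0, 0), (0, 0), (3, 17), (1, 17)], [], []⟩]

theorem tab51_ok : tabOK 51 3 17 1 tab51 = true := by decide +kernel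

/-- the data for degree 52 -/
def tab52 : List Cs := [
  ⟨5, 4, [0, 0, 0, 0], [(0, 0), (0, 0), (0, 0), (4, 2)], [], []⟩,
  ⟨21, 4, [0, 0, 0, 0], [(0, 0), (0, 0), (0, 0), (4, 2)], [], []⟩,
  ⟨25, 2, [0, 0, 0, 0], [(0, 0), (0, 0), (0, 0), (4, 2)], [], []⟩,
  ⟨27, 2, [0, 0, 0, 3], [(0, 0), (0, 0), (0, 0), (0, 0)], [], [⟨0, true, [3, 10, 11, 19, 32,
    35, 47, 51]⟩]⟩,
  ⟨31, 4, [0, 0, 0, 0], [(0, 0), (0, 0), (0, 0), (4, 2)], [], []⟩,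
  ⟨47, 4, [0, 0, 0, 0], [(0, 0), (0, 0), (0, 0), (4, 2)], [], []⟩,
  ⟨51, 2, [0, 0, 0, 0], [(0, 0), (0, 0), (0, 0), (4, 1)], [], []⟩]

theorem tab52_ok : tabOK 52 13 13 3 tab52 = true := by decide +kernel

/-- the data for degree 53 -/
def tab53 : List Cs := [
  ⟨23, 4, [3, 3, 3, 3], [(0, 0), (0, 0), (0, 0), (0, 0)], [], []⟩,
  ⟨30, 4, [3, 3, 3, 3], [(0, 0), (0, 0), (0, 0), (0, 0)], [], []⟩,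
  ⟨52, 2, [3, 3, 3, 3], [(0, 0), (0, 0), (0, 0), (0, 0)], [], []⟩]

theorem tab53_ok : tabOK 53 53 53 13 tab53 = true := by decide +kernel

/-- the data for degree 54 -/
def tab54 : List Cs := [
  ⟨53, 2, [0, 0, 0, 0], [(0, 0), (0, 0), (0, 0), (2, 1)], [], []⟩]

theorem tab54_ok : tabOK 54 3 3 9 tab54 = true := by decide +kernel

/-- the data for degree 55 -/
def tab55 : List Cs := [
  ⟨32, 4, [1, 1, 1, 3], [(0, 0), (0, 0), (5, 11), (0, 0)], [⟨[1], 2, [(1, 3), (2, 3), (3, 1),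
    (4, 3), (6, 1)], 1⟩], []⟩,
  ⟨34, 2, [1, 1, 2, 3], [(0, 0), (0, 0), (0, 0), (0, 0)], [⟨[1], 1, [(1, 1), (4, 1), (6, 1),
    (9, 1), (14, 1)], 1⟩, ⟨[2], 2, [(1, 3), (2, 1), (3, 3), (4, 3), (6, 1), (7, 1), (9, 3),
    (12, 3), (14, 3), (17, 1)], 0⟩], []⟩,
  ⟨43, 4, [1, 1, 1, 3], [(0, 0), (0, 0), (5, 11), (0, 0)], [⟨[1], 2, [(1, 3), (2, 3), (3, 1),
    (4, 3), (6, 1)], 1⟩], []⟩,
  ⟨54, 2, [1, 1, 1, 1], [(0, 0), (0, 0), (5, 11), (1, 11)], [], []⟩]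

theorem tab55_ok : tabOK 55 5 11 5 tab55 = true := by decide +kernel

/-- the data for degree 56 -/
def tab56 : List Cs := [
  ⟨13, 2, [0, 0, 0, 0], [(0, 0), (0, 0), (0, 0), (8, 4)], [], []⟩,
  ⟨15, 2, [0, 0, 0, 3], [(0, 0), (0, 0), (0, 0), (0, 0)], [⟨[0], 5, [(1, 3), (3, 1), (5, 1),
    (9, 3), (13, 1), (17, 1)], 1⟩], []⟩,
  ⟨27, 2, [0, 0, 0, 0], [(0, 0), (0, 0), (0, 0), (8, 2)], [], []⟩,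
  ⟨29, 2, [0, 0, 0, 3], [(0, 0), (0, 0), (0, 0), (0, 0)], [⟨[0], 5, [(1, 15), (3, 1), (5, 1),
    (9, 3), (11, 3), (13, 1)], 1⟩], []⟩,
  ⟨41, 2, [0, 0, 0, 0], [(0, 0), (0, 0), (0, 0), (8, 4)], [], []⟩,
  ⟨43, 2, [0, 0, 0, 3], [(0, 0), (0, 0), (0, 0), (0, 0)], [⟨[0], 5, [(1, 7), (3, 1), (5, 1),
    (11, 3), (15, 3), (19, 1)], 1⟩], []⟩,
  ⟨55, 2, [0, 0, 0, 0], [(0, 0), (0, 0), (0, 0), (8, 1)], [], []⟩]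

theorem tab56_ok : tabOK 56 7 7 3 tab56 = true := by decide +kernel

end Pool.Agent.N998.FP
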