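import Pool.Agent.N998.FP.Sound

/-!
# Tables
-/

set_option linter.unusedSectionVars false

namespace Pool.Agent.N998.FP

open Finset Pool.Agent.H916R2 Pool.Agent.H916T Pool.Agent.H916Z Pool.Agent.H916Q Pool.Agent.H916Y
  Pool.Agent.N992

/-- check of a table -/
def tabOK (m q r F : ℕ) (tab : List Cs) : Bool :=
  F % 2 == 1 && ((2 * q * r) ^ 7) % m == 0 &&
    tab.all fun c => caseOK m q r c && Nat.gcd F c.n == 1

/-- the residues `a` for which `a ^ F` is one or in the table -/
def inTab (m F : ℕ) (tab : List Cs) (a : ℕ) : Bool :=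
  a ^ F % m == 1 || tab.any fun c => c.u == a ^ F % m

lemma only_of {m q r : ℕ} (hq : q.Prime) (hr : r.Prime) (h : ((2 * q * r) ^ 7) % m = 0) :
    Only m q r := by
  intro l hl hlm
  have h1 : l ∣ (2 * q * r) ^ 7 := hlm.trans (Nat.dvd_of_mod_eq_zero h)
  have h2 := hl.dvd_of_dvd_pow h1
  rcases (hl.dvd_mul).mp h2 with h3 | h3
  · rcases (hl.dvd_mul).mp h3 with h4 | h4
    · exact Or.inl ((Nat.prime_dvd_prime_iff_eq hl Nat.prime_two).mp h4)
    · exact Or.inr (Or.inl ((Nat.prime_dvd_prime_iff_eq hl hq).mp h4))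
  · exact Or.inr (Or.inr ((Nat.prime_dvd_prime_iff_eq hl hr).mp h3))

/-- corrections from a table -/
theorem corr_of_table {m p q r F : ℕ} {tab : List Cs} (hm : 1 < m) (hq : q.Prime) (hr : r.Prime)
    (hok : tabOK m q r F tab = true) (hpm : p.Coprime m)
    (hcov : inTab m F tab (p % m) = true) : CorrOK p m := by
  have hz : NeZero m := ⟨by omega⟩
  unfold tabOK at hok
  simp only [Bool.and_eq_true, beq_iff_eq] at hok
  obtain ⟨⟨hF, hO⟩, hall⟩ := hok
  have hFo : Odd F := Nat.odd_iff.mpr hF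
  have hpow : ((p : ZMod m)) ^ F = (((p % m) ^ F % m : ℕ) : ZMod m) := by
    rw [cast_mod]
    push_cast
    rw [cast_mod]
  unfold inTab at hcov
  rw [Bool.or_eq_true, beq_iff_eq] at hcov
  rcases hcov with h1 | h1
  · apply corr_of_odd hpm
    rw [h1, Nat.cast_one] at hpow
    exact Odd.of_dvd_nat hFo (orderOf_dvd_of_pow_eq_one hpow)
  · rw [List.any_eq_true] at h1
    obtain ⟨c, hc, hcu⟩ := h1
    rw [beq_iff_eq] at hcu
    have h2 := List.all_eq_true.mp hall c hc
    rw [Bool.and_eq_true, beq_iff_eq] at h2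
    exact case_sound (only_of hq hr hO) hpm hFo h2.2 (by rw [hpow, hcu]) h2.1

/-- powers of two -/
theorem corr_of_two {m p k : ℕ} (hm : m = 2 ^ k) (hpm : p.Coprime m) : CorrOK p m := by
  classical
  have hz : NeZero m := ⟨by rw [hm]; exact pow_ne_zero _ (by norm_num)⟩
  intro s hs
  refine ⟨0, by simp, ?_⟩
  rw [Multiset.sum_zero, add_zero]
  intro a
  have h := link_parity (p := p) hs.1 hs.2.1 (by
    intro S hS h2
    have h1 : s.countP (Supp S) = 0 := by
      rw [Multiset.countP_eq_zero]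
      intro a _ ha
      obtain ⟨x, hx⟩ := hS
      unfold Supp at ha
      rw [← ha, Nat.mem_primeFactors] at hx
      have h3 : x ∣ 2 ^ k := hm ▸ hx.2.1.trans (addOrderOf_dvd_level a)
      have h4 := hx.1.dvd_of_dvd_pow h3
      have h5 := (Nat.prime_dvd_prime_iff_eq hx.1 Nat.prime_two).mp h4
      apply h2
      rw [← ha, ← h5]
      exact Nat.mem_primeFactors.mpr hx
    rw [h1]
    exact Even.zero) a
  convert h

end Pool.Agent.N998.FP
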